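import Pool.Agent.Lib.MP_b07157_agYL.Morse

/-!
# Nodes of plane curves
-/

noncomputable section

namespace MPb07157

open MvPolynomial

namespace YL

open SI

/-- The derivatives of the germ in the chart. -/
private theorem pderiv_gch (F : MvPolynomial (Fin 3) ℂ) (q : Fin 3 → ℂ) (j₀ : Fin 3) (i : Fin 2) :
    pderiv i (gch F q j₀) = gch (pderiv (j₀.succAbove i) F) q j₀ := by
  unfold gch
  induction F using MvPolynomial.induction_on with
  | C a => simp
  | add p r hp hr => simp only [map_add, hp, hr]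
  | mul_X p l hp =>
    rw [map_mul, aeval_X, Derivation.leibniz, hp, Derivation.leibniz, map_add, smul_eq_mul,
      smul_eq_mul, smul_eq_mul, smul_eq_mul, map_mul, map_mul, aeval_X]
    rcases Fin.eq_self_or_eq_succAbove j₀ l with rfl | ⟨m, rfl⟩
    · rw [Fin.insertNth_apply_same, pderiv_one, pderiv_X_of_ne (Fin.succAbove_ne _ _).symm]
      simp
    · rw [Fin.insertNth_apply_succAbove, map_add, pderiv_C, add_zero]
      by_cases h : m = i
      · subst h
        rw [pderiv_X_self, pderiv_X_self, map_one]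
      · rw [pderiv_X_of_ne h, pderiv_X_of_ne (fun hh => h (Fin.succAbove_right_injective hh))]
        simp

private theorem constantCoeff_gch (F : MvPolynomial (Fin 3) ℂ) {q : Fin 3 → ℂ} {j₀ : Fin 3}
    (hq : q j₀ = 1) : constantCoeff (gch F q j₀) = eval q F := by
  unfold gch
  induction F using MvPolynomial.induction_on with
  | C a => simp
  | add p r hp hr => simp only [map_add, hp, hr]
  | mul_X p l hp =>
    rw [map_mul, map_mul, map_mul, hp, aeval_X, eval_X]
    congr 1
    rcases Fin.eq_self_or_eq_succAbove j₀ l with rfl | ⟨m, rfl⟩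
    · rw [Fin.insertNth_apply_same, map_one, hq]
    · rw [Fin.insertNth_apply_succAbove]
      simp

private theorem constantCoeff_coe' {n : ℕ} (f : MvPolynomial (Fin n) ℂ) :
    MvPowerSeries.constantCoeff (f : MvPowerSeries (Fin n) ℂ) = constantCoeff f := by
  rw [← MvPowerSeries.coeff_zero_eq_constantCoeff_apply, MvPolynomial.coeff_coe]
  rfl

private theorem hess2_gch (F : MvPolynomial (Fin 3) ℂ) {q : Fin 3 → ℂ} {j₀ : Fin 3} (hq : q j₀ = 1) :
    hess2 (gch F q j₀ : PC.P2) =
      eval q (pderiv (j₀.succAbove 0) (pderiv (j₀.succAbove 0) F)) *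
        eval q (pderiv (j₀.succAbove 1) (pderiv (j₀.succAbove 1) F)) -
      eval q (pderiv (j₀.succAbove 0) (pderiv (j₀.succAbove 1) F)) ^ 2 := by
  unfold hess2
  simp only [MvPowerSeries.pderiv_coe, constantCoeff_coe', pderiv_gch, constantCoeff_gch _ hq]


private theorem pderiv_comm3 (i j : Fin 3) (F : MvPolynomial (Fin 3) ℂ) :
    pderiv i (pderiv j F) = pderiv j (pderiv i F) := by
  induction F using MvPolynomial.induction_on with
  | C a => simp
  | add p r hp hr => simp only [map_add, hp, hr]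
  | mul_X p l hp =>
    have hX : ∀ a b : Fin 3, pderiv a (pderiv b (X l : MvPolynomial (Fin 3) ℂ)) = 0 := by
      intro a b
      by_cases h : l = b
      · subst h
        rw [pderiv_X_self, pderiv_one]
      · rw [pderiv_X_of_ne h, map_zero]
    simp only [Derivation.leibniz, map_add, smul_eq_mul, hp, hX]
    ring

/-- The Hessian determinant in the chart at a node. -/
theorem hess2_of_nodeAt {F : MvPolynomial (Fin 3) ℂ} {d : ℕ} (hF : F.IsHomogeneous d)
    {q : Fin 3 → ℂ} {j₀ : Fin 3} (hq : q j₀ = 1) (hs : ∀ j, eval q (pderiv j F) = 0)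
    (hn : NodeAt F q) : hess2 (gch F q j₀ : PC.P2) ≠ 0 := by
  intro h0
  rw [hess2_gch F hq] at h0
  unfold NodeAt at hn
  set H : Matrix (Fin 3) (Fin 3) ℂ := Matrix.of fun i j => eval q (pderiv i (pderiv j F)) with hH
  have hHa : ∀ i j, H i j = eval q (pderiv i (pderiv j F)) := fun i j => rfl
  have hsymm : ∀ i j, H i j = H j i := by
    intro i j
    rw [hHa, hHa, pderiv_comm3]
  have hHq : ∀ i, ∑ j, H i j * q j = 0 := by
    intro i
    have h1 := (hF.pderiv (i := i)).sum_X_mul_pderiv
    have h2 := congrArg (eval q) h1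
    rw [map_sum, map_nsmul, hs i, smul_zero] at h2
    rw [← h2]
    refine Finset.sum_congr rfl fun j _ => ?_
    rw [map_mul, eval_X, mul_comm, hsymm, hHa]
  have hdet : (H.submatrix j₀.succAbove j₀.succAbove).det = 0 := by
    rw [Matrix.det_fin_two]
    simp only [Matrix.submatrix_apply]
    rw [hsymm (j₀.succAbove 1) (j₀.succAbove 0)]
    simp only [hHa]
    rw [← h0]
    ring
  obtain ⟨w, hw0, hw⟩ := Matrix.exists_mulVec_eq_zero_iff.2 hdet
  have hwm : ∀ m, ∑ l, H (j₀.succAbove m) (j₀.succAbove l) * w l = 0 := fun m =>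
    congrFun hw m
  set w' : Fin 3 → ℂ := j₀.insertNth (α := fun _ => ℂ) 0 w with hw'
  have hw'0 : w' j₀ = 0 := Fin.insertNth_apply_same _ _ _
  have hw's : ∀ m, w' (j₀.succAbove m) = w m := fun m => Fin.insertNth_apply_succAbove _ _ _ _
  have hkw : H.mulVecLin w' = 0 := by
    ext i
    rw [Matrix.mulVecLin_apply, Pi.zero_apply]
    change ∑ j, H i j * w' j = 0
    rw [Fin.sum_univ_succAbove _ j₀, hw'0, mul_zero, zero_add]
    simp only [hw's]
    rcases Fin.eq_self_or_eq_succAbove j₀ i with rfl | ⟨m, rfl⟩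
    · have h3 : ∀ l, H i (i.succAbove l) =
          -∑ m, q (i.succAbove m) * H (i.succAbove m) (i.succAbove l) := by
        intro l
        have h4 := hHq (i.succAbove l)
        rw [Fin.sum_univ_succAbove _ i, hq, mul_one] at h4
        rw [hsymm, eq_neg_iff_add_eq_zero, ← h4]
        congr 1
        refine Finset.sum_congr rfl fun m _ => ?_
        rw [mul_comm, hsymm]
      simp only [h3, neg_mul, Finset.sum_neg_distrib, Finset.sum_mul]
      rw [Finset.sum_comm, neg_eq_zero]
      refine Finset.sum_eq_zero fun m _ => ?_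
      have h5 := hwm m
      rw [← mul_zero (q (i.succAbove m)), ← h5, Finset.mul_sum]
      refine Finset.sum_congr rfl fun l _ => ?_
      ring
    · exact hwm m
  have hkq : H.mulVecLin q = 0 := by
    ext i
    exact hHq i
  have hli : LinearIndependent ℂ ![(⟨q, hkq⟩ : LinearMap.ker H.mulVecLin), ⟨w', hkw⟩] := by
    rw [LinearIndependent.pair_iff]
    intro s t hst
    have h1 := congrArg Subtype.val hst
    have h2 := congrFun h1 j₀
    simp only [Submodule.coe_add, Submodule.coe_smul, Pi.add_apply, Pi.smul_apply, hq, hw'0,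
      smul_eq_mul, mul_one, mul_zero, add_zero, ZeroMemClass.coe_zero, Pi.zero_apply] at h2
    refine ⟨h2, ?_⟩
    by_contra ht
    apply hw0
    ext m
    have h3 := congrFun h1 (j₀.succAbove m)
    simp only [Submodule.coe_add, Submodule.coe_smul, Pi.add_apply, Pi.smul_apply, h2, hw's,
      smul_eq_mul, zero_mul, zero_add, ZeroMemClass.coe_zero, Pi.zero_apply, mul_eq_zero] at h3
    exact h3.resolve_left ht
  have h6 := hli.fintype_card_le_finrank
  have h7 := LinearMap.finrank_range_add_finrank_ker H.mulVecLin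
  rw [Matrix.rank] at hn
  rw [hn] at h7
  simp only [Fintype.card_fin, Module.finrank_fin_fun] at h6 h7
  omega

private theorem constantCoeff_pderiv_comm (i j : Fin 2) (g : PC.P2) :
    MvPowerSeries.constantCoeff (MvPowerSeries.pderiv ℂ i (MvPowerSeries.pderiv ℂ j g)) =
      MvPowerSeries.constantCoeff (MvPowerSeries.pderiv ℂ j (MvPowerSeries.pderiv ℂ i g)) := by
  by_cases h : i = j
  · rw [h]
  · rw [← MvPowerSeries.coeff_zero_eq_constantCoeff_apply,
      ← MvPowerSeries.coeff_zero_eq_constantCoeff_apply, MvPowerSeries.coeff_pderiv,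
      MvPowerSeries.coeff_pderiv, MvPowerSeries.coeff_pderiv, MvPowerSeries.coeff_pderiv]
    simp only [zero_add, Finsupp.coe_zero, Pi.zero_apply, Finsupp.single_apply, if_neg h,
      if_neg (Ne.symm h)]
    rw [add_comm (Finsupp.single i 1)]

/-- Nodes have a non-degenerate Hessian. -/
theorem hess2_of_isNode {g : PC.P2} (hn : PC.IsNode g) : hess2 g ≠ 0 := by
  obtain ⟨θ, h0, hj, W, hW, hsub⟩ := hn
  have hD : ∀ (j : Fin 2) (g : PC.P2),
      MvPowerSeries.constantCoeff (MvPowerSeries.pderiv ℂ j (MvPowerSeries.subst θ g)) =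
        ∑ i, MvPowerSeries.constantCoeff (MvPowerSeries.pderiv ℂ i g) *
          MvPowerSeries.constantCoeff (MvPowerSeries.pderiv ℂ j (θ i)) := by
    intro j g
    rw [PC.pderiv_subst h0, map_sum]
    refine Finset.sum_congr rfl fun i _ => ?_
    rw [map_mul, PC.constantCoeff_subst' h0]
  have hD2 : ∀ (j l : Fin 2) (g : PC.P2),
      MvPowerSeries.constantCoeff
        (MvPowerSeries.pderiv ℂ j (MvPowerSeries.pderiv ℂ l (MvPowerSeries.subst θ g))) =
        ∑ i, ((∑ m, MvPowerSeries.constantCoeff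
            (MvPowerSeries.pderiv ℂ m (MvPowerSeries.pderiv ℂ i g)) *
              MvPowerSeries.constantCoeff (MvPowerSeries.pderiv ℂ j (θ m))) *
          MvPowerSeries.constantCoeff (MvPowerSeries.pderiv ℂ l (θ i)) +
          MvPowerSeries.constantCoeff (MvPowerSeries.pderiv ℂ i g) *
          MvPowerSeries.constantCoeff
            (MvPowerSeries.pderiv ℂ j (MvPowerSeries.pderiv ℂ l (θ i)))) := by
    intro j l g
    rw [PC.pderiv_subst h0, map_sum, map_sum]
    refine Finset.sum_congr rfl fun i _ => ?_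
    rw [Derivation.leibniz, map_add, smul_eq_mul, smul_eq_mul, map_mul, map_mul, hD,
      PC.constantCoeff_subst' h0]
    ring
  have hK0 : ∀ j : Fin 2, MvPowerSeries.constantCoeff (MvPowerSeries.pderiv ℂ j
      (MvPowerSeries.X 0 * MvPowerSeries.X 1 * W : PC.P2)) = 0 := by
    intro j
    simp only [Derivation.leibniz, map_add, smul_eq_mul, map_mul, MvPowerSeries.constantCoeff_X,
      zero_mul, mul_zero, add_zero]
  have hK00 : MvPowerSeries.constantCoeff (MvPowerSeries.pderiv ℂ 0 (MvPowerSeries.pderiv ℂ 0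
      (MvPowerSeries.X 0 * MvPowerSeries.X 1 * W : PC.P2))) = 0 := by
    simp only [Derivation.leibniz, map_add, smul_eq_mul, map_mul, MvPowerSeries.constantCoeff_X,
      zero_mul, mul_zero, add_zero, MvPowerSeries.pderiv_X_self,
      MvPowerSeries.pderiv_X_of_ne (R := ℂ) (show (1 : Fin 2) ≠ 0 by decide), map_zero, map_one,
      MvPowerSeries.pderiv_one]
  have hK11 : MvPowerSeries.constantCoeff (MvPowerSeries.pderiv ℂ 1 (MvPowerSeries.pderiv ℂ 1
      (MvPowerSeries.X 0 * MvPowerSeries.X 1 * W : PC.P2))) = 0 := by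
    simp only [Derivation.leibniz, map_add, smul_eq_mul, map_mul, MvPowerSeries.constantCoeff_X,
      zero_mul, mul_zero, add_zero, MvPowerSeries.pderiv_X_self,
      MvPowerSeries.pderiv_X_of_ne (R := ℂ) (show (0 : Fin 2) ≠ 1 by decide), map_zero, map_one,
      MvPowerSeries.pderiv_one]
  have hK01 : MvPowerSeries.constantCoeff (MvPowerSeries.pderiv ℂ 0 (MvPowerSeries.pderiv ℂ 1
      (MvPowerSeries.X 0 * MvPowerSeries.X 1 * W : PC.P2))) = MvPowerSeries.constantCoeff W := by
    simp only [Derivation.leibniz, map_add, smul_eq_mul, map_mul, MvPowerSeries.constantCoeff_X,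
      zero_mul, mul_zero, add_zero, MvPowerSeries.pderiv_X_self,
      MvPowerSeries.pderiv_X_of_ne (R := ℂ) (show (0 : Fin 2) ≠ 1 by decide),
      MvPowerSeries.pderiv_X_of_ne (R := ℂ) (show (1 : Fin 2) ≠ 0 by decide), map_zero, map_one,
      MvPowerSeries.pderiv_one, mul_one, zero_add]
  have hjac : MvPowerSeries.constantCoeff (MvPowerSeries.pderiv ℂ 0 (θ 0)) *
      MvPowerSeries.constantCoeff (MvPowerSeries.pderiv ℂ 1 (θ 1)) -
      MvPowerSeries.constantCoeff (MvPowerSeries.pderiv ℂ 1 (θ 0)) *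
      MvPowerSeries.constantCoeff (MvPowerSeries.pderiv ℂ 0 (θ 1)) ≠ 0 := by
    unfold PC.jac at hj
    rw [map_sub, map_mul, map_mul] at hj
    exact hj
  have f0 := hD 0 g
  have f1 := hD 1 g
  rw [hsub, hK0, Fin.sum_univ_two] at f0 f1
  have g00 := hD2 0 0 g
  have g11 := hD2 1 1 g
  have g01 := hD2 0 1 g
  rw [hsub] at g00 g11 g01
  rw [hK00] at g00
  rw [hK11] at g11
  rw [hK01] at g01
  simp only [Fin.sum_univ_two] at g00 g11 g01
  rw [constantCoeff_pderiv_comm 1 0 g] at g00 g11 g01
  unfold hess2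
  generalize MvPowerSeries.constantCoeff (MvPowerSeries.pderiv ℂ 0 (MvPowerSeries.pderiv ℂ 0 g)) =
    a at *
  generalize MvPowerSeries.constantCoeff (MvPowerSeries.pderiv ℂ 1 (MvPowerSeries.pderiv ℂ 1 g)) =
    c at *
  generalize MvPowerSeries.constantCoeff (MvPowerSeries.pderiv ℂ 0 (MvPowerSeries.pderiv ℂ 1 g)) =
    b at *
  generalize MvPowerSeries.constantCoeff (MvPowerSeries.pderiv ℂ 0 g) = u at *
  generalize MvPowerSeries.constantCoeff (MvPowerSeries.pderiv ℂ 1 g) = v at *
  generalize MvPowerSeries.constantCoeff (MvPowerSeries.pderiv ℂ 0 (θ 0)) = p at *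
  generalize MvPowerSeries.constantCoeff (MvPowerSeries.pderiv ℂ 1 (θ 0)) = q at *
  generalize MvPowerSeries.constantCoeff (MvPowerSeries.pderiv ℂ 0 (θ 1)) = r at *
  generalize MvPowerSeries.constantCoeff (MvPowerSeries.pderiv ℂ 1 (θ 1)) = s at *
  have hu : u = 0 := by
    have h1 : u * (p * s - q * r) = 0 := by linear_combination (-s) * f0 + r * f1
    exact (mul_eq_zero.1 h1).resolve_right hjac
  have hv : v = 0 := by
    have h1 : v * (p * s - q * r) = 0 := by linear_combination q * f0 - p * f1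
    exact (mul_eq_zero.1 h1).resolve_right hjac
  subst hu
  subst hv
  simp only [zero_mul, add_zero] at g00 g11 g01
  intro h
  apply hW
  have h2 : MvPowerSeries.constantCoeff W ^ 2 = 0 := by
    rw [g01]
    have h3 : (a * c - b ^ 2) * (p * s - q * r) ^ 2 = 0 := by rw [h, zero_mul]
    have h4 : (((a * p + b * r) * p + (b * p + c * r) * r)) *
        ((a * q + b * s) * q + (b * q + c * s) * s) = 0 := by
      rw [← g00]
      ring
    linear_combination h4 - h3
  exact pow_eq_zero_iff (two_ne_zero) |>.1 h2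

private theorem constantCoeff_hgsum (N : ℕ) (G : ℕ → MvPolynomial (Fin 2) ℂ) :
    constantCoeff (∑ j ∈ Finset.range (N + 1),
      (X 0 : MvPolynomial (Fin 3) ℂ) ^ j * rename Fin.succ (G j)) = constantCoeff (G 0) := by
  rw [Finset.sum_range_succ', map_add, map_sum, Finset.sum_eq_zero, zero_add, pow_zero, one_mul,
    constantCoeff_rename]
  intro j _
  rw [pow_succ, mul_assoc, map_mul, map_mul]
  simp

private theorem pderiv_hgsum (N : ℕ) (G : ℕ → MvPolynomial (Fin 2) ℂ) (i : Fin 2) :
    pderiv i.succ (∑ j ∈ Finset.range (N + 1),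
      (X 0 : MvPolynomial (Fin 3) ℂ) ^ j * rename Fin.succ (G j)) =
      ∑ j ∈ Finset.range (N + 1),
        (X 0 : MvPolynomial (Fin 3) ℂ) ^ j * rename Fin.succ (pderiv i (G j)) := by
  rw [map_sum]
  refine Finset.sum_congr rfl fun j _ => ?_
  rw [Derivation.leibniz, Derivation.leibniz_pow, pderiv_X_of_ne (Fin.succ_ne_zero i).symm,
    smul_zero, smul_zero, smul_zero, add_zero, smul_eq_mul, pderiv_rename (Fin.succ_injective _)]

/-- The normal form at a node. -/
theorem ueq_node {f : MvPolynomial (Fin 3) ℂ} {d : ℕ} {q : Fin 3 → ℂ} {j₀ : Fin 3}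
    (hq : q j₀ = 1) (h0 : eval q (homogeneousComponent d f) = 0)
    (hs : ∀ j, eval q (pderiv j (homogeneousComponent d f)) = 0)
    (hh : hess2 (gch (homogeneousComponent d f) q j₀ : PC.P2) ≠ 0) :
    UEq (hg f d q j₀ : MvPowerSeries (Fin 3) ℂ) (X 1 * X 2) ∨
      ∃ κ, 0 < κ ∧ UEq (hg f d q j₀ : MvPowerSeries (Fin 3) ℂ) (X 1 * X 2 + X 0 ^ κ) := by
  have e1 : (1 : Fin 3) = (0 : Fin 2).succ := rfl
  have e2 : (2 : Fin 3) = (1 : Fin 2).succ := rfl
  refine ueq_morse ?_ ?_ ?_ ?_
  · rw [constantCoeff_coe', hg, constantCoeff_hgsum, constantCoeff_gch _ hq]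
    exact h0
  · rw [MvPowerSeries.pderiv_coe, constantCoeff_coe', hg, e1, pderiv_hgsum, constantCoeff_hgsum,
      pderiv_gch, constantCoeff_gch _ hq]
    exact hs _
  · rw [MvPowerSeries.pderiv_coe, constantCoeff_coe', hg, e2, pderiv_hgsum, constantCoeff_hgsum,
      pderiv_gch, constantCoeff_gch _ hq]
    exact hs _
  · rw [hess2_gch _ hq] at hh
    simp only [MvPowerSeries.pderiv_coe, constantCoeff_coe', hg, e1, e2, pderiv_hgsum,
      constantCoeff_hgsum, pderiv_gch, constantCoeff_gch _ hq]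
    exact hh

end YL

end MPb07157
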