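import Pool.Agent.Lib.MP_b07157_agYL.Defs
import Pool.Agent.Lib.MP_b07157_agU.Split1

/-!
# The normal form `g(x, y) + u^e`
-/

noncomputable section

namespace MPb07157

open MvPolynomial

namespace YL

open SI

/-- A form evaluated at a multiple. -/
theorem aeval_mul_form {σ S : Type*} [CommRing S] [Algebra ℂ S] {F : MvPolynomial σ ℂ} {m : ℕ}
    (hF : F.IsHomogeneous m) (t : S) (a : σ → S) :
    aeval (fun i => t * a i) F = t ^ m * aeval a F := by
  classical
  rw [aeval_def, eval₂_eq, aeval_def, eval₂_eq, Finset.mul_sum]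
  refine Finset.sum_congr rfl fun v hv => ?_
  have h1 : v.degree = m := by
    have h2 := hF (mem_support_iff.1 hv)
    rw [Finsupp.degree_eq_weight_one]
    exact h2
  have h3 : ∏ i ∈ v.support, (t * a i) ^ v i = t ^ m * ∏ i ∈ v.support, a i ^ v i := by
    simp only [mul_pow]
    rw [Finset.prod_mul_distrib, Finset.prod_pow_eq_pow_sum, ← h1]
    rfl
  rw [h3]
  ring

/-- The germ in the chart, with the new variables. -/
theorem rename_gch (F : MvPolynomial (Fin 3) ℂ) (q : Fin 3 → ℂ) (j₀ : Fin 3) :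
    rename Fin.succ (gch F q j₀) =
      aeval (j₀.insertNth (α := fun _ => MvPolynomial (Fin 3) ℂ) 1
        (fun l : Fin 2 => X l.succ + C (q (j₀.succAbove l)))) F := by
  unfold gch
  have h : (rename (R := ℂ) Fin.succ).comp (aeval (j₀.insertNth
      (α := fun _ => MvPolynomial (Fin 2) ℂ) 1 fun i => X i + C (q (j₀.succAbove i)))) =
      aeval (j₀.insertNth (α := fun _ => MvPolynomial (Fin 3) ℂ) 1
        (fun l : Fin 2 => X l.succ + C (q (j₀.succAbove l)))) := by
    apply algHom_ext
    intro i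
    rw [AlgHom.comp_apply, aeval_X, aeval_X]
    rcases Fin.eq_self_or_eq_succAbove j₀ i with rfl | ⟨l, rfl⟩
    · rw [Fin.insertNth_apply_same, Fin.insertNth_apply_same, map_one]
    · rw [Fin.insertNth_apply_succAbove, Fin.insertNth_apply_succAbove, map_add, rename_X,
        rename_C]
  exact congrArg (fun g => g F) h

/-- The value of `f` on the chart. -/
theorem aeval_chP {f : MvPolynomial (Fin 3) ℂ} {d : ℕ}
    (hlow : ∀ j < d, homogeneousComponent j f = 0) (q : Fin 3 → ℂ) (j₀ : Fin 3) :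
    aeval (chP q j₀) f = X 0 ^ d * hg f d q j₀ := by
  have hc : ∀ j, aeval (chP q j₀) (homogeneousComponent j f) =
      X 0 ^ j * rename Fin.succ (gch (homogeneousComponent j f) q j₀) := by
    intro j
    rw [rename_gch, ← aeval_mul_form (homogeneousComponent_isHomogeneous j f)]
    rfl
  have hs : ∀ N, f.totalDegree < N → f = ∑ j ∈ Finset.range N, homogeneousComponent j f := by
    intro N hN
    conv_lhs => rw [← sum_homogeneousComponent f]
    refine Finset.sum_subset (Finset.range_mono (by omega)) fun j _ hj => ?_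
    rw [Finset.mem_range, not_lt] at hj
    exact homogeneousComponent_eq_zero _ _ (by omega)
  conv_lhs => rw [hs (d + (f.totalDegree + 1)) (by omega)]
  rw [Finset.sum_range_add, map_add, map_sum, map_sum]
  rw [Finset.sum_eq_zero (s := Finset.range d), zero_add]
  · unfold hg
    rw [Finset.mul_sum]
    refine Finset.sum_congr rfl fun j _ => ?_
    rw [hc, pow_add, mul_assoc]
  · intro j hj
    rw [hlow j (Finset.mem_range.1 hj), map_zero]

/-- The value of the germ at the origin. -/
theorem eval_gch_ly (F : MvPolynomial (Fin 3) ℂ) (q : Fin 3 → ℂ) (j₀ : Fin 3) (hq : q j₀ = 1) :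
    eval 0 (gch F q j₀) = eval q F := by
  unfold gch
  have h : (eval (0 : Fin 2 → ℂ)).comp
      (aeval (j₀.insertNth (α := fun _ => MvPolynomial (Fin 2) ℂ) 1
        fun i => X i + C (q (j₀.succAbove i)))).toRingHom = eval q := by
    refine MvPolynomial.ringHom_ext ?_ ?_
    · intro r
      simp
    · intro i
      rcases Fin.eq_self_or_eq_succAbove j₀ i with rfl | ⟨j, rfl⟩
      · simp [hq]
      · simp
  exact congrArg (fun g : MvPolynomial (Fin 3) ℂ →+* ℂ => g F) h

/-- A sum without the terms `0 < j < e`. -/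
theorem sum_split {c : ℕ → MvPolynomial (Fin 3) ℂ} {e : ℕ} (hc : ∀ j, 0 < j → j < e → c j = 0)
    (he : 0 < e) (M : ℕ) : ∑ j ∈ Finset.range (e + (M + 1)), X 0 ^ j * c j =
      c 0 + X 0 ^ e * ∑ j ∈ Finset.range (M + 1), X 0 ^ j * c (e + j) := by
  have h1 : ∑ j ∈ Finset.range e, (X 0 : MvPolynomial (Fin 3) ℂ) ^ j * c j = c 0 := by
    rw [Finset.sum_eq_single 0]
    · rw [pow_zero, one_mul]
    · intro j hj hj0
      rw [hc j (Nat.pos_of_ne_zero hj0) (Finset.mem_range.1 hj), mul_zero]
    · intro h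
      exact absurd (Finset.mem_range.2 he) h
  have h2 : ∑ j ∈ Finset.range (M + 1), (X 0 : MvPolynomial (Fin 3) ℂ) ^ (e + j) * c (e + j) =
      X 0 ^ e * ∑ j ∈ Finset.range (M + 1), X 0 ^ j * c (e + j) := by
    rw [Finset.mul_sum]
    refine Finset.sum_congr rfl fun j _ => ?_
    rw [pow_add, mul_assoc]
  rw [Finset.sum_range_add, h1, h2]

/-- The normal form at a point where `f_{d+e}` does not vanish. -/
theorem ueq_ly {f : MvPolynomial (Fin 3) ℂ} {d e : ℕ} (he : 0 < e)
    (hmid : ∀ j, 0 < j → j < e → homogeneousComponent (d + j) f = 0) {q : Fin 3 → ℂ}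
    {j₀ : Fin 3} (hq : q j₀ = 1) (hqe : eval q (homogeneousComponent (d + e) f) ≠ 0) :
    UEq (hg f d q j₀ : MvPowerSeries (Fin 3) ℂ)
      (rename Fin.succ (gch (homogeneousComponent d f) q j₀) + X 0 ^ e) := by
  obtain ⟨c, hcj⟩ : ∃ c : ℕ → MvPolynomial (Fin 3) ℂ, ∀ j, c j =
      rename Fin.succ (gch (homogeneousComponent (d + j) f) q j₀) := ⟨_, fun _ => rfl⟩
  have hde : d + e ≤ f.totalDegree := by
    by_contra h
    rw [homogeneousComponent_eq_zero _ _ (by omega), map_zero] at hqe
    exact hqe rfl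
  obtain ⟨M, hM⟩ : ∃ M, f.totalDegree + 1 = e + (M + 1) := ⟨f.totalDegree - e, by omega⟩
  obtain ⟨V, hV⟩ : ∃ V : MvPolynomial (Fin 3) ℂ,
      V = ∑ j ∈ Finset.range (M + 1), X 0 ^ j * c (e + j) := ⟨_, rfl⟩
  have hc0 : ∀ j, 0 < j → j < e → c j = 0 := by
    intro j h1 h2
    rw [hcj, hmid j h1 h2]
    unfold gch
    rw [map_zero, map_zero]
  have hg0 : hg f d q j₀ = ∑ j ∈ Finset.range (f.totalDegree + 1), X 0 ^ j * c j := by
    unfold hg
    exact Finset.sum_congr rfl fun j _ => by rw [hcj]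
  have hg1 : hg f d q j₀ = c 0 + X 0 ^ e * V := by
    rw [hg0, hM, hV]
    exact sum_split hc0 he M
  have hV0 : MvPowerSeries.constantCoeff (V : MvPowerSeries (Fin 3) ℂ) ≠ 0 := by
    have h1 : eval (0 : Fin 3 → ℂ) V = eval q (homogeneousComponent (d + e) f) := by
      rw [hV, map_sum, Finset.sum_range_succ']
      rw [Finset.sum_eq_zero, zero_add, pow_zero, one_mul, add_zero]
      · rw [hcj, eval_rename, ← eval_gch_ly (homogeneousComponent (d + e) f) q j₀ hq]
        rfl
      · intro j _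
        rw [map_mul, map_pow, eval_X, Pi.zero_apply, zero_pow (Nat.succ_ne_zero j), zero_mul]
    have h2 : MvPowerSeries.constantCoeff (V : MvPowerSeries (Fin 3) ℂ) = eval 0 V := by
      rw [← MvPowerSeries.coeff_zero_eq_constantCoeff_apply, coeff_coe,
        ← constantCoeff_eq, eval_zero]
    rw [h2, h1]
    exact hqe
  -- the root of `V`
  set β := MvPowerSeries.constantCoeff (V : MvPowerSeries (Fin 3) ℂ) with hβ
  obtain ⟨s, hs⟩ := IsAlgClosed.exists_pow_nat_eq β he
  obtain ⟨H, hH1, hH2⟩ := ARL.exists_root (R := ℂ) (N := e) he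
    (U := MvPowerSeries.C β⁻¹ * (V : MvPowerSeries (Fin 3) ℂ)) (by
      rw [map_mul, MvPowerSeries.constantCoeff_C, ← hβ, inv_mul_cancel₀ hV0])
  have hs0 : s ≠ 0 := by
    rintro rfl
    apply hV0
    rw [← hs, zero_pow he.ne']
  set S : MvPowerSeries (Fin 3) ℂ := MvPowerSeries.C s * H with hS
  have hSe : S ^ e = (V : MvPowerSeries (Fin 3) ℂ) := by
    rw [hS, mul_pow, hH2, ← mul_assoc, ← map_pow, ← map_mul, hs, mul_inv_cancel₀ hV0,
      map_one, one_mul]
  have hSc : MvPowerSeries.constantCoeff S = s := by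
    rw [hS, map_mul, MvPowerSeries.constantCoeff_C, hH1, mul_one]
  have hSu : IsUnit S := by
    rw [MvPowerSeries.isUnit_iff_constantCoeff, hSc]
    exact isUnit_iff_ne_zero.2 hs0
  -- the change of coordinates
  obtain ⟨E, hE⟩ := Spl.exists_equiv' (n := 3)
    (a := Fin.cons (MvPowerSeries.X 0 * S) fun l : Fin 2 => MvPowerSeries.X l.succ) (by
      intro i
      refine Fin.cases ?_ (fun l => ?_) i
      · rw [Fin.cons_zero, map_mul, MvPowerSeries.constantCoeff_X, zero_mul]
      · rw [Fin.cons_succ, MvPowerSeries.constantCoeff_X]) (by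
      intro v hv
      have h2 : ∀ l : Fin 2, v l.succ = 0 := by
        intro l
        have h3 := hv l.succ
        rw [Fin.cons_succ, Finset.sum_eq_single l.succ] at h3
        · rwa [Spl.pderiv_X, if_pos rfl, map_one, one_mul] at h3
        · intro j _ hj
          rw [Spl.pderiv_X, if_neg hj, map_zero, zero_mul]
        · intro h
          exact absurd (Finset.mem_univ _) h
      have h3 := hv 0
      rw [Fin.cons_zero, Fin.sum_univ_succ, Finset.sum_eq_zero (s := Finset.univ)
        (fun l _ => by rw [h2 l, mul_zero]), add_zero, Derivation.leibniz, Spl.pderiv_X,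
        if_pos rfl, smul_eq_mul, smul_eq_mul, mul_one, map_add, map_mul,
        MvPowerSeries.constantCoeff_X, zero_mul, zero_add, hSc] at h3
      have h4 : v 0 = 0 := (mul_eq_zero.1 h3).resolve_left hs0
      funext i
      refine Fin.cases ?_ (fun l => ?_) i
      · exact h4
      · exact h2 l)
  have hE0 : E (MvPowerSeries.X 0) = MvPowerSeries.X 0 * S := by
    rw [hE, Fin.cons_zero]
  have hEr : ∀ p : MvPolynomial (Fin 2) ℂ,
      E ((rename Fin.succ p : MvPolynomial (Fin 3) ℂ) : MvPowerSeries (Fin 3) ℂ) =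
        ((rename Fin.succ p : MvPolynomial (Fin 3) ℂ) : MvPowerSeries (Fin 3) ℂ) := by
    intro p
    have h : ((E : MvPowerSeries (Fin 3) ℂ →ₐ[ℂ] MvPowerSeries (Fin 3) ℂ).comp
        (coeToMvPowerSeries.algHom (R := ℂ) (σ := Fin 3) ℂ)).comp
          (rename (R := ℂ) (Fin.succ : Fin 2 → Fin 3)) =
        (coeToMvPowerSeries.algHom (R := ℂ) (σ := Fin 3) ℂ).comp
          (rename (R := ℂ) (Fin.succ : Fin 2 → Fin 3)) := by
      apply algHom_ext
      intro l
      simp only [AlgHom.comp_apply, rename_X, coeToMvPowerSeries.algHom_apply, coe_X, map_X]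
      have h1 := hE l.succ
      rw [Fin.cons_succ] at h1
      exact h1
    have h1 := congrArg (fun g => g p) h
    simpa [AlgHom.comp_apply, coeToMvPowerSeries.algHom_apply] using h1
  refine ⟨E, 1, hSu.unit, ?_, ?_⟩
  · rw [Units.val_one, one_mul, hg1, coe_add, coe_mul, coe_pow, coe_X, coe_add, coe_pow, coe_X,
      map_add, map_pow, hE0, mul_pow, hSe]
    have h1 := hEr (gch (homogeneousComponent d f) q j₀)
    have h2 := hcj 0
    rw [add_zero] at h2
    rw [h1, h2]
  · rw [hE0, IsUnit.unit_spec]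

end YL

end MPb07157
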