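import Pool.Agent.Lib.MP_b07157_agYL.NodeK
import Pool.Agent.Lib.MP_b07157_agYL.FormLY

/-!
# The root at a node, from the normal form
-/

noncomputable section

namespace MPb07157

open MvPolynomial

namespace YL

open SI

namespace NodeRaux

/-- The partial derivatives of the variables. -/
theorem pderiv_X (i j : Fin 3) :
    MvPowerSeries.pderiv ℂ i (MvPowerSeries.X j : MvPowerSeries (Fin 3) ℂ) =
      if i = j then 1 else 0 := by
  rw [← MvPolynomial.coe_X, MvPowerSeries.pderiv_coe, MvPolynomial.pderiv_X, Pi.single_apply]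
  by_cases h : i = j
  · rw [if_pos h, if_pos h.symm, MvPolynomial.coe_one]
  · rw [if_neg h, if_neg (fun h' => h h'.symm), MvPolynomial.coe_zero]

/-- The Jacobian determinant of an automorphism is a unit. -/
theorem isUnit_det (e : MvPowerSeries (Fin 3) ℂ ≃ₐ[ℂ] MvPowerSeries (Fin 3) ℂ) :
    IsUnit (Matrix.of fun k j : Fin 3 =>
      MvPowerSeries.pderiv ℂ j (e (MvPowerSeries.X k : MvPowerSeries (Fin 3) ℂ))).det := by
  have h1 : ∀ e' : MvPowerSeries (Fin 3) ℂ ≃ₐ[ℂ] MvPowerSeries (Fin 3) ℂ,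
      (Matrix.of fun k j : Fin 3 => e' (MvPowerSeries.pderiv ℂ j
        (e'.symm (MvPowerSeries.X k : MvPowerSeries (Fin 3) ℂ)))) *
      (Matrix.of fun k j : Fin 3 =>
        MvPowerSeries.pderiv ℂ j (e' (MvPowerSeries.X k : MvPowerSeries (Fin 3) ℂ))) = 1 := by
    intro e'
    ext1 k i
    rw [Matrix.mul_apply, Matrix.one_apply]
    have h2 := pderiv_equiv e' i (e'.symm (MvPowerSeries.X k : MvPowerSeries (Fin 3) ℂ))
    rw [AlgEquiv.apply_symm_apply, pderiv_X] at h2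
    simp only [Matrix.of_apply]
    rw [show (if k = i then (1 : MvPowerSeries (Fin 3) ℂ) else 0) = if i = k then 1 else 0 by
      by_cases h : k = i
      · rw [if_pos h, if_pos h.symm]
      · rw [if_neg h, if_neg (fun h' => h h'.symm)], h2]
    exact Finset.sum_congr rfl fun j _ => mul_comm _ _
  have h3 := congrArg Matrix.det (h1 e)
  rw [Matrix.det_mul, Matrix.det_one] at h3
  exact IsUnit.of_mul_eq_one_right _ h3

/-- The Jacobian matrix of the image under an automorphism. -/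
theorem det_equiv (e : MvPowerSeries (Fin 3) ℂ ≃ₐ[ℂ] MvPowerSeries (Fin 3) ℂ)
    (c : Fin 3 → MvPowerSeries (Fin 3) ℂ) :
    (Matrix.of fun i j : Fin 3 => MvPowerSeries.pderiv ℂ j (e (c i))).det =
      e (Matrix.of fun i j : Fin 3 => MvPowerSeries.pderiv ℂ j (c i)).det *
        (Matrix.of fun k j : Fin 3 =>
          MvPowerSeries.pderiv ℂ j (e (MvPowerSeries.X k : MvPowerSeries (Fin 3) ℂ))).det := by
  have h1 : e (Matrix.of fun i j : Fin 3 => MvPowerSeries.pderiv ℂ j (c i)).det =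
      (Matrix.of fun i j : Fin 3 => e (MvPowerSeries.pderiv ℂ j (c i))).det := by
    have h2 := RingHom.map_det ((e : MvPowerSeries (Fin 3) ℂ →ₐ[ℂ] MvPowerSeries (Fin 3) ℂ) :
      MvPowerSeries (Fin 3) ℂ →+* MvPowerSeries (Fin 3) ℂ)
      (Matrix.of fun i j : Fin 3 => MvPowerSeries.pderiv ℂ j (c i))
    exact h2
  rw [h1, ← Matrix.det_mul]
  refine congrArg Matrix.det ?_
  ext1 i j
  rw [Matrix.mul_apply]
  simp only [Matrix.of_apply]
  rw [pderiv_equiv e j (c i)]
  exact Finset.sum_congr rfl fun k _ => mul_comm _ _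

/-- The chart as a family of power series. -/
def chS (q : Fin 3 → ℂ) (j₀ : Fin 3) : Fin 3 → MvPowerSeries (Fin 3) ℂ :=
  j₀.insertNth (α := fun _ => MvPowerSeries (Fin 3) ℂ) 1
    (fun l : Fin 2 => MvPowerSeries.X l.succ + algebraMap ℂ _ (q (j₀.succAbove l)))

theorem coe_chP (q : Fin 3 → ℂ) (j₀ i : Fin 3) :
    ((chP q j₀ i : MvPolynomial (Fin 3) ℂ) : MvPowerSeries (Fin 3) ℂ) =
      MvPowerSeries.X 0 * chS q j₀ i := by
  unfold chP chS
  rw [MvPolynomial.coe_mul, MvPolynomial.coe_X]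
  refine congrArg (fun y => MvPowerSeries.X 0 * y) ?_
  refine Fin.succAboveCases j₀ ?_ (fun l => ?_) i
  · rw [Fin.insertNth_apply_same, Fin.insertNth_apply_same, MvPolynomial.coe_one]
  · rw [Fin.insertNth_apply_succAbove, Fin.insertNth_apply_succAbove, MvPolynomial.coe_add,
      MvPolynomial.coe_X, MvPolynomial.coe_C]
    rfl

theorem det_chS (q : Fin 3 → ℂ) (j₀ : Fin 3) :
    (Matrix.of fun i j : Fin 3 => MvPowerSeries.pderiv ℂ j
      (MvPowerSeries.X 0 * chS q j₀ i : MvPowerSeries (Fin 3) ℂ)).det =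
      (-1) ^ (j₀ : ℕ) * MvPowerSeries.X 0 ^ 2 := by
  have h1 := det_chart (MvPowerSeries.pderiv ℂ 0 : Derivation ℂ (MvPowerSeries (Fin 3) ℂ) _)
    (MvPowerSeries.pderiv ℂ 1) (MvPowerSeries.pderiv ℂ 2) (MvPowerSeries.X 0) j₀
    (fun l : Fin 2 => MvPowerSeries.X l.succ + algebraMap ℂ _ (q (j₀.succAbove l)))
    (fun l => by
      rw [map_add, Derivation.map_algebraMap, add_zero, pderiv_X, if_neg (Fin.succ_ne_zero l).symm])
    (D := fun a => MvPowerSeries.pderiv ℂ a) rfl rfl rfl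
  have h2 : (Matrix.of fun i j : Fin 3 => MvPowerSeries.pderiv ℂ j
      (MvPowerSeries.X 0 * chS q j₀ i : MvPowerSeries (Fin 3) ℂ)) =
      (ARL.jm (fun a => (MvPowerSeries.pderiv ℂ a :
        Derivation ℂ (MvPowerSeries (Fin 3) ℂ) (MvPowerSeries (Fin 3) ℂ)))
        fun i => MvPowerSeries.X 0 * j₀.insertNth (α := fun _ => MvPowerSeries (Fin 3) ℂ) 1
          (fun l : Fin 2 => MvPowerSeries.X l.succ + algebraMap ℂ _ (q (j₀.succAbove l))) i).transpose := by
    ext1 i j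
    rfl
  rw [h2, Matrix.det_transpose, h1, map_add, map_add, map_add, map_add, Derivation.map_algebraMap,
    Derivation.map_algebraMap, Derivation.map_algebraMap, Derivation.map_algebraMap, pderiv_X,
    pderiv_X, pderiv_X, pderiv_X, pderiv_X]
  rw [if_pos rfl, if_pos (by decide), if_pos (by decide), if_neg (by decide), if_neg (by decide)]
  ring

end NodeRaux

open NodeRaux

/-- The root at a node, from the normal form. Apply `E⁻¹` to `f(chP) = u^d h` (`aeval_chP`):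
`X_i ↦ E⁻¹(chP_i) = u ξ_i`, and the Jacobian determinant of `chP` is `± u^2`; chain rule
`pderiv_equiv`. -/
theorem root_node_ueq {f : MvPolynomial (Fin 3) ℂ} {d κ : ℕ} (hd : 2 ≤ d) (hd3 : d ≠ 3)
    (hκ : 0 < κ) (hlow : ∀ j < d, homogeneousComponent j f = 0) {q : Fin 3 → ℂ} {j₀ : Fin 3}
    (he : UEq (hg f d q j₀ : MvPowerSeries (Fin 3) ℂ) (X 1 * X 2 + X 0 ^ κ))
    {b : Polynomial ℂ} (hb : InPs (f : MvPowerSeries (Fin 3) ℂ) 1
      (b.map (MvPowerSeries.C (σ := Fin 3) (R := ℂ)))) :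
    b.eval (-(((κ : ℂ) + 3) / ((d : ℂ) + κ))) = 0 := by
  obtain ⟨E, u, w, h1, h2⟩ := he
  have hcc : ∀ {x : MvPowerSeries (Fin 3) ℂ}, IsUnit x → MvPowerSeries.constantCoeff x ≠ 0 := by
    intro x hx
    exact (hx.map (MvPowerSeries.constantCoeff (σ := Fin 3) (R := ℂ))).ne_zero
  -- the image of the first variable
  obtain ⟨w', hw', hw1⟩ : ∃ w' : MvPowerSeries (Fin 3) ℂ, IsUnit w' ∧
      E.symm (MvPowerSeries.X 0) = MvPowerSeries.X 0 * w' := by
    refine ⟨E.symm (↑(w⁻¹) : MvPowerSeries (Fin 3) ℂ), (w⁻¹).isUnit.map E.symm, ?_⟩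
    have h3 : (MvPowerSeries.X 0 : MvPowerSeries (Fin 3) ℂ) =
        E.symm (MvPowerSeries.X 0) * E.symm (w : MvPowerSeries (Fin 3) ℂ) := by
      rw [← map_mul, ← h2, AlgEquiv.symm_apply_apply]
    have h4 : E.symm (w : MvPowerSeries (Fin 3) ℂ) *
        E.symm (↑(w⁻¹) : MvPowerSeries (Fin 3) ℂ) = 1 := by
      rw [← map_mul, Units.mul_inv, map_one]
    calc E.symm (MvPowerSeries.X 0) = E.symm (MvPowerSeries.X 0) *
          (E.symm (w : MvPowerSeries (Fin 3) ℂ) *
            E.symm (↑(w⁻¹) : MvPowerSeries (Fin 3) ℂ)) := by rw [h4, mul_one]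
      _ = _ := by rw [← mul_assoc, ← h3]
  have hchP : ∀ i, E.symm ((chP q j₀ i : MvPolynomial (Fin 3) ℂ) : MvPowerSeries (Fin 3) ℂ) =
      MvPowerSeries.X 0 * (w' * E.symm (chS q j₀ i)) := by
    intro i
    rw [coe_chP, map_mul, hw1, mul_assoc]
  refine root_nodeK hd hd3 hκ (f := f) (ξ := fun i => w' * E.symm (chS q j₀ i))
    (U := w' ^ d * E.symm (u : MvPowerSeries (Fin 3) ℂ))
    (D := (-1) ^ (j₀ : ℕ) * w' ^ 2 * (Matrix.of fun k j : Fin 3 => MvPowerSeries.pderiv ℂ j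
      (E.symm (MvPowerSeries.X k : MvPowerSeries (Fin 3) ℂ))).det) ?_ ?_ ?_ ?_ hb
  · exact hcc ((hw'.pow d).mul (u.isUnit.map E.symm))
  · refine hcc (((IsUnit.pow _ ?_).mul (hw'.pow 2)).mul (isUnit_det E.symm))
    exact isUnit_one.neg
  · rw [MvPowerSeries.subst_coe]
    have h5 := congrArg (fun p : MvPolynomial (Fin 3) ℂ => (p : MvPowerSeries (Fin 3) ℂ))
      (aeval_chP hlow q j₀)
    have h6 : ((aeval (chP q j₀) f : MvPolynomial (Fin 3) ℂ) : MvPowerSeries (Fin 3) ℂ) =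
        aeval (fun i => ((chP q j₀ i : MvPolynomial (Fin 3) ℂ) : MvPowerSeries (Fin 3) ℂ)) f := by
      have h7 : (MvPolynomial.coeToMvPowerSeries.ringHom (R := ℂ) (σ := Fin 3)).comp
          ((aeval (chP q j₀) : MvPolynomial (Fin 3) ℂ →ₐ[ℂ] MvPolynomial (Fin 3) ℂ) :
            MvPolynomial (Fin 3) ℂ →+* _) =
          ((aeval (fun i => ((chP q j₀ i : MvPolynomial (Fin 3) ℂ) : MvPowerSeries (Fin 3) ℂ)) :
            MvPolynomial (Fin 3) ℂ →ₐ[ℂ] MvPowerSeries (Fin 3) ℂ) :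
              MvPolynomial (Fin 3) ℂ →+* _) := by
        refine MvPolynomial.ringHom_ext (fun c => ?_) (fun i => ?_)
        · rw [RingHom.comp_apply, RingHom.coe_coe, RingHom.coe_coe, aeval_C, aeval_C]
          rw [MvPolynomial.algebraMap_eq, MvPolynomial.coeToMvPowerSeries.ringHom_apply,
            MvPolynomial.coe_C]
          rfl
        · rw [RingHom.comp_apply, RingHom.coe_coe, RingHom.coe_coe, aeval_X, aeval_X,
            MvPolynomial.coeToMvPowerSeries.ringHom_apply]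
      exact congrArg (fun φ : MvPolynomial (Fin 3) ℂ →+* MvPowerSeries (Fin 3) ℂ => φ f) h7
    have h9 := congrArg E.symm (h6.symm.trans h5)
    have h10 := MvPolynomial.comp_aeval_apply
      (fun i => ((chP q j₀ i : MvPolynomial (Fin 3) ℂ) : MvPowerSeries (Fin 3) ℂ))
      (E.symm : MvPowerSeries (Fin 3) ℂ →ₐ[ℂ] MvPowerSeries (Fin 3) ℂ) f
    have h11 : aeval (fun i => MvPowerSeries.X 0 * (w' * E.symm (chS q j₀ i))) f =
        E.symm (aeval (fun i => ((chP q j₀ i : MvPolynomial (Fin 3) ℂ) :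
          MvPowerSeries (Fin 3) ℂ)) f) := by
      refine Eq.trans ?_ h10.symm
      refine congrArg (fun a : Fin 3 → MvPowerSeries (Fin 3) ℂ => aeval a f) ?_
      funext i
      exact (hchP i).symm
    rw [h11, h9]
    show E.symm ((X 0 ^ d * hg f d q j₀ : MvPolynomial (Fin 3) ℂ) : MvPowerSeries (Fin 3) ℂ) = _
    rw [MvPolynomial.coe_mul, MvPolynomial.coe_pow, MvPolynomial.coe_X, h1, map_mul, map_pow, hw1,
      map_mul, AlgEquiv.symm_apply_apply, MvPolynomial.coe_add, MvPolynomial.coe_mul,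
      MvPolynomial.coe_pow, MvPolynomial.coe_X, MvPolynomial.coe_X, MvPolynomial.coe_X]
    ring
  · have h5 := det_equiv E.symm (fun i => MvPowerSeries.X 0 * chS q j₀ i)
    have h6 : (Matrix.of fun i j : Fin 3 => MvPowerSeries.pderiv ℂ j
        (MvPowerSeries.X 0 * (w' * E.symm (chS q j₀ i)) : MvPowerSeries (Fin 3) ℂ)) =
        Matrix.of fun i j : Fin 3 => MvPowerSeries.pderiv ℂ j
          (E.symm (MvPowerSeries.X 0 * chS q j₀ i)) := by
      ext1 i j
      simp only [Matrix.of_apply]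
      rw [map_mul E.symm, hw1, mul_assoc]
    rw [h6, h5, det_chS, map_mul, map_pow, map_neg, map_one, map_pow, hw1]
    ring

end YL

end MPb07157
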