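import Pool.Agent.Lib.MP_b07157_agYL.Defs
import Pool.Agent.Lib.MP_b07157_agE.EZ

/-!
# Invariance under changes of coordinates
-/

noncomputable section

namespace MPb07157

open MvPolynomial

namespace YL

open SI

theorem isConstr_AK (h : MvPolynomial (Fin 3) ℂ) (N k i : ℕ) : IsConstr (AK h N k i) := by
  have e : AK h N k i = Start 3 1 (N + 1) ∩
      (arcs (X 0 : MvPolynomial (Fin 3) ℂ) (N + 1) k ∩ arcs h (N + 1) i) := by
    ext γ
    constructor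
    · rintro ⟨h1, h2, h3⟩
      refine ⟨mem_Start_one.2 h1, ?_, h3⟩
      show (aeval (arc γ) (X 0) : PowerSeries ℂ).order = (k : ℕ∞)
      rw [aeval_X]
      exact h2
    · rintro ⟨h1, h2, h3⟩
      refine ⟨mem_Start_one.1 h1, ?_, h3⟩
      have h4 : (aeval (arc γ) (X 0 : MvPolynomial (Fin 3) ℂ) : PowerSeries ℂ).order = (k : ℕ∞) :=
        h2
      rwa [aeval_X] at h4
  rw [e]
  exact (isConstr_Start _ _ _).inter ((isConstr_arcs _ _ _).inter (isConstr_arcs _ _ _))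

/-- The orders of the coordinate `u` and of the function along a jet and its image. -/
theorem mem_AK_iff {h G : MvPolynomial (Fin 3) ℂ}
    {E : MvPowerSeries (Fin 3) ℂ ≃ₐ[ℂ] MvPowerSeries (Fin 3) ℂ}
    {u w : (MvPowerSeries (Fin 3) ℂ)ˣ}
    (h1 : (h : MvPowerSeries (Fin 3) ℂ) = u * E (G : MvPowerSeries (Fin 3) ℂ))
    (h2 : E (MvPowerSeries.X 0) = MvPowerSeries.X 0 * (w : MvPowerSeries (Fin 3) ℂ)) {N k i : ℕ}
    (hkN : k ≤ N) (hi : i ≤ N) {q : Fin 3 → MvPolynomial (Fin 3) ℂ} (hq : IsTr E N q)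
    {γ : Fin 3 × Fin (N + 1) → ℂ} (hγ : ∀ j, γ (j, 0) = 0) :
    γ ∈ AK h N k i ↔ polyMap (jetPoly q (N + 1)) γ ∈ AK G N k i := by
  have e1 : (h : MvPowerSeries (Fin 3) ℂ) = u * E (G : MvPowerSeries (Fin 3) ℂ) ^ 1 := by
    rw [pow_one]
    exact h1
  have e2 : ((X 0 : MvPolynomial (Fin 3) ℂ) : MvPowerSeries (Fin 3) ℂ) =
      ((w⁻¹ : (MvPowerSeries (Fin 3) ℂ)ˣ) : MvPowerSeries (Fin 3) ℂ) *
        E ((X 0 : MvPolynomial (Fin 3) ℂ) : MvPowerSeries (Fin 3) ℂ) ^ 1 := by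
    rw [pow_one, coe_X, h2, mul_comm (MvPowerSeries.X 0 : MvPowerSeries (Fin 3) ℂ),
      Units.inv_mul_cancel_left]
  have o1 := order_jet e1 hq hγ hi
  have o2 := order_jet e2 hq hγ hkN
  rw [one_smul] at o1 o2
  rw [aeval_X, aeval_X] at o2
  constructor
  · rintro ⟨-, h3, h4⟩
    exact ⟨jet_zero hq hγ, o2.1 h3, o1.1 h4⟩
  · rintro ⟨-, h3, h4⟩
    exact ⟨hγ, o2.2 h3, o1.2 h4⟩

/-- The measures are invariant under the changes of coordinates. -/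
theorem AKm_ueq {h G : MvPolynomial (Fin 3) ℂ} (he : UEq (h : MvPowerSeries (Fin 3) ℂ) G)
    {N k i : ℕ} (hk : 0 < k) (hkN : k ≤ N) (hi : i ≤ N) : AKm h N k i = AKm G N k i := by
  obtain ⟨E, u, w, h1, h2⟩ := he
  obtain ⟨q, hq⟩ := exists_isTr E N
  obtain ⟨q', hq'⟩ := exists_isTr E.symm N
  unfold AKm clsM
  congr 2
  refine cls_bijOn (isConstr_AK h N k i) (isConstr_AK G N k i) (jetPoly q (N + 1)) ⟨?_, ?_, ?_⟩
  · intro γ hγ
    exact (mem_AK_iff h1 h2 hkN hi hq hγ.1).1 hγ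
  · intro γ hγ γ' hγ' heq
    rw [← jet_jet hq hq' hγ.1, heq, jet_jet hq hq' hγ'.1]
  · intro γ hγ
    have h3 : polyMap (jetPoly q (N + 1)) (polyMap (jetPoly q' (N + 1)) γ) = γ :=
      jet_jet (e := E.symm) hq' hq hγ.1
    have h4 := jet_zero hq' hγ.1
    refine ⟨polyMap (jetPoly q' (N + 1)) γ, (mem_AK_iff h1 h2 hkN hi hq h4).2 ?_, h3⟩
    rw [h3]
    exact hγ

end YL

end MPb07157
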