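import Pool.Agent.Lib.MP_b07157_agYL.Defs
import Pool.Agent.Lib.MP_b07157_agI.Strata

/-!
# Independence of the level
-/

noncomputable section

namespace MPb07157

open MvPolynomial

namespace YL

open SI

variable {n : ℕ}

namespace LevelAux

theorem Gk_congr (f : MvPolynomial (Fin n) ℂ) (d k M : ℕ) {x z : Fin n → PowerSeries ℂ}
    (h : ∀ j, (PowerSeries.X : PowerSeries ℂ) ^ M ∣ x j - z j) :
    (PowerSeries.X : PowerSeries ℂ) ^ M ∣ SI.Gk f d k x - SI.Gk f d k z := by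
  unfold SI.Gk
  rw [← Finset.sum_sub_distrib]
  refine Finset.dvd_sum fun j _ => ?_
  rw [← mul_sub]
  exact Dvd.dvd.mul_left (aeval_congr_X_pow M _ x z h) _

theorem setK_succ (f : MvPolynomial (Fin n) ℂ) (d k : ℕ) (W : Set (Fin n → ℂ)) {N i : ℕ}
    (hi : i ≤ N) : setK f d k W (N + 1) i = {γ : Fin n × Fin (N + 1 + 1) → ℂ |
      leftPart γ ∈ setK f d k W N i ∧ rightPart γ ∈ (Set.univ : Set (Fin n × Fin 1 → ℂ))} := by
  ext γ
  unfold setK AtW
  simp only [Set.mem_inter_iff, Set.mem_ofPred_eq, Set.mem_univ, and_true]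
  refine and_congr (order_congr (Nat.lt_succ_of_le hi) (Gk_congr f d k (N + 1) fun j => ?_))
    Iff.rfl
  rw [arc_split]
  simp

theorem Mk_succ (f : MvPolynomial (Fin n) ℂ) (d k : ℕ) {W : Set (Fin n → ℂ)} (hW : IsConstr W)
    {N i : ℕ} (hi : i ≤ N) : Mk f d k W (N + 1) i = Mk f d k W N i := by
  unfold Mk
  rw [setK_succ f d k W hi, clsM_mul_eq (cls_split (isConstr_setK f d k hW N i)
    IsConstr.univ), clsM_univ]
  simp only [Fintype.card_prod, Fintype.card_fin, mul_one]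
  have e : (LU ^ (n * (N + 1 + 1)))⁻¹ = (LU ^ (n * (N + 1)))⁻¹ * (LU ^ n)⁻¹ := by
    rw [← mul_inv, ← pow_add]
    congr 2
  rw [e, Units.val_mul]
  have e2 : (((LU ^ n)⁻¹ : Motˣ) : Mot) * ((LU ^ n : Motˣ) : Mot) = 1 := Units.inv_mul _
  linear_combination ((((LU ^ (n * (N + 1)))⁻¹ : Motˣ) : Mot) * clsM (setK f d k W N i)) * e2

end LevelAux

/-- The measures do not depend on the level. -/
theorem Mk_level (f : MvPolynomial (Fin n) ℂ) (d k : ℕ) {W : Set (Fin n → ℂ)} (hW : IsConstr W)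
    {N N' i : ℕ} (hi : i ≤ N) (hN : N ≤ N') : Mk f d k W N' i = Mk f d k W N i := by
  obtain ⟨r, rfl⟩ := Nat.exists_eq_add_of_le hN
  induction r with
  | zero => rfl
  | succ r ih =>
    rw [← ih (Nat.le_add_right _ _)]
    exact LevelAux.Mk_succ f d k hW (hi.trans (Nat.le_add_right _ _))

end YL

end MPb07157
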