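import Pool.Agent.Lib.MP_b07157_agYL.Defs
import Pool.Agent.Lib.MP_b07157_agI.Line

/-!
# The arcs of `x y + u^κ`
-/

noncomputable section

namespace MPb07157

open MvPolynomial

namespace YL

open SI SI.LineQ SI.LineA

namespace NCls

/-! ### The plane -/

theorem mem_Tj_order {N j : ℕ} {w : Fin 1 × Fin (N + 1) → ℂ} :
    w ∈ Tj N j ↔ (arc w 0).order = (j : ℕ∞) := by
  rw [mem_Tj, PowerSeries.order_eq_nat, and_comm]

theorem arc_inl {n N : ℕ} (j₀ : Fin (n + 1)) (γ : Fin (n + 1) × Fin (N + 1) → ℂ) (s : Fin n) :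
    arc (fun p => γ (eS j₀ N (Sum.inl p))) s = arc γ (j₀.succAbove s) := rfl

theorem arc_inr {n N : ℕ} (j₀ : Fin (n + 1)) (γ : Fin (n + 1) × Fin (N + 1) → ℂ) :
    arc (fun p => γ (eS j₀ N (Sum.inr p))) 0 = arc γ j₀ := rfl

theorem order_ne_zero_iff {m N : ℕ} {γ : Fin m × Fin (N + 1) → ℂ} {j : Fin m} :
    γ (j, 0) = 0 ↔ (arc γ j).order ≠ 0 := by
  rw [← coeff_zero_arc γ j, PowerSeries.coeff_zero_eq_constantCoeff_apply,
    PowerSeries.order_ne_zero_iff_constCoeff_eq_zero]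

/-- The pairs of arcs of orders `a` and `j - a`. -/
def Sa (N j a : ℕ) : Set (Fin 2 × Fin (N + 1) → ℂ) :=
  {γ | (fun s => γ (eS (0 : Fin 2) N s)) ∈ prodSum (Tj N (j - a)) (Tj N a)}

theorem mem_Sa {N j a : ℕ} {γ : Fin 2 × Fin (N + 1) → ℂ} :
    γ ∈ Sa N j a ↔ (arc γ 1).order = ((j - a : ℕ) : ℕ∞) ∧ (arc γ 0).order = (a : ℕ∞) := by
  unfold Sa
  rw [Set.mem_ofPred_eq, mem_prodSum, mem_Tj_order, mem_Tj_order]
  exact Iff.rfl

theorem isConstr_Sa0 (N j a : ℕ) : IsConstr (prodSum (Tj N (j - a)) (Tj N a)) :=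
  isConstr_prodSum (isConstr_Tj N _) (isConstr_Tj N _)

theorem isConstr_Sa (N j a : ℕ) : IsConstr (Sa N j a) :=
  (isConstr_Sa0 N j a).reindex (eS (0 : Fin 2) N)

theorem cls_Sa {N j a : ℕ} (ha : a ≤ j) (hj : j ≤ N) :
    cls (Sa N j a) = L ^ (2 * N - j) * (L - 1) ^ 2 := by
  unfold Sa
  rw [cls_equiv (eS (0 : Fin 2) N) (isConstr_Sa0 N j a),
    cls_prodSum (isConstr_Tj N _) (isConstr_Tj N _), cls_Tj (by omega), cls_Tj (by omega),
    show 2 * N - j = (N - (j - a)) + (N - a) by omega, pow_add]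
  ring

theorem Dq_xy (N j : ℕ) : Dq (X 0 * X 1 : MvPolynomial (Fin 2) ℂ) N j =
    ⋃ a ∈ Finset.Ico 1 j, Sa N j a := by
  ext γ
  rw [mem_Dq, ← PowerSeries.order_eq_nat, map_mul, aeval_X, aeval_X, PowerSeries.order_mul]
  simp only [Set.mem_iUnion, Finset.mem_Ico, mem_Sa, exists_prop]
  constructor
  · rintro ⟨h1, h2⟩
    have h3 : (arc γ 0).order ≠ ⊤ := fun h => by
      rw [h, top_add] at h1
      exact ENat.top_ne_natCast j h1
    have h4 : (arc γ 1).order ≠ ⊤ := fun h => by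
      rw [h, add_top] at h1
      exact ENat.top_ne_natCast j h1
    obtain ⟨a, ha⟩ := ENat.ne_top_iff_exists.1 h3
    obtain ⟨b, hb⟩ := ENat.ne_top_iff_exists.1 h4
    have h5 := order_ne_zero_iff.1 (h2 0)
    have h6 := order_ne_zero_iff.1 (h2 1)
    rw [← ha] at h1 h5
    rw [← hb] at h1 h6
    have h7 : a + b = j := by exact_mod_cast h1
    have h8 : a ≠ 0 := by exact_mod_cast h5
    have h9 : b ≠ 0 := by exact_mod_cast h6
    refine ⟨a, ⟨by omega, by omega⟩, ?_, ha.symm⟩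
    rw [← hb, show j - a = b by omega]
  · rintro ⟨a, ⟨h1, h2⟩, h3, h4⟩
    refine ⟨?_, fun i => ?_⟩
    · rw [h3, h4]
      exact_mod_cast (show a + (j - a) = j by omega)
    · rw [order_ne_zero_iff]
      have h5 : i = 0 ∨ i = 1 := by omega
      rcases h5 with h5 | h5
      · rw [h5, h4]
        exact_mod_cast (show a ≠ 0 by omega)
      · rw [h5, h3]
        exact_mod_cast (show j - a ≠ 0 by omega)

theorem cls_Dq_xy {N j : ℕ} (hj : j ≤ N) :
    cls (Dq (X 0 * X 1 : MvPolynomial (Fin 2) ℂ) N j) =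
      ((j - 1 : ℕ) : K0) * (L ^ (2 * N - j) * (L - 1) ^ 2) := by
  rw [Dq_xy, cls_biUnion _ _ fun a _ => isConstr_Sa N j a]
  · rw [Finset.sum_congr rfl fun a ha => cls_Sa (by rw [Finset.mem_Ico] at ha; omega) hj,
      Finset.sum_const, Nat.card_Ico, nsmul_eq_mul]
  · intro a _ b _ hab
    rw [Set.disjoint_left]
    intro γ h1 h2
    rw [mem_Sa] at h1 h2
    have h3 := h1.2.symm.trans h2.2
    exact hab (by exact_mod_cast h3)

theorem Zcoeff0_xy (j : ℕ) : Zcoeff0 (X 0 * X 1 : MvPolynomial (Fin 2) ℂ) j = yN j := by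
  have hL : algebraMap K0 Mot L = (LU : Mot) := LU_val.symm
  rw [← clsM_Dq _ (le_refl j)]
  unfold clsM yN
  rw [cls_Dq_xy le_rfl, map_mul, map_mul, map_pow, map_pow, map_sub, map_one, map_natCast, hL,
    show 2 * j - j = j by omega, show 2 * (j + 1) = j + (j + 2) by ring, pow_add]
  linear_combination (((j - 1 : ℕ) : Mot) * ell ^ (j + 2) * ((LU : Mot) - 1) ^ 2) * ell_pow_mul j +
    (((j - 1 : ℕ) : Mot) * ell ^ j * (ell * (LU : Mot) + 1 - 2 * ell)) * ell_mul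

theorem Zcoeff0_xy' : Zcoeff0 (X 0 * X 1 : MvPolynomial (Fin 2) ℂ) = yN := funext Zcoeff0_xy

/-! ### The product `x y` -/

theorem AK_xy {N k i : ℕ} (hk : 0 < k) : AK (X 1 * X 2) N k i =
    {γ | (fun s => γ (eS (0 : Fin 3) N s)) ∈
      prodSum (Dq (X 0 * X 1 : MvPolynomial (Fin 2) ℂ) N i) (Tj N k)} := by
  ext γ
  rw [Set.mem_ofPred_eq, mem_prodSum, mem_Tj_order, mem_Dq, ← PowerSeries.order_eq_nat]
  unfold AK
  rw [Set.mem_ofPred_eq]
  have e1 : (aeval (arc fun p => γ (eS (0 : Fin 3) N (Sum.inl p)))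
      (X 0 * X 1 : MvPolynomial (Fin 2) ℂ) : PowerSeries ℂ) =
      aeval (arc γ) (X 1 * X 2 : MvPolynomial (Fin 3) ℂ) := by
    rw [map_mul, map_mul, aeval_X, aeval_X, aeval_X, aeval_X]
    rfl
  rw [e1, arc_inr]
  constructor
  · rintro ⟨h1, h2, h3⟩
    exact ⟨⟨h3, fun s => h1 _⟩, h2⟩
  · rintro ⟨⟨h3, h1⟩, h2⟩
    refine ⟨fun j => ?_, h2, h3⟩
    rcases Fin.eq_self_or_eq_succAbove (0 : Fin 3) j with h4 | ⟨s, h4⟩
    · rw [h4, order_ne_zero_iff, h2]
      exact_mod_cast hk.ne'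
    · rw [h4]
      exact h1 s

end NCls

open NCls in
/-- The arcs of `x y`. -/
theorem AKm_node0 {N k i : ℕ} (hk : 0 < k) (hkN : k ≤ N) (hi : i ≤ N) :
    AKm (X 1 * X 2) N k i = ell ^ k * ((1 - ell) * yN i) := by
  have hL : algebraMap K0 Mot L = (LU : Mot) := LU_val.symm
  have hD := isConstr_Dq (X 0 * X 1 : MvPolynomial (Fin 2) ℂ) N i
  have h1 : clsM (AK (X 1 * X 2) N k i) =
      clsM (Dq (X 0 * X 1 : MvPolynomial (Fin 2) ℂ) N i) *
        ((LU : Mot) ^ (N - k) * ((LU : Mot) - 1)) := by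
    unfold clsM
    rw [AK_xy hk, cls_equiv (eS (0 : Fin 3) N) (isConstr_prodSum hD (isConstr_Tj N k)),
      cls_prodSum hD (isConstr_Tj N k), cls_Tj hkN, map_mul, map_mul, map_pow, map_sub, map_one,
      hL]
  unfold AKm
  rw [h1, inv_pow_eq, ← Zcoeff0_xy, ← clsM_Dq _ hi]
  have e1 : ell ^ (3 * (N + 1)) = ell ^ (2 * (N + 1)) * (ell ^ k * ell ^ (N - k) * ell) := by
    rw [← pow_add, ← pow_succ, ← pow_add]
    congr 1
    omega
  rw [e1]
  linear_combination (ell ^ (2 * (N + 1)) * ell ^ k * clsM (Dq (X 0 * X 1 :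
    MvPolynomial (Fin 2) ℂ) N i) * (ell * (LU : Mot) - ell)) * ell_pow_mul (N - k) +
    (ell ^ (2 * (N + 1)) * ell ^ k * clsM (Dq (X 0 * X 1 : MvPolynomial (Fin 2) ℂ) N i)) * ell_mul

namespace NCls

/-! ### The function `x y + u^κ` -/

theorem isConstr_AK (h : MvPolynomial (Fin 3) ℂ) (N k i : ℕ) : IsConstr (AK h N k i) := by
  have h1 : AK h N k i = Start 3 1 (N + 1) ∩ (arcs (X 0) (N + 1) k ∩ arcs h (N + 1) i) := by
    ext γ
    rw [Set.mem_inter_iff, Set.mem_inter_iff, mem_Start_one]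
    simp only [AK, arcs, Set.mem_ofPred_eq, aeval_X]
  rw [h1]
  exact (isConstr_Start 3 1 (N + 1)).inter ((isConstr_arcs _ _ _).inter (isConstr_arcs _ _ _))

/-- The map `(w, x, y) ↦ (t^k w, w^{κ-1} x, y)`, with the last coefficients of `w`. -/
def nP (κ N k : ℕ) : (Fin 3 × Fin (N + 1)) ⊕ Fin k → MvPolynomial (Fin 3 × Fin (N + 1)) ℂ
  | Sum.inl p =>
    if p.1 = 0 then cA (X 0) ((p.2 : ℕ) - k) * (if k ≤ (p.2 : ℕ) then 1 else 0)
    else if p.1 = 1 then cA (X 0 ^ (κ - 1) * X 1) (p.2 : ℕ)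
    else X p
  | Sum.inr e => cA (X 0) (N + 1 - k + (e : ℕ))

variable {κ N k i : ℕ}

theorem nP_zero (z : Fin 3 × Fin (N + 1) → ℂ) (l : Fin (N + 1)) :
    polyMap (nP κ N k) z (Sum.inl (0, l)) =
      PowerSeries.coeff (l : ℕ) (PowerSeries.X ^ k * arc z 0) := by
  unfold polyMap nP
  rw [PowerSeries.coeff_X_pow_mul']
  simp only [if_true]
  split_ifs with h
  · rw [mul_one, eval_cA, aeval_X]
  · rw [mul_zero, map_zero]

theorem nP_one (z : Fin 3 × Fin (N + 1) → ℂ) (l : Fin (N + 1)) :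
    polyMap (nP κ N k) z (Sum.inl (1, l)) =
      PowerSeries.coeff (l : ℕ) (arc z 0 ^ (κ - 1) * arc z 1) := by
  unfold polyMap nP
  show eval z (if (1 : Fin 3) = 0 then _ else if (1 : Fin 3) = 1 then
    cA (X 0 ^ (κ - 1) * X 1) (l : ℕ) else _) = _
  rw [if_neg (by decide), if_pos rfl, eval_cA, map_mul, map_pow, aeval_X, aeval_X]

theorem nP_two (z : Fin 3 × Fin (N + 1) → ℂ) (l : Fin (N + 1)) :
    polyMap (nP κ N k) z (Sum.inl (2, l)) = z (2, l) := by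
  unfold polyMap nP
  show eval z (if (2 : Fin 3) = 0 then _ else if (2 : Fin 3) = 1 then _ else X (2, l)) = _
  rw [if_neg (by decide), if_neg (by decide), eval_X]

theorem nP_inr (z : Fin 3 × Fin (N + 1) → ℂ) (e : Fin k) :
    polyMap (nP κ N k) z (Sum.inr e) = PowerSeries.coeff (N + 1 - k + (e : ℕ)) (arc z 0) := by
  unfold polyMap nP
  rw [eval_cA, aeval_X]

theorem arc_nP_zero (z : Fin 3 × Fin (N + 1) → ℂ) :
    (PowerSeries.X : PowerSeries ℂ) ^ (N + 1) ∣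
      arc (fun p => polyMap (nP κ N k) z (Sum.inl p)) 0 - PowerSeries.X ^ k * arc z 0 :=
  arc_congr fun l => nP_zero z l

theorem arc_nP_one (z : Fin 3 × Fin (N + 1) → ℂ) :
    (PowerSeries.X : PowerSeries ℂ) ^ (N + 1) ∣
      arc (fun p => polyMap (nP κ N k) z (Sum.inl p)) 1 - arc z 0 ^ (κ - 1) * arc z 1 :=
  arc_congr fun l => nP_one z l

theorem arc_nP_two (z : Fin 3 × Fin (N + 1) → ℂ) :
    (PowerSeries.X : PowerSeries ℂ) ^ (N + 1) ∣
      arc (fun p => polyMap (nP κ N k) z (Sum.inl p)) 2 - arc z 2 := by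
  refine dvd_of_coeff fun l hl => ?_
  rw [coeff_arc, coeff_arc, dif_pos hl, dif_pos hl]
  exact nP_two z ⟨l, hl⟩

/-- The order of `x y + u^κ` along the image. -/
theorem order_iff (hκ : 0 < κ) (hi : i ≤ N) {z : Fin 3 × Fin (N + 1) → ℂ} (hz : z (0, 0) ≠ 0) :
    (aeval (arc fun p => polyMap (nP κ N k) z (Sum.inl p)) (X 1 * X 2 + X 0 ^ κ :
      MvPolynomial (Fin 3) ℂ) : PowerSeries ℂ).order = (i : ℕ∞) ↔
    ((aeval (fun s => arc z ((0 : Fin 3).succAbove s)) (X 0 * X 1 : MvPolynomial (Fin 2) ℂ) :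
      PowerSeries ℂ) + PowerSeries.X ^ (κ * k) * arc z 0).order = (i : ℕ∞) := by
  set Γ : Fin 3 → PowerSeries ℂ := arc fun p => polyMap (nP κ N k) z (Sum.inl p) with hΓ
  let Δ : Fin 3 → PowerSeries ℂ :=
    ![PowerSeries.X ^ k * arc z 0, arc z 0 ^ (κ - 1) * arc z 1, arc z 2]
  have h1 : (PowerSeries.X : PowerSeries ℂ) ^ (N + 1) ∣
      aeval Γ (X 1 * X 2 + X 0 ^ κ : MvPolynomial (Fin 3) ℂ) -
        aeval Δ (X 1 * X 2 + X 0 ^ κ : MvPolynomial (Fin 3) ℂ) := by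
    refine aeval_congr_X_pow (N + 1) _ _ _ fun j => ?_
    have h2 : j = 0 ∨ j = 1 ∨ j = 2 := by omega
    rcases h2 with h2 | h2 | h2
    · rw [h2]; exact arc_nP_zero z
    · rw [h2]; exact arc_nP_one z
    · rw [h2]; exact arc_nP_two z
  rw [order_congr (Nat.lt_succ_of_le hi) h1]
  have h3 : (aeval Δ (X 1 * X 2 + X 0 ^ κ : MvPolynomial (Fin 3) ℂ) : PowerSeries ℂ) =
      arc z 0 ^ (κ - 1) * ((aeval (fun s => arc z ((0 : Fin 3).succAbove s))
        (X 0 * X 1 : MvPolynomial (Fin 2) ℂ) : PowerSeries ℂ) +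
          PowerSeries.X ^ (κ * k) * arc z 0) := by
    obtain ⟨κ', rfl⟩ : ∃ κ', κ = κ' + 1 := ⟨κ - 1, by omega⟩
    rw [map_add, map_mul, map_mul, map_pow, aeval_X, aeval_X, aeval_X, aeval_X, aeval_X]
    show arc z 0 ^ (κ' + 1 - 1) * arc z 1 * arc z 2 + (PowerSeries.X ^ k * arc z 0) ^ (κ' + 1) =
      arc z 0 ^ (κ' + 1 - 1) * (arc z 1 * arc z 2 + PowerSeries.X ^ ((κ' + 1) * k) * arc z 0)
    rw [Nat.add_sub_cancel, mul_pow, ← pow_mul, mul_comm k (κ' + 1), pow_succ (arc z 0)]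
    ring
  rw [h3, order_unit_mul]
  rw [coeff_zero_arc]
  exact hz

theorem isUnit_arc {z : Fin 3 × Fin (N + 1) → ℂ} (hz : z (0, 0) ≠ 0) : IsUnit (arc z 0) := by
  rw [PowerSeries.isUnit_iff_constantCoeff, ← PowerSeries.coeff_zero_eq_constantCoeff_apply,
    coeff_zero_arc]
  exact isUnit_iff_ne_zero.2 hz

theorem mem_iff (hκ : 0 < κ) (hk : 0 < k) (hkN : k ≤ N) (hi : i ≤ N)
    {z : Fin 3 × Fin (N + 1) → ℂ} (hz : z (0, 0) ≠ 0) (hz1 : z (1, 0) = 0) (hz2 : z (2, 0) = 0) :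
    (fun p => polyMap (nP κ N k) z (Sum.inl p)) ∈ AK (X 1 * X 2 + X 0 ^ κ) N k i ↔
      z ∈ setQ' (X 0 * X 1 : MvPolynomial (Fin 2) ℂ) 0 (κ * k) N i := by
  rw [mem_setQ', ← order_iff hκ hi hz]
  constructor
  · rintro ⟨-, -, h3⟩
    refine ⟨⟨fun s => ?_, hz⟩, h3⟩
    have h4 : s = 0 ∨ s = 1 := by omega
    rcases h4 with h4 | h4
    · rw [h4]; exact hz1
    · rw [h4]; exact hz2
  · rintro ⟨-, h3⟩
    refine ⟨fun j => ?_, ?_, h3⟩
    · show polyMap (nP κ N k) z (Sum.inl (j, 0)) = 0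
      have h4 : j = 0 ∨ j = 1 ∨ j = 2 := by omega
      rcases h4 with h4 | h4 | h4
      · rw [h4, nP_zero, Fin.val_zero, PowerSeries.coeff_X_pow_mul', if_neg (by omega)]
      · rw [h4, nP_one, Fin.val_zero, coeff_zero_mul, coeff_zero_arc, hz1, mul_zero]
      · rw [h4, nP_two, hz2]
    · rw [order_congr (Nat.lt_succ_of_le hkN) (arc_nP_zero z), PowerSeries.order_mul,
        PowerSeries.order_X_pow, PowerSeries.order_zero_of_unit (isUnit_arc hz), add_zero]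

theorem bijOn_nP (hκ : 0 < κ) (hk : 0 < k) (hkN : k ≤ N) (hi : i ≤ N) :
    Set.BijOn (polyMap (nP κ N k)) (setQ' (X 0 * X 1 : MvPolynomial (Fin 2) ℂ) 0 (κ * k) N i)
      (prodSum (AK (X 1 * X 2 + X 0 ^ κ) N k i) (Set.univ : Set (Fin k → ℂ))) := by
  have hcnd : ∀ {z : Fin 3 × Fin (N + 1) → ℂ},
      z ∈ setQ' (X 0 * X 1 : MvPolynomial (Fin 2) ℂ) 0 (κ * k) N i →
        z (0, 0) ≠ 0 ∧ z (1, 0) = 0 ∧ z (2, 0) = 0 := fun {z} hz =>
    ⟨(mem_setQ'.1 hz).1.2, (mem_setQ'.1 hz).1.1 0, (mem_setQ'.1 hz).1.1 1⟩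
  refine ⟨fun z hz => ?_, ?_, ?_⟩
  · obtain ⟨h0, h1, h2⟩ := hcnd hz
    exact ⟨(mem_iff hκ hk hkN hi h0 h1 h2).2 hz, Set.mem_univ _⟩
  · intro y hy z hz h
    have hW : arc y 0 = arc z 0 := by
      ext l
      rcases Nat.lt_or_ge l (N + 1) with hl | hl
      · rcases Nat.lt_or_ge (l + k) (N + 1) with hl2 | hl2
        · have h1 := congrFun h (Sum.inl (0, ⟨l + k, hl2⟩))
          rw [nP_zero, nP_zero, PowerSeries.coeff_X_pow_mul', PowerSeries.coeff_X_pow_mul'] at h1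
          simpa only [Nat.le_add_left, if_true, Nat.add_sub_cancel] using h1
        · have h1 := congrFun h (Sum.inr ⟨l - (N + 1 - k), by omega⟩)
          rw [nP_inr, nP_inr] at h1
          have h2 : N + 1 - k + (l - (N + 1 - k)) = l := by omega
          simpa only [h2] using h1
      · rw [coeff_arc, coeff_arc, dif_neg (by omega), dif_neg (by omega)]
    obtain ⟨hz0, -, -⟩ := hcnd hz
    have hu : IsUnit (arc z 0 ^ (κ - 1)) := (isUnit_arc hz0).pow _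
    funext ⟨j, l⟩
    have h4 : j = 0 ∨ j = 1 ∨ j = 2 := by omega
    rcases h4 with h4 | h4 | h4
    · rw [h4]
      refine eq_of_arc ?_ l
      rw [hW, sub_self]
      exact dvd_zero _
    · rw [h4]
      refine eq_of_arc (dvd_of_unit_mul hu ?_) l
      have h5 := dvd_sub (arc_nP_one (κ := κ) (k := k) z) (arc_nP_one (κ := κ) (k := k) y)
      rw [h, hW, sub_sub_sub_cancel_left, ← mul_sub] at h5
      exact h5
    · rw [h4, ← nP_two (κ := κ) (k := k) y l, ← nP_two (κ := κ) (k := k) z l, h]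
  · rintro x ⟨hx, -⟩
    set γ : Fin 3 × Fin (N + 1) → ℂ := fun p => x (Sum.inl p) with hγ
    obtain ⟨hx1, hx2, hx3⟩ := hx
    have hγk := hx2
    rw [PowerSeries.order_eq_nat] at hγk
    -- the unit
    let W : Fin 3 × Fin (N + 1) → ℂ := fun p => if h : (p.2 : ℕ) + k < N + 1 then
      γ (0, ⟨(p.2 : ℕ) + k, h⟩) else x (Sum.inr ⟨(p.2 : ℕ) - (N + 1 - k), by omega⟩)
    have hW0 : W (0, 0) ≠ 0 := by
      have h1 := hγk.1
      rw [coeff_arc, dif_pos (by omega)] at h1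
      show (if h : ((0 : Fin (N + 1)) : ℕ) + k < N + 1 then _ else _) ≠ 0
      rw [dif_pos (by rw [Fin.val_zero]; omega)]
      simpa only [Fin.val_zero, zero_add] using h1
    obtain ⟨v, hv⟩ := (isUnit_arc hW0).pow (κ - 1)
    let z : Fin 3 × Fin (N + 1) → ℂ := fun p => if p.1 = 0 then W p else
      if p.1 = 1 then PowerSeries.coeff (p.2 : ℕ) ((↑v⁻¹ : PowerSeries ℂ) * arc γ 1) else γ p
    have hz0 : ∀ l, z (0, l) = W (0, l) := fun l => rfl
    have hz1 : ∀ l : Fin (N + 1), z (1, l) =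
      PowerSeries.coeff (l : ℕ) ((↑v⁻¹ : PowerSeries ℂ) * arc γ 1) := fun l => rfl
    have hz2 : ∀ l, z (2, l) = γ (2, l) := fun l => rfl
    have hzW : arc z 0 = arc W 0 := by
      unfold arc
      exact Finset.sum_congr rfl fun l _ => by rw [hz0 l]
    have hval : polyMap (nP κ N k) z = x := by
      funext s
      rcases s with ⟨j, l⟩ | e
      · have h4 : j = 0 ∨ j = 1 ∨ j = 2 := by omega
        rcases h4 with h4 | h4 | h4
        · rw [h4, nP_zero, PowerSeries.coeff_X_pow_mul']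
          split_ifs with hl
          · rw [hzW, coeff_arc, dif_pos (by omega)]
            show (if h : (l : ℕ) - k + k < N + 1 then _ else _) = _
            rw [dif_pos (by omega)]
            have h5 : (⟨(l : ℕ) - k + k, by omega⟩ : Fin (N + 1)) = l :=
              Fin.ext (by simp only; omega)
            show γ (0, ⟨(l : ℕ) - k + k, _⟩) = γ (0, l)
            rw [h5]
          · have h5 := hγk.2 (l : ℕ) (by omega)
            rw [coeff_arc, dif_pos l.isLt] at h5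
            exact h5.symm
        · rw [h4]
          have h5 : (PowerSeries.X : PowerSeries ℂ) ^ (N + 1) ∣
              arc z 1 - (↑v⁻¹ : PowerSeries ℂ) * arc γ 1 := arc_congr hz1
          have h6 := dvd_add (arc_nP_one (κ := κ) (k := k) z)
            (Dvd.dvd.mul_left h5 (arc z 0 ^ (κ - 1)))
          have h7 : arc z 0 ^ (κ - 1) * (↑v⁻¹ : PowerSeries ℂ) = 1 := by
            rw [hzW, ← hv, Units.mul_inv]
          have h8 : arc (fun p => polyMap (nP κ N k) z (Sum.inl p)) 1 -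
              arc z 0 ^ (κ - 1) * arc z 1 +
              arc z 0 ^ (κ - 1) * (arc z 1 - (↑v⁻¹ : PowerSeries ℂ) * arc γ 1) =
              arc (fun p => polyMap (nP κ N k) z (Sum.inl p)) 1 - arc γ 1 := by
            linear_combination -arc γ 1 * h7
          rw [h8] at h6
          exact eq_of_arc h6 l
        · rw [h4, nP_two, hz2]
      · rw [nP_inr, hzW, coeff_arc, dif_pos (by omega)]
        show (if h : N + 1 - k + (e : ℕ) + k < N + 1 then _ else _) = _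
        rw [dif_neg (by omega)]
        congr 2
        exact Fin.ext (by simp only; omega)
    refine ⟨z, ?_, hval⟩
    have hzz0 : z (0, 0) ≠ 0 := hW0
    have hzz1 : z (1, 0) = 0 := by
      rw [hz1, Fin.val_zero, coeff_zero_mul, coeff_zero_arc, hx1 1, mul_zero]
    have hzz2 : z (2, 0) = 0 := by
      rw [hz2, hx1 2]
    rw [← mem_iff hκ hk hkN hi hzz0 hzz1 hzz2, hval]
    exact ⟨hx1, hx2, hx3⟩

end NCls

open NCls in
/-- The arcs of `x y + u^κ`. -/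
theorem AKm_node {κ N k i : ℕ} (hκ : 0 < κ) (hk : 0 < k) (hkN : k ≤ N) (hi : i ≤ N) :
    AKm (X 1 * X 2 + X 0 ^ κ) N k i = ell ^ k * cK 2 (κ * k) yN i := by
  have hL : algebraMap K0 Mot L = (LU : Mot) := LU_val.symm
  have hA := NCls.isConstr_AK (X 1 * X 2 + X 0 ^ κ) N k i
  have hQ := isConstr_setQ (X 0 * X 1 : MvPolynomial (Fin 2) ℂ) (κ * k) N i
  have hQ' : IsConstr (setQ' (X 0 * X 1 : MvPolynomial (Fin 2) ℂ) (0 : Fin 3) (κ * k) N i) :=
    hQ.reindex (eS (0 : Fin 3) N)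
  have h1 : cls (AK (X 1 * X 2 + X 0 ^ κ) N k i) * L ^ k =
      cls (setQ (X 0 * X 1 : MvPolynomial (Fin 2) ℂ) (κ * k) N i) := by
    have h2 := cls_bijOn hQ' (isConstr_prodSum hA IsConstr.univ) _ (bijOn_nP hκ hk hkN hi)
    rw [cls_prodSum hA IsConstr.univ, cls_univ_eq, Fintype.card_fin] at h2
    rw [← h2]
    exact cls_equiv (eS (0 : Fin 3) N) hQ
  have h3 : clsM (AK (X 1 * X 2 + X 0 ^ κ) N k i) * (LU : Mot) ^ k =
      clsM (setQ (X 0 * X 1 : MvPolynomial (Fin 2) ℂ) (κ * k) N i) := by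
    unfold clsM
    rw [← h1, map_mul, map_pow, hL]
  unfold AKm
  rw [← Zcoeff0_xy', ← clsM_setQ _ hi, ← h3, inv_pow_eq]
  linear_combination (-(ell ^ (3 * (N + 1)) * clsM (AK (X 1 * X 2 + X 0 ^ κ) N k i))) *
    ell_pow_mul k

end YL

end MPb07157
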