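import Pool.Agent.Lib.MP_b07157_agYL.Defs

/-!
# The arcs of `g(x, y) + u^e`
-/

noncomputable section

namespace MPb07157

open MvPolynomial

namespace YL

open SI

namespace SuspAux

/-- The coordinates of the jets in the two notations. -/
def eq3 (N : ℕ) : Fin 3 × Fin N ≃ SU.JI 1 N where
  toFun p := Fin.cases (motive := fun _ => SU.JI 1 N) (Sum.inr (0, p.2))
    (fun a => Sum.inl (a, p.2)) p.1
  invFun := Sum.elim (fun q => (q.1.succ, q.2)) (fun q => (0, q.2))
  left_inv := by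
    rintro ⟨a, j⟩
    refine Fin.cases ?_ (fun a => ?_) a
    · rfl
    · rfl
  right_inv := by
    rintro (⟨a, j⟩ | ⟨a, j⟩)
    · rfl
    · have ha : a = 0 := Subsingleton.elim _ _
      subst ha
      rfl

theorem eq3_zero (N : ℕ) (j : Fin N) : eq3 N (0, j) = Sum.inr (0, j) := rfl

theorem eq3_succ (N : ℕ) (a : Fin 2) (j : Fin N) : eq3 N (a.succ, j) = Sum.inl (a, j) := rfl

theorem isConstr_AK (h : MvPolynomial (Fin 3) ℂ) (N k i : ℕ) : IsConstr (AK h N k i) := by
  have h1 : AK h N k i = Start 3 1 (N + 1) ∩ (arcs (X 0) (N + 1) k ∩ arcs h (N + 1) i) := by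
    ext γ
    simp only [AK, Start, arcs, Set.mem_inter_iff, Set.mem_ofPred_eq, aeval_X]
    refine and_congr_left fun _ => ⟨fun h j l hl => ?_, fun h j => h j 0 (by simp)⟩
    have : l = 0 := Fin.ext (by
      have := hl
      simp only [Fin.val_zero]
      omega)
    rw [this]
    exact h j
  rw [h1]
  exact (isConstr_Start 3 1 (N + 1)).inter ((isConstr_arcs _ _ _).inter (isConstr_arcs _ _ _))

theorem order_arc {n N : ℕ} (γ : Fin n × Fin N → ℂ) (i : Fin n) {k : ℕ} (hk : k < N) :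
    (arc γ i).order = (k : ℕ∞) ↔ (∀ j : Fin N, (j : ℕ) < k → γ (i, j) = 0) ∧ γ (i, ⟨k, hk⟩) ≠ 0 := by
  rw [PowerSeries.order_eq_nat, coeff_arc, dif_pos hk, and_comm]
  refine and_congr_left fun _ => ⟨fun h j hj => ?_, fun h j hj => ?_⟩
  · have h1 := h j hj
    rwa [coeff_arc, dif_pos j.2] at h1
  · rw [coeff_arc, dif_pos (hj.trans hk)]
    exact h ⟨j, hj.trans hk⟩ hj

theorem val_eq (g : MvPolynomial (Fin 2) ℂ) (e : ℕ) {N : ℕ} (x : SU.JI 1 N → ℂ) :
    SU.val (g : PC.P2) (fun _ : Fin 1 => e) x =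
      (aeval (arc fun p => x (eq3 N p)) (rename Fin.succ g + X 0 ^ e) : PowerSeries ℂ) := by
  have h1 : SU.valF (g : PC.P2) (SU.xyP x) =
      (aeval (fun j => arc (fun p => x (eq3 N p)) (Fin.succ j)) g : PowerSeries ℂ) := by
    unfold SU.valF
    rw [MvPowerSeries.subst_coe]
    rfl
  unfold SU.val
  rw [h1, map_add, aeval_rename, map_pow, aeval_X]
  congr 1
  rw [Fin.sum_univ_one]
  rfl

end SuspAux

open SuspAux in
/-- The arcs of `g(x, y) + u^e` in the notation of suspensions. -/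
theorem AKm_susp (g : MvPolynomial (Fin 2) ℂ) {e N k i : ℕ} (he : 0 < e) (hk : 0 < k)
    (hkN : k ≤ N) : AKm (rename Fin.succ g + X 0 ^ e) N k i =
      SU.muJ (g : PC.P2) (fun _ : Fin 1 => e) (N + 1) i (Start 2 1 (N + 1))
        (SU.Ug (fun _ : Fin 1 => e) (N + 1) (e * k)) := by
  have h1 : {x : SU.JI 1 (N + 1) → ℂ | (fun p => x (eq3 (N + 1) p)) ∈
      AK (rename Fin.succ g + X 0 ^ e) N k i} =
      SU.jset (g : PC.P2) (fun _ : Fin 1 => e) (N + 1) i (Start 2 1 (N + 1))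
        (SU.Ug (fun _ : Fin 1 => e) (N + 1) (e * k)) := by
    ext x
    simp only [AK, SU.jset, Set.mem_ofPred_eq, val_eq, order_arc _ _ (Nat.lt_succ_of_le hkN)]
    simp only [Start, SU.Ug, Set.mem_ofPred_eq]
    constructor
    · rintro ⟨h2, ⟨h3, h4⟩, h7⟩
      refine ⟨fun a j hj => ?_, ⟨fun a j hj => ?_, 0, ⟨k, Nat.lt_succ_of_le hkN⟩, rfl, h4⟩, h7⟩
      · have h5 : j = 0 := Fin.ext (by
          simp only [Fin.val_zero]
          omega)
        rw [h5]
        exact h2 a.succ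
      · have h5 : a = 0 := Subsingleton.elim _ _
        rw [h5]
        exact h3 j (Nat.lt_of_mul_lt_mul_left hj)
    · rintro ⟨h2, ⟨h3, a, j, h4, h5⟩, h7⟩
      have ha : a = 0 := Subsingleton.elim _ _
      subst ha
      have hj : (j : ℕ) = k := Nat.eq_of_mul_eq_mul_left he h4
      refine ⟨fun b => ?_, ⟨fun l hl => h3 0 l (Nat.mul_lt_mul_of_pos_left hl he), ?_⟩, h7⟩
      · refine Fin.cases ?_ (fun b => ?_) b
        · exact h3 0 0 (by
            simp only [Fin.val_zero, mul_zero]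
            exact Nat.mul_pos he hk)
        · exact h2 b 0 (by simp)
      · have h6 : (⟨k, Nat.lt_succ_of_le hkN⟩ : Fin (N + 1)) = j := Fin.ext hj.symm
        rw [h6]
        exact h5
  unfold AKm SU.muJ SU.mJ
  rw [← h1]
  unfold clsM
  rw [cls_equiv (eq3 (N + 1)) (isConstr_AK _ N k i)]

end YL

end MPb07157
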