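import Pool.Agent.Lib.MP_b07157_agI.Line
import Pool.Agent.Lib.MP_b07157_agYL.Chart
import Pool.Agent.Lib.MP_b07157_agYL.Inv
import Pool.Agent.Lib.MP_b07157_agYL.FormLY
import Pool.Agent.Lib.MP_b07157_agYL.Susp
import Pool.Agent.Lib.MP_b07157_agYL.Level
import Pool.Agent.Lib.MP_b07157_agYL.NodeCls
import Pool.Agent.Lib.MP_b07157_agYP.Defs
import Pool.Agent.Lib.MP_b07157_agU.L1

/-!
# The series of a line
-/

noncomputable section

namespace MPb07157

open MvPolynomial

namespace YL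

open SI SI.LineQ SI.LineA PC

theorem Lp_eq_ell (k : ℕ) : P1aux.Lp k = ell ^ k := by
  unfold P1aux.Lp
  rw [zpow_neg, zpow_natCast, inv_pow_eq]

theorem isConstr_lineW_of {q : Fin 3 → ℂ} {j₀ : Fin 3} (hq : q j₀ = 1) : IsConstr (lineW q) :=
  isConstr_lineW (ne_zero_of_apply hq)

/-- The measures at a line, for every level. -/
theorem AKm_eq_Mk (f : MvPolynomial (Fin 3) ℂ) {d : ℕ} {k : ℕ} (hk : 0 < k)
    {q : Fin 3 → ℂ} {j₀ : Fin 3} (hq : q j₀ = 1) {N i : ℕ} (hkN : k + i ≤ N) :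
    AKm (hg f d q j₀) N k i = ell ^ k * Mk f d k (lineW q) (k + i) i := by
  have h1 := Mk_eq_AKm f d hk hq (N := N) (i := i) (by omega) (by omega)
  have h2 := Mk_level f d k (isConstr_lineW_of hq) (N := k + i) (N' := N) (i := i) (by omega) hkN
  rw [← h2, h1, ← mul_assoc, ell_pow_mul, one_mul]

/-- The series of a line as a zeta function of `u^d (g(x, y) + u^e)`. -/
theorem lineSer_eq_ZY {f : MvPolynomial (Fin 3) ℂ} {d e : ℕ} (hd : 0 < d) (he : 0 < e)
    (hmid : ∀ j, 0 < j → j < e → homogeneousComponent (d + j) f = 0) {q : Fin 3 → ℂ}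
    {j₀ : Fin 3} (hq : q j₀ = 1) (hqe : eval q (homogeneousComponent (d + e) f) ≠ 0) {K : ℕ}
    (hK : 1 ≤ K) : lineSer f d q =
      YP.ZY (gch (homogeneousComponent d f) q j₀ : PC.P2) e d 3 1 0 K := by
  unfold lineSer serK YP.ZY
  ext m
  rw [PowerSeries.coeff_mk, PowerSeries.coeff_mk, Finset.sum_comm]
  have hmN : m + 1 ≤ K * (m + 1) := Nat.le_mul_of_pos_left _ (by omega)
  obtain ⟨N, hN⟩ : ∃ N, K * (m + 1) = N + 1 := ⟨K * (m + 1) - 1, by omega⟩
  rw [hN] at hmN ⊢
  have hsub : Finset.Icc 1 m ⊆ Finset.Icc 1 (N + 1) := Finset.Icc_subset_Icc_right (by omega)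
  rw [Finset.sum_subset hsub]
  · refine Finset.sum_congr rfl fun j hj => ?_
    rw [Finset.mem_Icc] at hj
    by_cases hjm : d * j ≤ m
    · have hjm' : j ≤ m := le_trans (Nat.le_mul_of_pos_left _ hd) hjm
      have hc : ∀ k, (0 * k < e * j ∧ d * j ≤ m) := fun k =>
        ⟨by rw [Nat.zero_mul]; exact Nat.mul_pos he hj.1, hjm⟩
      rw [if_pos hjm]
      have h1 : ∀ k ∈ Finset.Icc 1 (N + 1), (if 0 * k < e * j ∧ d * j ≤ m then
          P1aux.Lp ((1 - 1) * k + (3 - 1) * j) *
            SU.muJ (gch (homogeneousComponent d f) q j₀ : PC.P2) (YP.eo e) (N + 1) (m - d * j)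
              (Start 2 1 (N + 1) ∩ Xo (N + 1) k) (SU.Ug (YP.eo e) (N + 1) (e * j)) else 0) =
          ell ^ (2 * j) *
            SU.muJ (gch (homogeneousComponent d f) q j₀ : PC.P2) (YP.eo e) (N + 1) (m - d * j)
              (Start 2 1 (N + 1) ∩ Xo (N + 1) k) (SU.Ug (YP.eo e) (N + 1) (e * j)) := by
        intro k _
        rw [if_pos (hc k), Lp_eq_ell]
        congr 2
        omega
      rw [Finset.sum_congr rfl h1, ← Finset.mul_sum, SU.L1aux.sum_muJ _ _ (by omega)
        (SU.isConstr_Ug _ _ _)]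
      have h2 := AKm_susp (gch (homogeneousComponent d f) q j₀) (N := N) (k := j)
        (i := m - d * j) he hj.1 (by omega)
      have h3 := AKm_ueq (ueq_ly he hmid hq hqe) (N := N) (k := j) (i := m - d * j) hj.1
        (by omega) (by omega)
      have h4 := AKm_eq_Mk f (d := d) (k := j) hj.1 hq (N := N) (i := m - d * j) (by
        have : j ≤ d * j := Nat.le_mul_of_pos_left _ hd
        omega)
      have h5 : SU.muJ (gch (homogeneousComponent d f) q j₀ : PC.P2) (YP.eo e) (N + 1)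
          (m - d * j) (Start 2 1 (N + 1)) (SU.Ug (YP.eo e) (N + 1) (e * j)) =
          ell ^ j * Mk f d j (lineW q) (j + (m - d * j)) (m - d * j) := by
        rw [← h4, h3, h2]
      rw [h5, ← mul_assoc, ← pow_add]
      congr 2
      omega
    · rw [if_neg hjm]
      symm
      refine Finset.sum_eq_zero fun k _ => if_neg fun h => hjm h.2
  · intro j hj hj'
    rw [Finset.mem_Icc] at hj hj'
    refine if_neg fun h => hj' ⟨hj.1, le_trans (Nat.le_mul_of_pos_left _ hd) h⟩

/-- The series of a line at a node, in the degenerate case. -/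
theorem lineSer_node0 {f : MvPolynomial (Fin 3) ℂ} {d : ℕ} (hd : 0 < d) {q : Fin 3 → ℂ}
    {j₀ : Fin 3} (hq : q j₀ = 1)
    (h : UEq (hg f d q j₀ : MvPowerSeries (Fin 3) ℂ) (X 1 * X 2)) :
    lineSer f d q = serK 3 d (fun _ i => (1 - ell) * yN i) := by
  unfold lineSer serK
  ext m
  rw [PowerSeries.coeff_mk, PowerSeries.coeff_mk]
  refine Finset.sum_congr rfl fun k hk => ?_
  rw [Finset.mem_Icc] at hk
  split_ifs with hkm
  · have hk' : k ≤ d * k := Nat.le_mul_of_pos_left _ hd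
    have h1 := AKm_eq_Mk f (d := d) (k := k) hk.1 hq (N := k + (m - d * k)) (i := m - d * k)
      le_rfl
    have h2 := AKm_ueq h (N := k + (m - d * k)) (k := k) (i := m - d * k) hk.1
      (by omega) (by omega)
    have h3 := AKm_node0 (N := k + (m - d * k)) (k := k) (i := m - d * k) hk.1
      (by omega) (by omega)
    rw [h2, h3] at h1
    have h4 := congrArg (fun t => (LU : Mot) ^ k * t) h1
    simp only [← mul_assoc] at h4
    rw [mul_comm ((LU : Mot) ^ k) (ell ^ k), ell_pow_mul, one_mul, one_mul] at h4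
    exact congrArg (fun t => ell ^ (3 * k) * t) h4.symm
  · rfl

/-- The series of a line at a node. -/
theorem lineSer_nodeK {f : MvPolynomial (Fin 3) ℂ} {d κ : ℕ} (hd : 0 < d) (hκ : 0 < κ)
    {q : Fin 3 → ℂ} {j₀ : Fin 3} (hq : q j₀ = 1)
    (h : UEq (hg f d q j₀ : MvPowerSeries (Fin 3) ℂ) (X 1 * X 2 + X 0 ^ κ)) :
    lineSer f d q = serK 3 d (fun k => cK 2 (κ * k) yN) := by
  unfold lineSer serK
  ext m
  rw [PowerSeries.coeff_mk, PowerSeries.coeff_mk]
  refine Finset.sum_congr rfl fun k hk => ?_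
  rw [Finset.mem_Icc] at hk
  split_ifs with hkm
  · have hk' : k ≤ d * k := Nat.le_mul_of_pos_left _ hd
    have h1 := AKm_eq_Mk f (d := d) (k := k) hk.1 hq (N := k + (m - d * k)) (i := m - d * k)
      le_rfl
    have h2 := AKm_ueq h (N := k + (m - d * k)) (k := k) (i := m - d * k) hk.1
      (by omega) (by omega)
    have h3 := AKm_node (N := k + (m - d * k)) (k := k) (i := m - d * k) hκ hk.1
      (by omega) (by omega)
    rw [h2, h3] at h1
    have h4 := congrArg (fun t => (LU : Mot) ^ k * t) h1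
    simp only [← mul_assoc] at h4
    rw [mul_comm ((LU : Mot) ^ k) (ell ^ k), ell_pow_mul, one_mul, one_mul] at h4
    exact congrArg (fun t => ell ^ (3 * k) * t) h4.symm
  · rfl

end YL

end MPb07157
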