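import Pool.Agent.Lib.MP_b07157_agI.Root

/-!
# The residue lemma in the chart
-/

noncomputable section

namespace MPb07157

open MvPolynomial TensorProduct

namespace YL

open SI

/-! ### The lowest terms of `f(u x)` -/

/-- The two lowest terms of `f(u x)`, with a gap. -/
theorem aeval_mul_low_e {n : ℕ} {A : Type} [CommRing A] [Algebra ℂ A]
    {f : MvPolynomial (Fin n) ℂ} {d e : ℕ} (he : 0 < e)
    (hlow : ∀ j < d, homogeneousComponent j f = 0)
    (hmid : ∀ j, 0 < j → j < e → homogeneousComponent (d + j) f = 0) (u : A) (x : Fin n → A) :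
    ∃ G : A, aeval (fun i => u * x i) f = u ^ d * (aeval x (homogeneousComponent d f) +
      u ^ e * aeval x (homogeneousComponent (d + e) f) + u ^ (e + 1) * G) := by
  set t := f.totalDegree with ht
  have h1 : ∑ j ∈ Finset.range (d + (e + (t + 1 + 1))), homogeneousComponent j f = f := by
    conv_rhs => rw [← sum_homogeneousComponent f]
    symm
    refine Finset.sum_subset (Finset.range_subset_range.2 (by omega)) fun j _ hj => ?_
    refine homogeneousComponent_eq_zero j f ?_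
    rw [Finset.mem_range] at hj
    omega
  have h2 : aeval (fun i => u * x i) f = ∑ j ∈ Finset.range (d + (e + (t + 1 + 1))),
      u ^ j * aeval x (homogeneousComponent j f) := by
    conv_lhs => rw [← h1]
    rw [map_sum]
    exact Finset.sum_congr rfl fun j _ =>
      aeval_mul_of_homog (homogeneousComponent_isHomogeneous j f) u x
  have h3 : ∑ j ∈ Finset.range e, u ^ (d + j) * aeval x (homogeneousComponent (d + j) f) =
      u ^ d * aeval x (homogeneousComponent d f) := by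
    rw [Finset.sum_eq_single_of_mem 0 (Finset.mem_range.2 he) (fun j hj hj0 => by
      rw [hmid j (Nat.pos_of_ne_zero hj0) (Finset.mem_range.1 hj), map_zero, mul_zero]), add_zero]
  refine ⟨∑ j ∈ Finset.range (t + 1), u ^ j *
    aeval x (homogeneousComponent (d + (e + (j + 1))) f), ?_⟩
  rw [h2, Finset.sum_range_add, Finset.sum_eq_zero (fun j hj => by
    rw [hlow j (Finset.mem_range.1 hj), map_zero, mul_zero]), zero_add, Finset.sum_range_add, h3,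
    Finset.sum_range_succ', add_zero]
  have e1 : ∑ j ∈ Finset.range (t + 1), u ^ (d + (e + (j + 1))) *
      aeval x (homogeneousComponent (d + (e + (j + 1))) f) =
      u ^ d * (u ^ (e + 1) * ∑ j ∈ Finset.range (t + 1), (u ^ j *
        aeval x (homogeneousComponent (d + (e + (j + 1))) f))) := by
    rw [Finset.mul_sum, Finset.mul_sum]
    refine Finset.sum_congr rfl fun j _ => ?_
    ring
  rw [e1]
  ring

/-! ### The map `h(t) ↦ i(h)(t^e)` -/

section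

variable {K : Type} [Field K] [Algebra ℂ K] {K' : Type} [CommRing K'] [Algebra ℂ K']
  (i : K →ₐ[ℂ] K') {e : ℕ} (he : e ≠ 0)

/-- The map `h(t) ↦ i(h)(t^e)`. -/
def eE : PowerSeries K →ₐ[ℂ] PowerSeries K' :=
  { (PowerSeries.map (i : K →+* K')).comp
      (PowerSeries.expand e he : PowerSeries K →ₐ[K] PowerSeries K).toRingHom with
    commutes' := fun c => by
      show PowerSeries.map (i : K →+* K') (PowerSeries.expand e he
        (algebraMap ℂ (PowerSeries K) c)) = algebraMap ℂ (PowerSeries K') c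
      have h1 : algebraMap ℂ (PowerSeries K) c = PowerSeries.C (algebraMap ℂ K c) :=
        PowerSeries.algebraMap_apply
      have h2 : algebraMap ℂ (PowerSeries K') c = PowerSeries.C (algebraMap ℂ K' c) :=
        PowerSeries.algebraMap_apply
      rw [h1, PowerSeries.expand_C, PowerSeries.map_C, h2]
      exact congrArg _ (i.commutes c) }

theorem coeff_eE (h : PowerSeries K) (m : ℕ) :
    PowerSeries.coeff m (eE i he h) = if e ∣ m then i (PowerSeries.coeff (m / e) h) else 0 := by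
  show PowerSeries.coeff m (PowerSeries.map (i : K →+* K') (PowerSeries.expand e he h)) = _
  rw [PowerSeries.coeff_map, PowerSeries.coeff_expand]
  split_ifs
  · rfl
  · exact map_zero _

theorem eE_X : eE i he PowerSeries.X = PowerSeries.X ^ e := by
  show PowerSeries.map (i : K →+* K') (PowerSeries.expand e he PowerSeries.X) = _
  rw [PowerSeries.expand_X, map_pow, PowerSeries.map_X]

theorem eE_C (a : K) : eE i he (PowerSeries.C a) = PowerSeries.C (i a) := by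
  show PowerSeries.map (i : K →+* K') (PowerSeries.expand e he (PowerSeries.C a)) = _
  rw [PowerSeries.expand_C, PowerSeries.map_C]
  rfl

theorem constantCoeff_eE {h : PowerSeries K} (h0 : PowerSeries.constantCoeff h = 0) :
    PowerSeries.constantCoeff (eE i he h) = 0 := by
  rw [← PowerSeries.coeff_zero_eq_constantCoeff_apply, coeff_eE, if_pos (dvd_zero e),
    Nat.zero_div, PowerSeries.coeff_zero_eq_constantCoeff_apply, h0, map_zero]

theorem subst_eE (F : MvPolynomial (Fin 2) ℂ) (Θ : Fin 2 → PowerSeries K) :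
    (MvPowerSeries.subst ((fun j => eE i he (Θ j)) : Fin 2 → MvPowerSeries Unit K')
      (F : MvPowerSeries (Fin 2) ℂ) : PowerSeries K') =
    eE i he (MvPowerSeries.subst (Θ : Fin 2 → MvPowerSeries Unit K)
      (F : MvPowerSeries (Fin 2) ℂ) : PowerSeries K) := by
  have h1 : (MvPowerSeries.subst (Θ : Fin 2 → MvPowerSeries Unit K)
      (F : MvPowerSeries (Fin 2) ℂ) : PowerSeries K) = (aeval Θ F : PowerSeries K) :=
    MvPowerSeries.subst_coe _
  have h2 : (MvPowerSeries.subst ((fun j => eE i he (Θ j)) : Fin 2 → MvPowerSeries Unit K')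
      (F : MvPowerSeries (Fin 2) ℂ) : PowerSeries K') =
      (aeval (fun j => eE i he (Θ j)) F : PowerSeries K') :=
    MvPowerSeries.subst_coe _
  rw [h1, h2, ← AlgHom.comp_apply, comp_aeval]

variable {B : Type} [CommRing B] [Algebra ℂ B]

theorem lg_iS_eE (h : PowerSeries K) :
    ARL.lg () (iS B (eE i he h)) = (e : MvPowerSeries Unit (K' ⊗[ℂ] B)) *
      (MvPowerSeries.X () ^ e * iS B (eE i he (PowerSeries.derivative K h))) := by
  have h1 : MvPowerSeries.X () ^ e * iS B (eE i he (PowerSeries.derivative K h)) =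
      iS B (eE i he (PowerSeries.X * PowerSeries.derivative K h)) := by
    rw [map_mul, map_mul, eE_X, map_pow, iS_X]
  rw [h1]
  refine MvPowerSeries.ext fun v => ?_
  rw [← nsmul_eq_mul, map_nsmul, ARL.coeff_lg, coeff_iS, coeff_iS]
  obtain ⟨m, rfl⟩ : ∃ m, v = Finsupp.single () m := ⟨v (), by ext; simp⟩
  have h2 : MvPowerSeries.coeff (Finsupp.single () m) (eE i he (PowerSeries.X *
      PowerSeries.derivative K h) : PowerSeries K') =
      PowerSeries.coeff m (eE i he (PowerSeries.X * PowerSeries.derivative K h)) := rfl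
  have h3 : MvPowerSeries.coeff (Finsupp.single () m) (eE i he h) =
    PowerSeries.coeff m (eE i he h) := rfl
  rw [h2, h3, Finsupp.single_eq_same, coeff_eE, coeff_eE]
  split_ifs with hd
  · obtain ⟨l, rfl⟩ := hd
    rw [Nat.mul_div_cancel_left _ (Nat.pos_of_ne_zero he)]
    rcases l with _ | l
    · rw [PowerSeries.coeff_zero_X_mul, map_zero, TensorProduct.zero_tmul, mul_zero,
        Nat.cast_zero, zero_mul, smul_zero]
    · rw [PowerSeries.coeff_succ_X_mul, PowerSeries.coeff_derivative]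
      have h4 : ((l + 1 : ℕ) : K' ⊗[ℂ] B) = (i ((l : K) + 1)) ⊗ₜ[ℂ] (1 : B) := by
        rw [← Nat.cast_succ, map_natCast]
        exact (map_natCast (Algebra.TensorProduct.includeLeftRingHom : K' →+* K' ⊗[ℂ] B)
          (l + 1)).symm
      rw [map_mul, Nat.cast_mul, nsmul_eq_mul, h4, mul_assoc, Algebra.TensorProduct.tmul_mul_tmul,
        one_mul, mul_comm (i ((l : K) + 1))]
  · rw [TensorProduct.zero_tmul, mul_zero, smul_zero]

theorem cw_dL_iS_eE {δ : Derivation ℂ K K} {δ₁ : Derivation ℂ K' K'}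
    (hδ : ∀ a, δ₁ (i a) = i (δ a)) (h : PowerSeries K) :
    ARL.cw (dL δ₁) (iS B (eE i he h)) = iS B (eE i he (PC.dz δ h)) := by
  refine MvPowerSeries.ext fun v => ?_
  rw [ARL.coeff_cw, coeff_iS, coeff_iS, dL_tmul]
  obtain ⟨m, rfl⟩ : ∃ m, v = Finsupp.single () m := ⟨v (), by ext; simp⟩
  have h1 : MvPowerSeries.coeff (Finsupp.single () m) (eE i he (PC.dz δ h)) =
      PowerSeries.coeff m (eE i he (PC.dz δ h)) := rfl
  have h2 : MvPowerSeries.coeff (Finsupp.single () m) (eE i he h) =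
    PowerSeries.coeff m (eE i he h) := rfl
  rw [h1, h2, coeff_eE, coeff_eE]
  split_ifs
  · rw [PC.coeff_dz, hδ]
  · rw [map_zero]

theorem jac_iS_eE {δ : Derivation ℂ K K} {δ₁ : Derivation ℂ K' K'}
    (hδ : ∀ a, δ₁ (i a) = i (δ a)) {Θ : Fin 2 → PowerSeries K} (c : Fin 2 → ℂ) :
    ARL.lg () (iS B (eE i he (Θ 0)) + algebraMap ℂ _ (c 0)) *
        ARL.cw (dL δ₁) (iS B (eE i he (Θ 1)) + algebraMap ℂ _ (c 1)) -
      ARL.lg () (iS B (eE i he (Θ 1)) + algebraMap ℂ _ (c 1)) *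
        ARL.cw (dL δ₁) (iS B (eE i he (Θ 0)) + algebraMap ℂ _ (c 0)) =
      (e : MvPowerSeries Unit (K' ⊗[ℂ] B)) *
        (MvPowerSeries.X () ^ e * iS B (eE i he (PC.jacK δ Θ))) := by
  rw [map_add, map_add, map_add, map_add, Derivation.map_algebraMap, Derivation.map_algebraMap,
    Derivation.map_algebraMap, Derivation.map_algebraMap, add_zero, add_zero, add_zero, add_zero,
    lg_iS_eE, lg_iS_eE, cw_dL_iS_eE i he hδ, cw_dL_iS_eE i he hδ]
  unfold PC.jacK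
  rw [map_sub, map_sub, map_mul, map_mul, map_mul, map_mul]
  ring

/-- The function `u = t^N w T / γ`. -/
def ucE (w : K') (Q : B) (N : ℕ) : MvPowerSeries Unit (K' ⊗[ℂ] B) :=
  MvPowerSeries.C (w ⊗ₜ[ℂ] Q) * MvPowerSeries.X () ^ N

omit [Field K] [Algebra ℂ K] in
theorem cw_dR_ucE (δ : Derivation ℂ B B) (w : K') (Q : B) (N : ℕ) :
    ARL.cw (dR δ) (ucE w Q N) = MvPowerSeries.C (w ⊗ₜ[ℂ] δ Q) * MvPowerSeries.X () ^ N := by
  unfold ucE
  rw [Derivation.leibniz, ARL.cw_C, dR_tmul, smul_eq_mul, smul_eq_mul, MvPowerSeries.X_pow_eq,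
    ARL.cw_monomial, mul_zero, zero_add, mul_comm]

end

variable {K : Type} [Field K] [Algebra ℂ K] {K' : Type} [CommRing K'] [Algebra ℂ K']
  {B : Type} [Field B] [Algebra ℂ B]

/-- The value of `f` on the chart. -/
theorem aeval_chart_e {f : MvPolynomial (Fin 3) ℂ} {d e : ℕ} (he : 0 < e)
    (hlow : ∀ j < d, homogeneousComponent j f = 0)
    (hmid : ∀ j, 0 < j → j < e → homogeneousComponent (d + j) f = 0)
    {q : Fin 3 → ℂ} {j₀ : Fin 3} (hq : q j₀ = 1)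
    {N : ℕ} (hN : 0 < N) {T : B} {γ : ℂ}
    (hγ : eval q (homogeneousComponent (d + e) f) = γ ^ e) (hγ0 : γ ≠ 0) (i : K →ₐ[ℂ] K')
    {Θ : Fin 2 → PowerSeries K} (h0 : ∀ i, PowerSeries.constantCoeff (Θ i) = 0)
    {f₀ : K} {w : K'} (hw : w ^ e = i f₀) {F₁ : PowerSeries K}
    (hF : (MvPowerSeries.subst (Θ : Fin 2 → MvPowerSeries Unit K)
      (gch (homogeneousComponent d f) q j₀ : MvPowerSeries (Fin 2) ℂ) : PowerSeries K) =
      PowerSeries.X ^ N * (PowerSeries.C f₀ + PowerSeries.X * F₁)) :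
    ∃ V : MvPowerSeries Unit (K' ⊗[ℂ] B),
      aeval (fun l => ucE w (algebraMap ℂ B γ⁻¹ * T) N *
          xc B q j₀ (fun j => eE i he.ne' (Θ j)) l) f =
        MvPowerSeries.monomial (Finsupp.single () (N * (d + e))) 1 * V ∧
      MvPowerSeries.constantCoeff V =
        (w ^ (d + e)) ⊗ₜ[ℂ] ((algebraMap ℂ B γ⁻¹ * T) ^ d * (1 + T ^ e)) := by
  have h0' : ∀ j, PowerSeries.constantCoeff (eE i he.ne' (Θ j)) = 0 := fun j =>
    constantCoeff_eE i he.ne' (h0 j)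
  obtain ⟨G, hG⟩ := aeval_mul_low_e he hlow hmid (ucE w (algebraMap ℂ B γ⁻¹ * T) N)
    (xc B q j₀ (fun j => eE i he.ne' (Θ j)))
  set a : K' ⊗[ℂ] B := w ⊗ₜ[ℂ] (algebraMap ℂ B γ⁻¹ * T) with ha
  set X' : MvPowerSeries Unit (K' ⊗[ℂ] B) := MvPowerSeries.X () with hX'
  refine ⟨MvPowerSeries.C a ^ d * ((MvPowerSeries.C (i f₀ ⊗ₜ[ℂ] (1 : B)) +
      X' ^ e * iS B (eE i he.ne' F₁)) +
    MvPowerSeries.C a ^ e * aeval (xc B q j₀ (fun j => eE i he.ne' (Θ j)))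
      (homogeneousComponent (d + e) f) +
    X' ^ N * (MvPowerSeries.C a ^ (e + 1) * G)), ?_, ?_⟩
  · have h1 : aeval (xc B q j₀ (fun j => eE i he.ne' (Θ j))) (homogeneousComponent d f) =
        X' ^ (e * N) * (MvPowerSeries.C (i f₀ ⊗ₜ[ℂ] (1 : B)) +
          X' ^ e * iS B (eE i he.ne' F₁)) := by
      rw [aeval_xc q j₀ h0', subst_eE, hF, map_mul, map_mul, map_pow, map_pow, map_add, map_add,
        map_mul, map_mul, eE_X, eE_C, map_pow, iS_X, iS_C, ← hX', ← pow_mul]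
    rw [hG, h1, ← MvPowerSeries.X_pow_eq, ← hX']
    unfold ucE
    rw [← ha, ← hX']
    ring
  · rw [map_mul, map_add, map_add, map_add, map_mul, map_mul, map_mul, map_pow, map_pow, map_pow,
      map_pow, MvPowerSeries.constantCoeff_C, MvPowerSeries.constantCoeff_C, hX',
      MvPowerSeries.constantCoeff_X, zero_pow hN.ne', zero_pow he.ne', zero_mul, zero_mul,
      add_zero, add_zero, constantCoeff_aeval_xc _ hq h0', hγ, ha,
      Algebra.TensorProduct.tmul_pow, Algebra.TensorProduct.tmul_pow, ← hw]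
    have h1 : algebraMap ℂ (K' ⊗[ℂ] B) (γ ^ e) = (1 : K') ⊗ₜ[ℂ] (algebraMap ℂ B (γ ^ e)) := by
      rw [Algebra.TensorProduct.algebraMap_apply, Algebra.algebraMap_eq_smul_one,
        TensorProduct.smul_tmul, Algebra.algebraMap_eq_smul_one]
    have h2 : (algebraMap ℂ B γ⁻¹ * T) ^ e * algebraMap ℂ B (γ ^ e) = T ^ e := by
      rw [mul_pow, mul_right_comm, ← map_pow, ← map_mul, ← mul_pow, inv_mul_cancel₀ hγ0, one_pow,
        map_one, one_mul]
    rw [h1, Algebra.TensorProduct.tmul_mul_tmul, mul_one, h2, ← TensorProduct.tmul_add,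
      Algebra.TensorProduct.tmul_mul_tmul, ← pow_add]

/-- **The residue lemma in the chart.** As `SI.residue_chart` (`agI/Root.lean`, the case `e = 1`):
`u = t^N w T / γ` with `γ^e = f_{d+e}(q)` and `w^e = f₀`, `(x, y) = Θ(t^e)`; then
`f = t^{N(d+e)} (γ^{-d} w^{d+e} ⊗ T^d (1 + T^e) + O(t))`, and the Jacobian determinant (in `log t`) is
`t^{3N+eν} (e γ^{-3} w^3 J₀ ⊗ T^2 + O(t))`. -/
theorem residue_chart_e {f : MvPolynomial (Fin 3) ℂ} {d e : ℕ} (he : 0 < e)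
    (hlow : ∀ j < d, homogeneousComponent j f = 0)
    (hmid : ∀ j, 0 < j → j < e → homogeneousComponent (d + j) f = 0)
    {q : Fin 3 → ℂ} {j₀ : Fin 3} (hq : q j₀ = 1)
    (hqe : eval q (homogeneousComponent (d + e) f) ≠ 0) {s : ℂ} {ν N : ℕ} (hN : 0 < N)
    (hν : 0 < ν) (hs : 3 + ((d : ℂ) + e) * s = -((e : ℂ) * ν / N))
    {b : Polynomial ℂ} (hb : InPs (f : MvPowerSeries (Fin 3) ℂ) 1
      (b.map (MvPowerSeries.C (σ := Fin 3) (R := ℂ)))) (hb0 : b.eval s ≠ 0)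
    (i : K →ₐ[ℂ] K') (δ : Derivation ℂ K K) (δ₁ : Derivation ℂ K' K')
    (hδ : ∀ a, δ₁ (i a) = i (δ a)) {J₀ f₀ : K} (w : K'ˣ) (hw : (w : K') ^ e = i f₀)
    (δ' : Derivation ℂ B B) {T : B} (hT : T ≠ 0) (hT1 : 1 + T ^ e ≠ 0)
    (hδT : δ' T = 1) {Θ : Fin 2 → PowerSeries K} (h0 : ∀ i, PowerSeries.constantCoeff (Θ i) = 0)
    {J₁ F₁ : PowerSeries K}
    (hJ : PC.jacK δ Θ = PowerSeries.X ^ (ν - 1) * (PowerSeries.C J₀ + PowerSeries.X * J₁))
    (hF : (MvPowerSeries.subst (Θ : Fin 2 → MvPowerSeries Unit K)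
      (gch (homogeneousComponent d f) q j₀ : MvPowerSeries (Fin 2) ℂ) : PowerSeries K) =
      PowerSeries.X ^ N * (PowerSeries.C f₀ + PowerSeries.X * F₁)) :
    ∃ r₀ r₁ : K' ⊗[ℂ] B, ((w : K') ^ 3 * i J₀) ⊗ₜ (T ^ 2) =
      dL δ₁ r₀ + ((algebraMap ℂ K' s * (((w⁻¹ : K'ˣ) : K') ^ (d + e) *
        δ₁ ((w : K') ^ (d + e)))) ⊗ₜ[ℂ] (1 : B)) * r₀ +
      (dR δ' r₁ + ((1 : K') ⊗ₜ[ℂ] (algebraMap ℂ B s *
        ((T ^ d * (1 + T ^ e))⁻¹ * δ' (T ^ d * (1 + T ^ e))))) * r₁) := by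
  classical
  obtain ⟨γ, hγ⟩ := IsAlgClosed.exists_pow_nat_eq (eval q (homogeneousComponent (d + e) f)) he
  have hγ0 : γ ≠ 0 := by
    rintro rfl
    rw [zero_pow he.ne'] at hγ
    exact hqe hγ.symm
  obtain ⟨Q, hQ⟩ : ∃ Q : B, Q = algebraMap ℂ B γ⁻¹ * T := ⟨_, rfl⟩
  have hQ0 : Q ≠ 0 := by
    rw [hQ]
    exact mul_ne_zero (by
      rw [Ne, map_eq_zero_iff _ (algebraMap ℂ B).injective]; exact inv_ne_zero hγ0) hT
  obtain ⟨a, ha⟩ : ∃ a : K' ⊗[ℂ] B, a = (w : K') ⊗ₜ[ℂ] Q := ⟨_, rfl⟩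
  obtain ⟨u, hu⟩ : ∃ u : MvPowerSeries Unit (K' ⊗[ℂ] B), u = ucE (w : K') Q N := ⟨_, rfl⟩
  set X' : MvPowerSeries Unit (K' ⊗[ℂ] B) := MvPowerSeries.X () with hX'
  obtain ⟨Θ', hΘ'⟩ : ∃ Θ' : Fin 2 → PowerSeries K', Θ' = fun j => eE i he.ne' (Θ j) := ⟨_, rfl⟩
  have hu0 : MvPowerSeries.constantCoeff u = 0 := by
    rw [hu]
    unfold ucE
    rw [map_mul, map_pow, MvPowerSeries.constantCoeff_X, zero_pow hN.ne', mul_zero]
  have hX0 : ∀ l, MvPowerSeries.constantCoeff (u * xc B q j₀ Θ' l) = 0 := fun l => by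
    rw [map_mul, hu0, zero_mul]
  have hsub : MvPowerSeries.HasSubst (fun l => u * xc B q j₀ Θ' l) :=
    MvPowerSeries.hasSubst_of_constantCoeff_zero hX0
  set θ : MvPowerSeries (Fin 3) ℂ →ₐ[ℂ] MvPowerSeries Unit (K' ⊗[ℂ] B) :=
    MvPowerSeries.substAlgHom hsub with hθ
  have hθX : ∀ l, θ (MvPowerSeries.X l) = u * xc B q j₀ Θ' l := fun l => by
    rw [hθ, MvPowerSeries.substAlgHom_X]
  have hθf : θ (f : MvPowerSeries (Fin 3) ℂ) = aeval (fun l => u * xc B q j₀ Θ' l) f := by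
    rw [hθ, MvPowerSeries.coe_substAlgHom, MvPowerSeries.subst_coe]
  obtain ⟨V, hV1, hV2⟩ := aeval_chart_e (B := B) (T := T) he hlow hmid hq hN hγ.symm hγ0 i h0 hw hF
  rw [← hQ, ← hu, ← hΘ', ← hθf] at hV1
  rw [← hQ] at hV2
  -- the unit
  set P : B := Q ^ d * (1 + T ^ e) with hP
  have hP0 : P ≠ 0 := mul_ne_zero (pow_ne_zero _ hQ0) hT1
  have hww : ((w : K')) ^ (d + e) * ((w⁻¹ : K'ˣ) : K') ^ (d + e) = 1 := by
    rw [← mul_pow, Units.mul_inv, one_pow]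
  let φ : (K' ⊗[ℂ] B)ˣ := ⟨((w : K') ^ (d + e)) ⊗ₜ[ℂ] P,
    (((w⁻¹ : K'ˣ) : K') ^ (d + e)) ⊗ₜ[ℂ] P⁻¹, by
    rw [Algebra.TensorProduct.tmul_mul_tmul, hww, mul_inv_cancel₀ hP0]; rfl, by
    rw [Algebra.TensorProduct.tmul_mul_tmul, mul_comm (((w⁻¹ : K'ˣ) : K') ^ (d + e)), hww,
      inv_mul_cancel₀ hP0]; rfl⟩
  have hφ1 : (φ : K' ⊗[ℂ] B) = ((w : K') ^ (d + e)) ⊗ₜ[ℂ] P := rfl
  have hφ2 : ((φ⁻¹ : (K' ⊗[ℂ] B)ˣ) : K' ⊗[ℂ] B) =
    (((w⁻¹ : K'ˣ) : K') ^ (d + e)) ⊗ₜ[ℂ] P⁻¹ := rfl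
  have hφ : MvPowerSeries.constantCoeff V = φ := hV2
  -- the derivations
  let D : Fin 2 → Derivation ℂ (K' ⊗[ℂ] B) (K' ⊗[ℂ] B) := ![dL δ₁, dR δ']
  have hD : ∀ b b' x, D b (D b' x) = D b' (D b x) := by
    intro b b' x
    fin_cases b <;> fin_cases b'
    · rfl
    · exact dL_dR δ₁ δ' x
    · exact (dL_dR δ₁ δ' x).symm
    · rfl
  let e' : Fin 3 → Unit ⊕ Fin 2 := ![Sum.inr 1, Sum.inl (), Sum.inr 0]
  -- the Jacobian
  have hdet : (ARL.jm (fun l => ARL.rowD D (e' l)) fun l => θ (MvPowerSeries.X l)).det =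
      MvPowerSeries.monomial (Finsupp.single () (3 * N + e * ν)) 1 * ((-1) ^ (j₀ : ℕ) *
        (MvPowerSeries.C ((w : K') ⊗ₜ[ℂ] δ' Q) * MvPowerSeries.C a ^ 2 *
          ((e : MvPowerSeries Unit (K' ⊗[ℂ] B)) * (MvPowerSeries.C (i J₀ ⊗ₜ[ℂ] (1 : B)) +
            X' ^ e * iS B (eE i he.ne' J₁))))) := by
    have h1 : (fun l => θ (MvPowerSeries.X l)) = fun l => u * j₀.insertNth
        (α := fun _ => MvPowerSeries Unit (K' ⊗[ℂ] B)) 1
          (fun l => iS B (eE i he.ne' (Θ l)) + algebraMap ℂ _ (q (j₀.succAbove l))) l := by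
      rw [funext hθX, hΘ']
      rfl
    rw [h1, det_chart (ARL.cw (dR δ')) (ARL.lg ()) (ARL.cw (dL δ₁)) u j₀ _ (fun l => by
      rw [map_add, cw_dR_iS, Derivation.map_algebraMap, add_zero]) rfl rfl rfl,
      jac_iS_eE i he.ne' hδ (fun l => q (j₀.succAbove l)), hJ, hu, cw_dR_ucE, map_mul, map_mul,
      map_pow, map_pow, map_add, map_add, map_mul, map_mul, eE_X, eE_C, map_pow, iS_X, iS_C,
      ← MvPowerSeries.X_pow_eq, ← hX']
    unfold ucE
    rw [← ha, ← hX']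
    obtain ⟨m, rfl⟩ : ∃ m, ν = m + 1 := ⟨ν - 1, by omega⟩
    rw [Nat.add_sub_cancel]
    ring
  have hNC : (N : ℂ) ≠ 0 := by exact_mod_cast hN.ne'
  have hdC : ((d : ℂ) + e) ≠ 0 := by exact_mod_cast (by omega : d + e ≠ 0)
  have heC : (e : ℂ) ≠ 0 := by exact_mod_cast he.ne'
  have hs1 : s = -(((3 * N + e * ν : ℕ) : ℂ) / ((N * (d + e) : ℕ) : ℂ)) := by
    push_cast
    field_simp
    field_simp at hs
    linear_combination hs
  obtain ⟨r, hr⟩ := ARL.residue_corner (τ := Unit) (β := Fin 2) e' hD (θ := θ)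
    (fun l => by rw [hθX]; exact hX0 l) hV1 hφ (ν := 3 * N + e * ν) (D := N * (d + e))
    (Nat.mul_pos hN (by omega)) hs1 (Mon := ∅) (M := fun _ => 0) (by simp)
    (l := fun _ => 0) hdet (fun j => by
      rw [Finsupp.single_apply, Finsupp.single_apply, if_pos (Subsingleton.elim _ _),
        if_pos (Subsingleton.elim _ _), Finset.sum_empty, add_zero, hs1]
      push_cast
      field_simp
      ring) (j₀ := ()) (by
      rw [Finsupp.single_eq_same]; exact Nat.mul_pos hN (by omega)) (by simp) hb hb0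
  -- the constant coefficient
  have hδQ : δ' Q = algebraMap ℂ B γ⁻¹ := by
    rw [hQ, Derivation.leibniz, Derivation.map_algebraMap, smul_zero, add_zero, hδT, smul_eq_mul,
      mul_one]
  have hcB : algebraMap ℂ B γ⁻¹ * algebraMap ℂ B γ = 1 := by
    rw [← map_mul, inv_mul_cancel₀ hγ0, map_one]
  obtain ⟨κ, hκ⟩ : ∃ κ : K' ⊗[ℂ] B, κ = (-1) ^ (j₀ : ℕ) *
      (algebraMap ℂ (K' ⊗[ℂ] B) (γ ^ 3) * algebraMap ℂ (K' ⊗[ℂ] B) ((e : ℂ)⁻¹)) :=
    ⟨_, rfl⟩
  have hκc : ∀ x : ℂ, algebraMap ℂ (K' ⊗[ℂ] B) x = (1 : K') ⊗ₜ[ℂ] (algebraMap ℂ B x) := by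
    intro x
    rw [Algebra.TensorProduct.algebraMap_apply, Algebra.algebraMap_eq_smul_one,
      TensorProduct.smul_tmul, Algebra.algebraMap_eq_smul_one]
  have hκc' : ∀ x : ℂ, algebraMap ℂ (K' ⊗[ℂ] B) x = (algebraMap ℂ K' x) ⊗ₜ[ℂ] (1 : B) := by
    intro x
    rw [Algebra.TensorProduct.algebraMap_apply]
  have hee : algebraMap ℂ (K' ⊗[ℂ] B) ((e : ℂ)⁻¹) * (e : K' ⊗[ℂ] B) = 1 := by
    rw [← map_natCast (algebraMap ℂ (K' ⊗[ℂ] B)) e, ← map_mul, inv_mul_cancel₀ heC, map_one]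
  have hleft : κ * MvPowerSeries.constantCoeff ((-1) ^ (j₀ : ℕ) *
        (MvPowerSeries.C ((w : K') ⊗ₜ[ℂ] δ' Q) * MvPowerSeries.C a ^ 2 *
          ((e : MvPowerSeries Unit (K' ⊗[ℂ] B)) * (MvPowerSeries.C (i J₀ ⊗ₜ[ℂ] (1 : B)) +
            X' ^ e * iS B (eE i he.ne' J₁))))) =
      ((w : K') ^ 3 * i J₀) ⊗ₜ[ℂ] (T ^ 2) := by
    rw [map_mul, map_mul, map_mul, map_mul, map_add, map_mul, map_pow, map_pow, map_pow, map_neg,
      map_one, map_natCast,
      MvPowerSeries.constantCoeff_C, MvPowerSeries.constantCoeff_C, MvPowerSeries.constantCoeff_C,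
      hX', MvPowerSeries.constantCoeff_X, zero_pow he.ne', zero_mul, add_zero, hκ, hκc (γ ^ 3),
      hδQ, ha, Algebra.TensorProduct.tmul_pow, Algebra.TensorProduct.tmul_mul_tmul]
    have h1 : (-1 : K' ⊗[ℂ] B) ^ (j₀ : ℕ) * (-1) ^ (j₀ : ℕ) = 1 := by
      rw [← mul_pow, neg_mul_neg, one_mul, one_pow]
    have h2 : algebraMap ℂ B (γ ^ 3) * (algebraMap ℂ B γ⁻¹ * Q ^ 2 * 1) = T ^ 2 := by
      rw [map_pow, hQ]
      linear_combination (T ^ 2 * ((algebraMap ℂ B γ⁻¹ * algebraMap ℂ B γ) ^ 2 +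
        algebraMap ℂ B γ⁻¹ * algebraMap ℂ B γ + 1)) * hcB
    calc (-1 : K' ⊗[ℂ] B) ^ (j₀ : ℕ) * ((1 : K') ⊗ₜ[ℂ] (algebraMap ℂ B (γ ^ 3)) *
            algebraMap ℂ (K' ⊗[ℂ] B) ((e : ℂ)⁻¹)) *
          ((-1) ^ (j₀ : ℕ) * (((w : K') * (w : K') ^ 2) ⊗ₜ[ℂ] (algebraMap ℂ B γ⁻¹ * Q ^ 2) *
            ((e : K' ⊗[ℂ] B) * i J₀ ⊗ₜ[ℂ] (1 : B))))
        = ((-1 : K' ⊗[ℂ] B) ^ (j₀ : ℕ) * (-1) ^ (j₀ : ℕ)) *
          (algebraMap ℂ (K' ⊗[ℂ] B) ((e : ℂ)⁻¹) * (e : K' ⊗[ℂ] B)) *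
          ((1 : K') ⊗ₜ[ℂ] (algebraMap ℂ B (γ ^ 3)) *
            (((w : K') * (w : K') ^ 2) ⊗ₜ[ℂ] (algebraMap ℂ B γ⁻¹ * Q ^ 2) *
              i J₀ ⊗ₜ[ℂ] (1 : B))) := by ring
      _ = _ := by
        rw [h1, hee, one_mul, one_mul, Algebra.TensorProduct.tmul_mul_tmul,
          Algebra.TensorProduct.tmul_mul_tmul, one_mul, h2]
        congr 1
        ring
  have hDκ : ∀ b, D b κ = 0 := by
    intro b
    rw [hκ, Derivation.leibniz, Derivation.leibniz, Derivation.map_algebraMap,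
      Derivation.map_algebraMap, smul_zero, smul_zero, add_zero, smul_zero, zero_add,
      Derivation.leibniz_pow, map_neg, Derivation.map_one_eq_zero, neg_zero, smul_zero, smul_zero,
      smul_zero]
  rw [Fin.sum_univ_two] at hr
  refine ⟨κ * r 0, κ * r 1, ?_⟩
  rw [← hleft, hr]
  have e0 : D 0 = dL δ₁ := rfl
  have e1 : D 1 = dR δ' := rfl
  have g0 : dL δ₁ (κ * r 0) = κ * dL δ₁ (r 0) := by
    rw [Derivation.leibniz, ← e0, hDκ, smul_zero, add_zero, smul_eq_mul]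
  have g1 : dR δ' (κ * r 1) = κ * dR δ' (r 1) := by
    rw [Derivation.leibniz, ← e1, hDκ, smul_zero, add_zero, smul_eq_mul]
  have k0 : algebraMap ℂ (K' ⊗[ℂ] B) s * (((φ⁻¹ : (K' ⊗[ℂ] B)ˣ) : K' ⊗[ℂ] B) * dL δ₁ φ) =
      ((algebraMap ℂ K' s * (((w⁻¹ : K'ˣ) : K') ^ (d + e) *
        δ₁ ((w : K') ^ (d + e)))) ⊗ₜ[ℂ] (1 : B)) := by
    rw [hφ1, hφ2, dL_tmul, Algebra.TensorProduct.tmul_mul_tmul, inv_mul_cancel₀ hP0, hκc',
      Algebra.TensorProduct.tmul_mul_tmul, one_mul]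
  have hPT : P⁻¹ * δ' P = (T ^ d * (1 + T ^ e))⁻¹ * δ' (T ^ d * (1 + T ^ e)) := by
    have h1 : P = algebraMap ℂ B (γ⁻¹ ^ d) * (T ^ d * (1 + T ^ e)) := by
      rw [hP, hQ, mul_pow, map_pow]; ring
    have h2 : algebraMap ℂ B (γ⁻¹ ^ d) ≠ 0 := by
      rw [Ne, map_eq_zero_iff _ (algebraMap ℂ B).injective]
      exact pow_ne_zero _ (inv_ne_zero hγ0)
    have h3 : δ' P = algebraMap ℂ B (γ⁻¹ ^ d) * δ' (T ^ d * (1 + T ^ e)) := by
      rw [h1, Derivation.leibniz, Derivation.map_algebraMap, smul_zero, add_zero, smul_eq_mul]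
    rw [h3, h1, mul_inv, mul_mul_mul_comm, inv_mul_cancel₀ h2, one_mul]
  have k1 : algebraMap ℂ (K' ⊗[ℂ] B) s * (((φ⁻¹ : (K' ⊗[ℂ] B)ˣ) : K' ⊗[ℂ] B) * dR δ' φ) =
      (1 : K') ⊗ₜ[ℂ] (algebraMap ℂ B s *
        ((T ^ d * (1 + T ^ e))⁻¹ * δ' (T ^ d * (1 + T ^ e)))) := by
    rw [hφ1, hφ2, dR_tmul, Algebra.TensorProduct.tmul_mul_tmul,
      mul_comm (((w⁻¹ : K'ˣ) : K') ^ (d + e)), hww, hκc,
      Algebra.TensorProduct.tmul_mul_tmul, one_mul, hPT]
  rw [e0, e1, g0, g1, k0, k1]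
  ring

end YL

end MPb07157
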