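import Pool.Agent.Lib.MP_b07157_agO.RB
import Pool.Agent.Lib.MP_b07157_agV.R5

/-!
# The form `T^{2 + ds} (1 + T^e)^s dT` is not exact
-/

noncomputable section

namespace MPb07157

namespace YL

namespace Bt

open Polynomial

/-- The coefficients of the reduced equation. -/
theorem coeff_eq {d e : ℕ} {s : ℂ} {P : ℂ[X]}
    (hE : X * (1 + X ^ e) * derivative P + (C (e : ℂ) * X ^ e +
      C s * (C (d : ℂ) + C ((d : ℂ) + e) * X ^ e)) * P = X ^ 3) (k : ℕ) :
    ((k : ℂ) + s * d) * P.coeff k +
      (if e ≤ k then ((k : ℂ) + s * (d + e)) * P.coeff (k - e) else 0) = if k = 3 then 1 else 0 := by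
  have h1 : (X : ℂ[X]) * derivative P + X ^ e * (X * derivative P) + C (s * d) * P +
      X ^ e * (C (e + s * (d + e)) * P) = X ^ 3 := by
    rw [← hE]
    simp only [map_mul, map_add]
    ring
  have hX : ∀ j : ℕ, ((X : ℂ[X]) * derivative P).coeff j = (j : ℂ) * P.coeff j := by
    intro j
    rcases j with _ | j
    · rw [coeff_X_mul_zero, Nat.cast_zero, zero_mul]
    · rw [coeff_X_mul, coeff_derivative, Nat.cast_add, Nat.cast_one, mul_comm]
  have h2 := congrArg (fun p => coeff p k) h1
  simp only [coeff_add, coeff_X_pow_mul', coeff_C_mul, hX, coeff_X_pow] at h2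
  rw [← h2]
  by_cases hk : e ≤ k
  · simp only [if_pos hk]
    rw [Nat.cast_sub hk]
    ring
  · simp only [if_neg hk]
    ring

/-- There is no polynomial solution. -/
theorem no_poly {d e : ℕ} (hd : 2 ≤ d) (he : 0 < e) {s : ℚ} (hs : s ≠ -1)
    (h1 : -(e : ℚ) < ((d : ℚ) + e) * s + 3) (h2 : ((d : ℚ) + e) * s + 3 < 0) {P : ℂ[X]}
    (hE : X * (1 + X ^ e) * derivative P + (C (e : ℂ) * X ^ e +
      C (s : ℂ) * (C (d : ℂ) + C ((d : ℂ) + e) * X ^ e)) * P = X ^ 3) : False := by
  have hP0 : P ≠ 0 := by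
    rintro rfl
    rw [derivative_zero, mul_zero, mul_zero, add_zero] at hE
    exact pow_ne_zero 3 X_ne_zero hE.symm
  set D := P.natDegree with hD
  set m := P.natTrailingDegree with hm
  have hmD : m ≤ D := natTrailingDegree_le_natDegree P
  have hpD : P.coeff D ≠ 0 := by
    rw [hD, coeff_natDegree]
    exact leadingCoeff_ne_zero.2 hP0
  have hpm : P.coeff m ≠ 0 := by
    rw [hm, ← trailingCoeff]
    exact trailingCoeff_nonzero_iff_nonzero.2 hP0
  have hdQ : (2 : ℚ) ≤ d := by exact_mod_cast hd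
  have heQ : (0 : ℚ) < e := by exact_mod_cast he
  -- the degree
  have e1 := coeff_eq hE (D + e)
  rw [coeff_eq_zero_of_natDegree_lt (show P.natDegree < D + e by omega), mul_zero, zero_add,
    if_pos (by omega), Nat.add_sub_cancel] at e1
  have c1 : D + e = 3 ∨ (D : ℚ) + e = -(s * (d + e)) := by
    by_cases h : D + e = 3
    · exact Or.inl h
    · right
      rw [if_neg h] at e1
      have h3 := (mul_eq_zero.1 e1).resolve_right hpD
      have h4 : ((((D : ℚ) + e) + s * (d + e) : ℚ) : ℂ) = 0 := by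
        push_cast at h3 ⊢
        exact h3
      have h5 : ((D : ℚ) + e) + s * (d + e) = 0 := by exact_mod_cast h4
      linarith
  have hD3 : D < 3 := by
    rcases c1 with h | h
    · omega
    · have h3 : (D : ℚ) < 3 := by nlinarith
      exact_mod_cast h3
  -- the order
  have e2 := coeff_eq hE m
  have hz : (if e ≤ m then ((m : ℂ) + (s : ℂ) * (d + e)) * P.coeff (m - e) else 0) = 0 := by
    split_ifs with h
    · rw [coeff_eq_zero_of_lt_natTrailingDegree (show m - e < P.natTrailingDegree by omega),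
        mul_zero]
    · rfl
  rw [hz, add_zero, if_neg (by omega)] at e2
  have c2 : (m : ℚ) = -(s * d) := by
    have h3 := (mul_eq_zero.1 e2).resolve_right hpm
    have h4 : (((m : ℚ) + s * d : ℚ) : ℂ) = 0 := by
      push_cast
      exact h3
    have h5 : (m : ℚ) + s * d = 0 := by exact_mod_cast h4
    linarith
  have hm2 : (m : ℚ) ≤ 2 := by exact_mod_cast (show m ≤ 2 by omega)
  have hmDQ : (m : ℚ) ≤ D := by exact_mod_cast hmD
  have hs' : s = -(m / d) := by
    have : (d : ℚ) ≠ 0 := by positivity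
    field_simp
    linarith
  have hd0 : (0 : ℚ) < d := by positivity
  rcases c1 with h | h
  · -- `D + e = 3`
    have h3 : (D : ℚ) + e = 3 := by exact_mod_cast h
    -- `m (d + e) > 3 d`
    have h4 : (3 : ℚ) * d < m * (d + e) := by
      have h5 : (((d : ℚ) + e) * s + 3) * d < 0 := mul_neg_of_neg_of_pos h2 hd0
      have h6 : (((d : ℚ) + e) * s + 3) * d = -(m * (d + e)) + 3 * d := by
        rw [c2]
        ring
      linarith
    have h5 : (e : ℚ) ≤ 3 - m := by linarith
    have h6 : (0 : ℚ) ≤ m := by positivity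
    nlinarith
  · -- `D + e = m + m e / d`
    have h3 : ((D : ℚ) + e) * d = m * (d + e) := by
      rw [h, c2]
      ring
    have h4 : (e : ℚ) * d ≤ m * e := by nlinarith
    have h5 : (d : ℚ) ≤ m := by nlinarith
    have h6 : (d : ℚ) = 2 := by linarith
    have h7 : (m : ℚ) = 2 := by linarith
    apply hs
    rw [hs', h6, h7]
    norm_num

end Bt

open MvPolynomial

/-- The form `T^{2 + ds} (1 + T^e)^s dT` is not exact, for `-1 < (3 + (d + e) s) / e < 0`.

Proof. Let `r` be a solution. At a root `a` of `1 + T^e`, `ord_a r = m` gives the term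
`(m + s) (T - a)^{m-1}`, so `m = 1` (`s < 0`, `T^2` does not vanish at `a`, `s ≠ -1`). At `0`:
`m = 3`, or `m = -ds ∈ {1, 2}`. No other poles. So `r` is a polynomial divisible by
`T^m (1 + T^e)`, of degree `D ≥ m + e`. At infinity: `D = 3` or `D = -(d+e)s < 3 + e`. If `m = 3`:
contradiction. If `m = -ds ≤ 2`: `D = 3` gives `m + e ≤ 3`, impossible by `h2`; `D = m + em/d`
gives `m ≥ d`, so `m = d = 2`, `s = -1`. (`QO.RB.poly_of_exact` may help.) -/
theorem not_exact_beta {δ : Derivation ℂ (RatFunc ℂ) (RatFunc ℂ)}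
    (hδ : ∀ P : Polynomial ℂ, δ (algebraMap (Polynomial ℂ) (RatFunc ℂ) P) =
      algebraMap (Polynomial ℂ) (RatFunc ℂ) (Polynomial.derivative P))
    {d e : ℕ} (hd : 2 ≤ d) (he : 0 < e) {s : ℚ} (hs : s ≠ -1)
    (h1 : -1 < (((d : ℚ) + e) * s + 3) / e) (h2 : (((d : ℚ) + e) * s + 3) / e < 0) :
    ¬ ∃ r : RatFunc ℂ, (RatFunc.X : RatFunc ℂ) ^ 2 = δ r + algebraMap ℂ (RatFunc ℂ) (s : ℂ) *
      (((RatFunc.X : RatFunc ℂ) ^ d * (1 + RatFunc.X ^ e))⁻¹ *
        δ ((RatFunc.X : RatFunc ℂ) ^ d * (1 + RatFunc.X ^ e))) * r := by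
  classical
  rintro ⟨r, hr⟩
  have heQ : (0 : ℚ) < e := by exact_mod_cast he
  have hdQ : (2 : ℚ) ≤ d := by exact_mod_cast hd
  have h1' : -(e : ℚ) < ((d : ℚ) + e) * s + 3 := by
    rw [lt_div_iff₀ heQ] at h1
    linarith
  have h2' : ((d : ℚ) + e) * s + 3 < 0 := by
    rw [div_lt_iff₀ heQ, zero_mul] at h2
    exact h2
  have hsneg : s < 0 := by
    by_contra hcon
    push Not at hcon
    have : (0 : ℚ) ≤ ((d : ℚ) + e) * s := by positivity
    linarith
  set φ := algebraMap (Polynomial ℂ) (RatFunc ℂ) with hφ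
  have hinj : Function.Injective φ := RatFunc.algebraMap_injective ℂ
  have hne : ∀ {p : Polynomial ℂ}, p ≠ 0 → φ p ≠ 0 := fun hp h =>
    hp ((map_eq_zero_iff _ hinj).1 h)
  set g : Polynomial ℂ := Polynomial.X ^ d * (1 + Polynomial.X ^ e) with hg
  set L : Polynomial ℂ := Polynomial.C (d : ℂ) * (1 + Polynomial.X ^ e) +
    Polynomial.C (e : ℂ) * Polynomial.X ^ e with hL
  set G : Polynomial ℂ := Polynomial.X * (1 + Polynomial.X ^ e) with hG
  have hM0 : (1 + Polynomial.X ^ e : Polynomial ℂ) ≠ 0 := by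
    intro h
    have h3 := congrArg (Polynomial.eval 0) h
    rw [Polynomial.eval_add, Polynomial.eval_one, Polynomial.eval_pow, Polynomial.eval_X,
      zero_pow he.ne', add_zero, Polynomial.eval_zero] at h3
    exact one_ne_zero h3
  have hG0 : G ≠ 0 := mul_ne_zero Polynomial.X_ne_zero hM0
  have hg0 : g ≠ 0 := mul_ne_zero (pow_ne_zero _ Polynomial.X_ne_zero) hM0
  have hgφ : (RatFunc.X : RatFunc ℂ) ^ d * (1 + RatFunc.X ^ e) = φ g := by
    rw [hg, map_mul, map_pow, map_add, map_one, map_pow, hφ, RatFunc.algebraMap_X]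
  have hXd : Polynomial.X * Polynomial.derivative (Polynomial.X ^ d : Polynomial ℂ) =
      Polynomial.C (d : ℂ) * Polynomial.X ^ d := by
    obtain ⟨k, rfl⟩ := Nat.exists_eq_succ_of_ne_zero (show d ≠ 0 by omega)
    rw [Polynomial.derivative_X_pow, Nat.succ_eq_add_one, Nat.add_sub_cancel]
    ring
  have hXe : Polynomial.X * Polynomial.derivative (Polynomial.X ^ e : Polynomial ℂ) =
      Polynomial.C (e : ℂ) * Polynomial.X ^ e := by
    obtain ⟨k, rfl⟩ := Nat.exists_eq_succ_of_ne_zero he.ne'
    rw [Polynomial.derivative_X_pow, Nat.succ_eq_add_one, Nat.add_sub_cancel]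
    ring
  have hgd : G * Polynomial.derivative g = L * g := by
    rw [hg, hG, hL, Polynomial.derivative_mul, Polynomial.derivative_add,
      Polynomial.derivative_one, zero_add]
    linear_combination (1 + Polynomial.X ^ e) * (1 + Polynomial.X ^ e) * hXd +
      (1 + Polynomial.X ^ e) * Polynomial.X ^ d * hXe
  have hfd : φ G * ((φ g)⁻¹ * δ (φ g)) = φ L := by
    have h3 : φ G * φ (Polynomial.derivative g) = φ L * φ g := by
      rw [← map_mul, hgd, map_mul]
    rw [hδ, mul_left_comm, h3, mul_left_comm, inv_mul_cancel₀ (hne hg0), mul_one]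
  have hsφ : algebraMap ℂ (RatFunc ℂ) (s : ℂ) = φ (Polynomial.C (s : ℂ)) := rfl
  rw [hgφ] at hr
  have hX2 : (RatFunc.X : RatFunc ℂ) ^ 2 = φ (Polynomial.X ^ 2) := by
    rw [map_pow, hφ, RatFunc.algebraMap_X]
  rw [hX2] at hr
  have hred : φ (Polynomial.X ^ 2) * φ G = φ G * δ r + φ (Polynomial.C (s : ℂ) * L) * r := by
    rw [map_mul φ (Polynomial.C (s : ℂ)), ← hsφ]
    linear_combination (φ G) * hr + algebraMap ℂ (RatFunc ℂ) (s : ℂ) * r * hfd
  set P := r.num with hP
  set Q := r.denom with hQ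
  have hQ0 : Q ≠ 0 := r.denom_ne_zero
  have hPQ : φ P = r * φ Q := by
    rw [hP, hQ, hφ]
    exact ((div_eq_iff (hne r.denom_ne_zero)).1 r.num_div_denom)
  have hdr : δ r * φ Q ^ 2 = φ (Polynomial.derivative P * Q - P * Polynomial.derivative Q) := by
    have h5 := congrArg δ hPQ
    rw [Derivation.leibniz, hδ, hδ, smul_eq_mul, smul_eq_mul] at h5
    rw [map_sub, map_mul, map_mul, h5, hPQ]
    ring
  have hE : G * (Polynomial.derivative P * Q - P * Polynomial.derivative Q) +
      (Polynomial.C (s : ℂ) * L) * P * Q = (Polynomial.X ^ 2 * G) * Q ^ 2 := by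
    apply hinj
    rw [map_add, map_mul φ G, ← hdr, map_mul φ (Polynomial.X ^ 2 * G) (Q ^ 2), map_pow,
      map_mul φ _ G, hred, map_mul φ _ Q, map_mul φ _ P, hPQ]
    ring
  have hQd : Q.natDegree = 0 := by
    refine PC.natDegree_den _ _ P Q _ r.isCoprime_num_denom hQ0 hE ?_
    intro a ha k hk hak
    have hkQ : (0 : ℚ) < k := by exact_mod_cast hk
    have hder : Polynomial.eval a (Polynomial.derivative G) =
        (1 + a ^ e) + a * Polynomial.eval a (Polynomial.derivative (Polynomial.X ^ e)) := by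
      rw [hG, Polynomial.derivative_mul, Polynomial.derivative_X, Polynomial.derivative_add,
        Polynomial.derivative_one, zero_add]
      simp
    have hder2 := congrArg (Polynomial.eval a) hXe
    rw [Polynomial.eval_mul, Polynomial.eval_X, Polynomial.eval_mul, Polynomial.eval_C,
      Polynomial.eval_pow, Polynomial.eval_X] at hder2
    rw [hder, hder2] at hak
    rw [hG, Polynomial.eval_mul, Polynomial.eval_X, Polynomial.eval_add, Polynomial.eval_one,
      Polynomial.eval_pow, Polynomial.eval_X] at ha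
    rw [hL, Polynomial.eval_mul, Polynomial.eval_C, Polynomial.eval_add, Polynomial.eval_mul,
      Polynomial.eval_mul, Polynomial.eval_C, Polynomial.eval_C, Polynomial.eval_add,
      Polynomial.eval_one, Polynomial.eval_pow, Polynomial.eval_X] at hak
    rcases mul_eq_zero.1 ha with h | h
    · rw [h, zero_pow he.ne'] at hak
      have h5 : (s : ℂ) * d = k := by linear_combination hak
      have h6 : s * (d : ℚ) = k := by exact_mod_cast h5
      nlinarith
    · have h7 : a ^ e = -1 := by linear_combination h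
      rw [h7] at hak
      have h5 : (s : ℂ) * e = (k : ℂ) * e := by linear_combination -hak
      have h6 : s * (e : ℚ) = k * e := by exact_mod_cast h5
      have h8 : s = k := mul_right_cancel₀ heQ.ne' h6
      linarith
  have hQ1 : Q = 1 := Polynomial.eq_one_of_monic_natDegree_zero (RatFunc.monic_denom r) hQd
  rw [hQ1, Polynomial.derivative_one, mul_zero, sub_zero, mul_one, mul_one, one_pow, mul_one] at hE
  -- divisibility by `1 + X^e`
  have hdvd : (1 + Polynomial.X ^ e : Polynomial ℂ) ∣ P := by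
    have h3 : (1 + Polynomial.X ^ e : Polynomial ℂ) ∣ Polynomial.C ((s : ℂ) * e) * P := by
      have h4 : Polynomial.C ((s : ℂ) * e) * P = (1 + Polynomial.X ^ e) *
          (Polynomial.X * Polynomial.derivative P + Polynomial.C (s : ℂ) *
            (Polynomial.C (d : ℂ) + Polynomial.C (e : ℂ)) * P -
              Polynomial.X ^ 3) := by
        rw [map_mul]
        rw [hG, hL] at hE
        linear_combination -hE
      rw [h4]
      exact dvd_mul_right _ _
    have hse : (s : ℂ) * e ≠ 0 := by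
      refine mul_ne_zero (by exact_mod_cast hsneg.ne) (by exact_mod_cast he.ne')
    have h5 : Polynomial.C (((s : ℂ) * e)⁻¹) * (Polynomial.C ((s : ℂ) * e) * P) = P := by
      rw [← mul_assoc, ← map_mul, inv_mul_cancel₀ hse, map_one, one_mul]
    rw [← h5]
    exact h3.mul_left _
  obtain ⟨P1, hP1⟩ := hdvd
  refine Bt.no_poly hd he hs h1' h2' (P := P1) ?_
  apply mul_left_cancel₀ hM0
  rw [hP1, Polynomial.derivative_mul, Polynomial.derivative_add, Polynomial.derivative_one,
    zero_add, hG, hL] at hE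
  rw [map_add]
  linear_combination hE - (1 + Polynomial.X ^ e) * P1 * hXe

end YL

end MPb07157
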