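import Pool.Agent.Lib.MP_b07157_agI.Sum
import Pool.Agent.Lib.MP_b07157_agI.NodeP
import Pool.Agent.Lib.MP_b07157_agU.Defs

/-!
# Lê–Yomdin surface germs and germs with nodal tangent cones: definitions
-/

noncomputable section

namespace MPb07157

open MvPolynomial

namespace YL

open SI

/-- The point `q` is a node of the curve `F = 0`: the Hessian matrix has rank two. -/
def NodeAt (F : MvPolynomial (Fin 3) ℂ) (q : Fin 3 → ℂ) : Prop :=
  (Matrix.of fun i j => eval q (pderiv i (pderiv j F)) : Matrix (Fin 3) (Fin 3) ℂ).rank = 2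

/-- `f = f_d + f_{d+e} + f_{d+e+1} + ⋯`, `f_d` is squarefree, and at each singular point of the
curve `f_d = 0` which is not a node `f_{d+e}` does not vanish. -/
structure IsTC (f : MvPolynomial (Fin 3) ℂ) (d e : ℕ) : Prop where
  low : ∀ j < d, homogeneousComponent j f = 0
  mid : ∀ j, 0 < j → j < e → homogeneousComponent (d + j) f = 0
  sqf : Squarefree (homogeneousComponent d f)
  sing : ∀ q : Fin 3 → ℂ, q ≠ 0 → (∀ j, eval q (pderiv j (homogeneousComponent d f)) = 0) →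
    eval q (homogeneousComponent (d + e) f) ≠ 0 ∨ NodeAt (homogeneousComponent d f) q

/-- The determinant of the Hessian matrix at the origin. -/
def hess2 (g : PC.P2) : ℂ :=
  MvPowerSeries.constantCoeff (MvPowerSeries.pderiv ℂ 0 (MvPowerSeries.pderiv ℂ 0 g)) *
    MvPowerSeries.constantCoeff (MvPowerSeries.pderiv ℂ 1 (MvPowerSeries.pderiv ℂ 1 g)) -
  MvPowerSeries.constantCoeff (MvPowerSeries.pderiv ℂ 0 (MvPowerSeries.pderiv ℂ 1 g)) ^ 2

/-- The chart `x_{j₀} = u`, `x_i = u (q_i + x_l)` of the blow-up of the origin, at the point `q`. -/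
def chP (q : Fin 3 → ℂ) (j₀ : Fin 3) : Fin 3 → MvPolynomial (Fin 3) ℂ := fun i =>
  X 0 * j₀.insertNth (α := fun _ => MvPolynomial (Fin 3) ℂ) 1
    (fun l : Fin 2 => X l.succ + C (q (j₀.succAbove l))) i

/-- The strict transform of `f` in the chart. -/
def hg (f : MvPolynomial (Fin 3) ℂ) (d : ℕ) (q : Fin 3 → ℂ) (j₀ : Fin 3) :
    MvPolynomial (Fin 3) ℂ :=
  ∑ j ∈ Finset.range (f.totalDegree + 1),
    X 0 ^ j * rename Fin.succ (gch (homogeneousComponent (d + j) f) q j₀)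

/-- The truncated arcs `(u, x, y)` at the origin with `ord u = k` and `ord h = i`. -/
def AK (h : MvPolynomial (Fin 3) ℂ) (N k i : ℕ) : Set (Fin 3 × Fin (N + 1) → ℂ) :=
  {γ | (∀ j, γ (j, 0) = 0) ∧ (arc γ 0).order = (k : ℕ∞) ∧
    (aeval (arc γ) h : PowerSeries ℂ).order = (i : ℕ∞)}

/-- The measure of `AK`. -/
def AKm (h : MvPolynomial (Fin 3) ℂ) (N k i : ℕ) : Mot :=
  ↑((LU ^ (3 * (N + 1)))⁻¹) * clsM (AK h N k i)

/-- `h` and `G` agree up to a unit and a formal change of coordinates which preserves the plane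
`u = 0`. -/
def UEq (h : MvPowerSeries (Fin 3) ℂ) (G : MvPolynomial (Fin 3) ℂ) : Prop :=
  ∃ (E : MvPowerSeries (Fin 3) ℂ ≃ₐ[ℂ] MvPowerSeries (Fin 3) ℂ)
    (u w : (MvPowerSeries (Fin 3) ℂ)ˣ),
    h = u * E (G : MvPowerSeries (Fin 3) ℂ) ∧
      E (MvPowerSeries.X 0) = MvPowerSeries.X 0 * (w : MvPowerSeries (Fin 3) ℂ)

/-- The coefficients of the zeta function of `x y`. -/
def yN (i : ℕ) : Mot := ((i - 1 : ℕ) : Mot) * ((1 - ell) ^ 2 * ell ^ i)

/-- The series of the line `q`. -/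
def lineSer (f : MvPolynomial (Fin 3) ℂ) (d : ℕ) (q : Fin 3 → ℂ) : PowerSeries Mot :=
  serK 3 d fun k i => Mk f d k (lineW q) (k + i) i

end YL

end MPb07157
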