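import Pool.Agent.Lib.MP_b07157_agYL.Defs

/-!
# The series of a node
-/

noncomputable section

namespace MPb07157

open MvPolynomial

namespace YL

open SI

namespace NodeSerAux

open SumAux

section
variable {R : Type*} [CommRing R]

theorem FS_congr (α : R) (d : ℕ) {B B' : ℕ → PowerSeries R} (h : ∀ k, 1 ≤ k → B k = B' k) :
    FS α d B = FS α d B' := by
  ext m
  rw [FS, FS, PowerSeries.coeff_mk, PowerSeries.coeff_mk]
  refine Finset.sum_congr rfl fun k _ => ?_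
  rw [h (k + 1) (Nat.le_add_left 1 k)]

/-- The series `∑ (i - 1) ℓ^i T^i`, `i ≥ 1`. -/
def Nser (l : R) : PowerSeries R := PowerSeries.mk fun i => ((i - 1 : ℕ) : R) * l ^ i

theorem Nser_eq (l : R) :
    (1 - PowerSeries.C l * PowerSeries.X) * Nser l =
      PowerSeries.C l * PowerSeries.X * Eser l := by
  ext m
  rw [sub_mul, one_mul, mul_assoc, mul_assoc, map_sub, PowerSeries.coeff_C_mul,
    PowerSeries.coeff_C_mul]
  rcases m with - | m
  · simp [Nser]
  · rw [mul_comm PowerSeries.X, mul_comm PowerSeries.X, PowerSeries.coeff_succ_mul_X,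
      PowerSeries.coeff_succ_mul_X, Eser, Nser, PowerSeries.coeff_mk,
      PowerSeries.coeff_mk, PowerSeries.coeff_mk]
    rcases m with - | m
    · simp
    · rw [if_neg (Nat.succ_ne_zero m)]
      have h1 : (m + 1 + 1 - 1 : ℕ) = m + 1 := rfl
      have h2 : (m + 1 - 1 : ℕ) = m := rfl
      rw [h1, h2]
      push_cast
      ring

theorem Nser_eq2 (l : R) :
    (1 - PowerSeries.C l * PowerSeries.X) ^ 2 * Nser l =
      (PowerSeries.C l * PowerSeries.X) ^ 2 := by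
  have h1 := Nser_eq l
  have h2 := Eser_eq l
  linear_combination (1 - PowerSeries.C l * PowerSeries.X) * h1 +
    PowerSeries.C l * PowerSeries.X * h2

/-- The partial sums of `∑ (i - 1) q^i`. -/
theorem partial_sum (q : R) (m : ℕ) :
    (1 - q) ^ 2 * ∑ i ∈ Finset.range (m + 1), ((i - 1 : ℕ) : R) * q ^ i =
      q ^ 2 - (m : R) * q ^ (m + 1) + ((m : R) - 1) * q ^ (m + 2) := by
  induction m with
  | zero => simp
  | succ m ih =>
    rw [Finset.sum_range_succ, mul_add, ih]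
    have h1 : (m + 1 - 1 : ℕ) = m := rfl
    rw [h1]
    push_cast
    ring

theorem Pser_smul (c l : R) (y : ℕ → R) (hy : ∀ i, y i = ((i - 1 : ℕ) : R) * (c * l ^ i))
    (k : ℕ) :
    Pser y k = PowerSeries.C c * ∑ i ∈ Finset.range k,
      ((i - 1 : ℕ) : PowerSeries R) * (PowerSeries.C l * PowerSeries.X) ^ i := by
  rw [Pser, Finset.mul_sum]
  refine Finset.sum_congr rfl fun i _ => ?_
  rw [hy, map_mul, map_mul, map_pow, map_natCast, mul_pow]
  ring

/-- The sum of `(A q^κ)^k`. -/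
theorem FS_geom (α : R) {d : ℕ} (hd : 0 < d) (Q : PowerSeries R) :
    (1 - PowerSeries.C α * PowerSeries.X ^ d * Q) * FS α d (fun k : ℕ => Q ^ k) =
      PowerSeries.C α * PowerSeries.X ^ d * Q := by
  have h := FS_rec α hd (fun k : ℕ => Q ^ k)
  have h1 : (fun k : ℕ => Q ^ (k + 1)) = fun k => Q * Q ^ k := by
    funext k
    rw [pow_succ']
  rw [h1, FS_mul α hd, pow_one] at h
  linear_combination h

/-- The sum of `k (A q^κ)^k`. -/
theorem FS_geom' (α : R) {d : ℕ} (hd : 0 < d) (Q : PowerSeries R) :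
    (1 - PowerSeries.C α * PowerSeries.X ^ d * Q) *
      FS α d (fun k : ℕ => (k : PowerSeries R) * Q ^ k) =
      PowerSeries.C α * PowerSeries.X ^ d * Q * (1 + FS α d (fun k : ℕ => Q ^ k)) := by
  have h := FS_rec α hd (fun k : ℕ => (k : PowerSeries R) * Q ^ k)
  have h1 : (fun k : ℕ => ((k + 1 : ℕ) : PowerSeries R) * Q ^ (k + 1)) =
      fun k : ℕ => Q * ((k : PowerSeries R) * Q ^ k) + Q * Q ^ k := by
    funext k
    push_cast
    ring
  rw [h1, FS_add α hd, FS_mul α hd, FS_mul α hd, pow_one, Nat.cast_one, one_mul] at h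
  linear_combination h

end

theorem sum_yN (m : ℕ) :
    ∑ j ∈ Finset.range (m + 1), yN j =
      ell ^ 2 - (m : Mot) * ell ^ (m + 1) + ((m : Mot) - 1) * ell ^ (m + 2) := by
  rw [← partial_sum, Finset.mul_sum]
  refine Finset.sum_congr rfl fun i _ => ?_
  rw [yN]
  ring

theorem mk_yN : PowerSeries.mk yN = PowerSeries.C ((1 - ell) ^ 2) * Nser ell := by
  ext i
  rw [PowerSeries.coeff_mk, PowerSeries.coeff_C_mul, Nser, PowerSeries.coeff_mk, yN]
  ring

/-- The generating series of `cK 2 m yN`. -/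
theorem mk_node {m : ℕ} (hm : 1 ≤ m) :
    (1 - PowerSeries.C ell * PowerSeries.X) ^ 2 * PowerSeries.mk (cK 2 m yN) =
      (1 - PowerSeries.C ell) ^ 3 * (PowerSeries.C ell * PowerSeries.X) ^ 2 +
      (((1 - PowerSeries.C ell) ^ 3 * (1 - 2 * (PowerSeries.C ell * PowerSeries.X)) +
        (1 - PowerSeries.C ell * PowerSeries.X) ^ 2 * (1 - PowerSeries.C ell) *
          PowerSeries.C ell ^ 2 -
        (1 - PowerSeries.C ell * PowerSeries.X) ^ 2 * (1 - 2 * PowerSeries.C ell) *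
          (1 - PowerSeries.C ell) ^ 2 -
        PowerSeries.C ell * PowerSeries.X * (1 - PowerSeries.C ell * PowerSeries.X) *
          (1 - PowerSeries.C ell) ^ 3) *
        (PowerSeries.C ell * PowerSeries.X) ^ m +
      ((1 - PowerSeries.C ell) ^ 3 * (-1 + PowerSeries.C ell * PowerSeries.X) +
        (1 - PowerSeries.C ell * PowerSeries.X) ^ 2 * (1 - PowerSeries.C ell) *
          (PowerSeries.C ell - PowerSeries.C ell ^ 2) +
        (1 - PowerSeries.C ell * PowerSeries.X) ^ 2 * (1 - 2 * PowerSeries.C ell) *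
          (1 - PowerSeries.C ell) ^ 2 +
        PowerSeries.C ell * PowerSeries.X * (1 - PowerSeries.C ell * PowerSeries.X) *
          (1 - PowerSeries.C ell) ^ 3) *
        ((m : PowerSeries Mot) * (PowerSeries.C ell * PowerSeries.X) ^ m)) := by
  obtain ⟨p, rfl⟩ : ∃ p, m = p + 1 := ⟨m - 1, by omega⟩
  have hE := Eser_eq (R := Mot) ell
  have hP := partial_sum (PowerSeries.C ell * PowerSeries.X : PowerSeries Mot) p
  have hy : yN (p + 1) = (p : Mot) * ((1 - ell) ^ 2 * ell ^ (p + 1)) := rfl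
  rw [mk_cK, sum_yN, Pser_smul ((1 - ell) ^ 2) ell yN (fun i => rfl), hy]
  simp only [map_mul, map_add, map_sub, map_pow, map_neg, map_one, map_natCast, map_ofNat]
  push_cast
  generalize (∑ i ∈ Finset.range (p + 1), ((i - 1 : ℕ) : PowerSeries Mot) *
    (PowerSeries.C ell * PowerSeries.X) ^ i) = S at hP ⊢
  generalize (Eser ell : PowerSeries Mot) = E at hE ⊢
  generalize ((p : ℕ) : PowerSeries Mot) = P at hP ⊢
  generalize (PowerSeries.C ell : PowerSeries Mot) = l at hE hP ⊢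
  generalize (PowerSeries.X : PowerSeries Mot) = x at hE hP ⊢
  linear_combination (1 - l) ^ 3 * hP +
    (1 - l * x) * (1 - l) ^ 3 * P * (l * x) ^ (p + 1) * hE

end NodeSerAux

open SumAux NodeSerAux

/-- The series of `x y`. -/
theorem serK_node0_mem {d : ℕ} (hd : 0 < d) {s₀ : ℚ} (h : ((3 : ℕ) : ℚ) / d ≠ -s₀)
    (h1 : s₀ ≠ -1) : serK 3 d (fun _ i => (1 - ell) * yN i) ∈ regularAt s₀ := by
  rw [serK_eq]
  have h2 : (PowerSeries.mk fun i => (1 - ell) * yN i) =
      PowerSeries.C (1 - ell) * (PowerSeries.C ((1 - ell) ^ 2) * Nser ell) := by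
    rw [← mk_yN]
    ext i
    rw [PowerSeries.coeff_mk, PowerSeries.coeff_C_mul, PowerSeries.coeff_mk]
  rw [h2]
  obtain ⟨g, hg, hg'⟩ := inv_mem 3 hd h
  obtain ⟨g1, hg1, hg1'⟩ := inv_mem1 h1
  have hN : Nser ell ∈ regularAt s₀ := by
    refine mem_of_mul hg1 hg1' rfl (mem_of_mul hg1 hg1' ?_
      (pow_mem (mul_mem (C_mem s₀ ell) (X_mem s₀)) 2))
    rw [← mul_assoc, ← pow_two]
    exact Nser_eq2 ell
  exact mem_of_mul hg hg' (FS_const (ell ^ 3) hd _)
    (mul_mem (A_mem s₀ _ d) (mul_mem (C_mem s₀ _) (mul_mem (C_mem s₀ _) hN)))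

/-- The series of `x y + u^κ`. -/
theorem serK_node_mem {d κ : ℕ} (hd : 0 < d) (hκ : 0 < κ) {s₀ : ℚ}
    (h : ((3 : ℕ) : ℚ) / d ≠ -s₀) (h1 : s₀ ≠ -1)
    (h2 : ((κ + 3 : ℕ) : ℚ) / ((d + κ : ℕ) : ℚ) ≠ -s₀) :
    serK 3 d (fun k => cK 2 (κ * k) yN) ∈ regularAt s₀ := by
  rw [serK_eq]
  obtain ⟨g, hg, hg'⟩ := inv_mem 3 hd h
  obtain ⟨g1, hg1, hg1'⟩ := inv_mem1 h1
  obtain ⟨g2, hg2, hg2'⟩ := inv_mem (κ + 3) (d := d + κ) (by omega) h2
  have hl := C_mem s₀ ell
  have hX := X_mem s₀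
  have hq := mul_mem hl hX
  have h1' : (1 : PowerSeries Mot) ∈ regularAt s₀ := one_mem _
  have h2' : (2 : PowerSeries Mot) ∈ regularAt s₀ := by
    rw [← one_add_one_eq_two]
    exact add_mem h1' h1'
  have hB : PowerSeries.C (ell ^ 3) * PowerSeries.X ^ d *
      (PowerSeries.C ell * PowerSeries.X) ^ κ =
      PowerSeries.C (ell ^ (κ + 3)) * (PowerSeries.X : PowerSeries Mot) ^ (d + κ) := by
    rw [map_pow, map_pow]
    ring
  have hBm := A_mem s₀ (ell ^ (κ + 3)) (d + κ)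
  set Q : PowerSeries Mot := (PowerSeries.C ell * PowerSeries.X) ^ κ with hQ
  have hc : (1 : PowerSeries Mot) - PowerSeries.C ell ∈ regularAt s₀ := sub_mem h1' hl
  have hq1 : (1 : PowerSeries Mot) - PowerSeries.C ell * PowerSeries.X ∈ regularAt s₀ :=
    sub_mem h1' hq
  have e0 : FS (ell ^ 3) d (fun _ => (1 : PowerSeries Mot)) ∈ regularAt s₀ :=
    mem_of_mul hg hg' (FS_const (ell ^ 3) hd 1) (mul_mem (A_mem s₀ _ d) h1')
  have e1 : FS (ell ^ 3) d (fun k => Q ^ k) ∈ regularAt s₀ := by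
    have h5 := FS_geom (ell ^ 3) hd Q
    rw [hB] at h5
    exact mem_of_mul hg2 hg2' h5 hBm
  have e2 : FS (ell ^ 3) d (fun k => (k : PowerSeries Mot) * Q ^ k) ∈ regularAt s₀ := by
    have h5 := FS_geom' (ell ^ 3) hd Q
    rw [hB] at h5
    exact mem_of_mul hg2 hg2' h5 (mul_mem hBm (add_mem h1' e1))
  have hUVW : ∃ U ∈ regularAt s₀, ∃ V ∈ regularAt s₀, ∃ W ∈ regularAt s₀, ∀ m : ℕ, 1 ≤ m →
      (1 - PowerSeries.C ell * PowerSeries.X) ^ 2 * PowerSeries.mk (cK 2 m yN) =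
      U + (V * (PowerSeries.C ell * PowerSeries.X) ^ m +
        W * ((m : PowerSeries Mot) * (PowerSeries.C ell * PowerSeries.X) ^ m)) := by
    refine ⟨_, ?_, _, ?_, _, ?_, fun m hm => mk_node hm⟩
    · exact mul_mem (pow_mem hc 3) (pow_mem hq 2)
    · exact sub_mem (sub_mem (add_mem (mul_mem (pow_mem hc 3) (sub_mem h1' (mul_mem h2' hq)))
        (mul_mem (mul_mem (pow_mem hq1 2) hc) (pow_mem hl 2)))
        (mul_mem (mul_mem (pow_mem hq1 2) (sub_mem h1' (mul_mem h2' hl))) (pow_mem hc 2)))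
        (mul_mem (mul_mem hq hq1) (pow_mem hc 3))
    · exact add_mem (add_mem (add_mem (mul_mem (pow_mem hc 3) (add_mem (neg_mem h1') hq))
        (mul_mem (mul_mem (pow_mem hq1 2) hc) (sub_mem hl (pow_mem hl 2))))
        (mul_mem (mul_mem (pow_mem hq1 2) (sub_mem h1' (mul_mem h2' hl))) (pow_mem hc 2)))
        (mul_mem (mul_mem hq hq1) (pow_mem hc 3))
  obtain ⟨U, hU, V, hV, W, hW, hm⟩ := hUVW
  have h6 : ∀ k : ℕ, 1 ≤ k →
      (1 - PowerSeries.C ell * PowerSeries.X) ^ 2 * PowerSeries.mk (cK 2 (κ * k) yN) =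
      U * 1 + (V * Q ^ k + W * (κ : PowerSeries Mot) * ((k : PowerSeries Mot) * Q ^ k)) := by
    intro k hk
    rw [hm (κ * k) (Nat.mul_pos hκ hk), hQ, ← pow_mul]
    push_cast
    ring
  have hκm : (κ : PowerSeries Mot) ∈ regularAt s₀ := natCast_mem _ κ
  refine mem_of_mul hg1 hg1' rfl (mem_of_mul hg1 hg1' rfl ?_)
  rw [← mul_assoc, ← pow_two, ← FS_mul _ hd, FS_congr (ell ^ 3) d h6, FS_add _ hd, FS_add _ hd,
    FS_mul _ hd, FS_mul _ hd, FS_mul _ hd]
  exact add_mem (mul_mem hU e0) (add_mem (mul_mem hV e1) (mul_mem (mul_mem hW hκm) e2))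

end YL

end MPb07157
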