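import Pool.Agent.Lib.MP_b07157_agYL.PoleL
import Pool.Agent.Lib.MP_b07157_agYL.Glue
import Pool.Agent.Lib.MP_b07157_agYL.ExE
import Pool.Agent.Lib.MP_b07157_agYL.Hess
import Pool.Agent.Lib.MP_b07157_agYL.NodeSer
import Pool.Agent.Lib.MP_b07157_agYL.NodeR
import Pool.Agent.Lib.MP_b07157_agYP.Main
import Pool.Agent.Lib.MP_b07157_agI.SiMain

/-!
# Lê–Yomdin surface germs and germs with nodal tangent cones: the main theorem
-/

noncomputable section

namespace MPb07157

open MvPolynomial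

namespace YL

open SI

/-- The node case. -/
theorem root_or_regular_node {f : MvPolynomial (Fin 3) ℂ} {d : ℕ} (hd : 2 ≤ d)
    (hlow : ∀ j < d, homogeneousComponent j f = 0) {q : Fin 3 → ℂ} {j₀ : Fin 3} (hq : q j₀ = 1)
    (h0 : eval q (homogeneousComponent d f) = 0)
    (hs : ∀ j, eval q (pderiv j (homogeneousComponent d f)) = 0)
    (hh : hess2 (gch (homogeneousComponent d f) q j₀ : PC.P2) ≠ 0) {s₀ : ℚ}
    (h : ((3 : ℕ) : ℚ) / d ≠ -s₀) (h1 : s₀ ≠ -1) (hreg : lineSer f d q ∉ regularAt s₀)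
    {b : Polynomial ℂ} (hb : InPs (f : MvPowerSeries (Fin 3) ℂ) 1
      (b.map (MvPowerSeries.C (σ := Fin 3) (R := ℂ)))) : b.eval (s₀ : ℂ) = 0 := by
  have hd0 : 0 < d := by omega
  rcases ueq_node hq h0 hs hh with hu | ⟨κ, hκ, hu⟩
  · refine absurd ?_ hreg
    rw [lineSer_node0 hd0 hq hu]
    exact serK_node0_mem hd0 h h1
  · by_cases h2 : ((κ + 3 : ℕ) : ℚ) / ((d + κ : ℕ) : ℚ) = -s₀
    · have hd3 : d ≠ 3 := by
        rintro rfl
        apply h1
        have h3 : ((3 + κ : ℕ) : ℚ) ≠ 0 := by positivity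
        rw [div_eq_iff h3] at h2
        push_cast at h2 h3
        have h4 : (3 + (κ : ℚ)) * (s₀ + 1) = 0 := by linarith
        have h5 := (mul_eq_zero.1 h4).resolve_left h3
        linarith
      have h3 := root_node_ueq hd hd3 hκ hlow hu hb
      have h4 : (s₀ : ℂ) = -(((κ : ℂ) + 3) / ((d : ℂ) + κ)) := by
        have h5 : s₀ = -(((κ : ℚ) + 3) / ((d : ℚ) + κ)) := by
          push_cast at h2
          rw [h2, neg_neg]
        rw [h5]
        push_cast
        ring
      rw [h4]
      exact h3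
    · refine absurd ?_ hreg
      rw [lineSer_nodeK hd0 hκ hq hu]
      exact serK_node_mem hd0 hκ h h1 h2

/-- **Lê–Yomdin germs and germs with nodal tangent cones.** The poles of the local zeta function
other than `-3/d` are roots, and also `-3/d` if the log canonical threshold is `3/d`, or if
`F^(-3/d)` is not a sum of derivatives, `F` the initial form. -/
theorem smc_tc {f : MvPolynomial (Fin 3) ℂ} {d e : ℕ} (hd : 0 < d) (he : 0 < e)
    (hf : IsTC f d e) {s₀ : ℚ} (hlct : s₀ = -(3 / (d : ℚ)) → Cond3 f d)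
    (hp : IsPole (Zmot0 f) s₀) {b : Polynomial ℂ}
    (hb : InDnForm f 1 (b.map (MvPowerSeries.C (σ := Fin 3) (R := ℂ)))) :
    b.eval (s₀ : ℂ) = 0 := by
  have hF0 : homogeneousComponent d f ≠ 0 := hf.sqf.ne_zero
  have hf0 : f ≠ 0 := by
    rintro rfl
    exact hF0 (map_zero _)
  have h00 : coeff 0 f = 0 := by
    have h1 := hf.low 0 hd
    rw [homogeneousComponent_zero] at h1
    exact C_eq_zero.1 h1
  by_cases hs1 : s₀ = -1
  · subst hs1
    exact neg_one_root hf0 (by rwa [notMem_support_iff]) b hb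
  have hdQ : (0 : ℚ) < d := by exact_mod_cast hd
  have heQ : (0 : ℚ) < e := by exact_mod_cast he
  by_cases hs2 : s₀ = -(3 / (d : ℚ))
  · rcases hlct hs2 with hc | hc
    · have h1 := Lct.root_order hd (by norm_num) hf0 hf.low (by exact_mod_cast hc) hb
      rw [hs2]
      exact_mod_cast h1
    · have h1 := SI.root_of_nonEx hd hf.low hF0 hc hb
      rw [hs2]
      push_cast
      exact h1
  have hcand : ((3 : ℕ) : ℚ) / d ≠ -s₀ := by
    intro h
    apply hs2
    push_cast at h
    rw [← neg_eq_iff_eq_neg, ← h]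
  -- the singular point
  obtain ⟨q, j₀, hq, hsing, hFq, hreg⟩ := exists_pole_line hd hf.low hf.sqf hcand hs1 hp
  have hq0 : q ≠ 0 := by
    rintro rfl
    simp at hq
  have hd2 : 2 ≤ d := by
    by_contra hcon
    have hd1 : d = 1 := by omega
    subst hd1
    exact hF0 (eq_zero_of_linear (homogeneousComponent_isHomogeneous 1 f) hsing)
  have hbps := inPs_of_form hb
  by_cases hh : hess2 (gch (homogeneousComponent d f) q j₀ : PC.P2) = 0
  swap
  · exact root_or_regular_node hd2 hf.low hq hFq hsing hh hcand hs1 hreg hbps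
  have hne : eval q (homogeneousComponent (d + e) f) ≠ 0 := by
    rcases hf.sing q hq0 hsing with h | h
    · exact h
    · exact absurd hh (hess2_of_nodeAt (homogeneousComponent_isHomogeneous d f) hq hsing h)
  have hnode : ¬ PC.IsNode (gch (homogeneousComponent d f) q j₀ : PC.P2) := fun h =>
    hess2_of_isNode h hh
  have hiso := isoSing_gch (homogeneousComponent_isHomogeneous d f) hf.sqf hq
  have hg0 := ne_zero_of_isoSing hiso
  have hc : eval 0 (gch (homogeneousComponent d f) q j₀) = 0 := by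
    rw [pole_eval_gch _ q j₀ hq]
    exact hFq
  have hc' : MvPowerSeries.constantCoeff
      ((gch (homogeneousComponent d f) q j₀ : MvPolynomial (Fin 2) ℂ) : PC.P2) = 0 := by
    rw [← MvPowerSeries.coeff_zero_eq_constantCoeff_apply, MvPolynomial.coeff_coe,
      ← MvPolynomial.constantCoeff_eq, ← hc, MvPolynomial.eval_zero]
  obtain ⟨K, hK⟩ := exists_nat_gt (-s₀)
  have hK1 : 1 ≤ K + 1 := by omega
  have hK2 : -s₀ < ((K + 1 : ℕ) : ℚ) := by
    push_cast
    linarith
  rw [lineSer_eq_ZY hd he hf.mid hq hne hK1] at hreg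
  set s₁ : ℚ := (((d : ℚ) + e) * s₀ + 3) / e with hs₁
  have hP : YP.Par e d 3 s₀ s₁ := by
    refine ⟨he, hd, by norm_num, ?_, hs1, ?_⟩
    · rw [hs₁, mul_div_cancel₀ _ heQ.ne']
      push_cast
      ring
    · intro h
      apply hcand
      rw [div_eq_iff hdQ.ne']
      exact h
  by_cases hout : s₁ ≤ -1 ∨ 0 ≤ s₁
  · exact absurd (YP.first_out hg0 hc' hnode hP hout hK1 hK2) hreg
  push Not at hout
  obtain ⟨h1, h2⟩ := hout
  by_contra hb0
  have hex := ex_gch_e hd2 he hf.low hf.mid hq hne hs1 h1 h2 hbps hb0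
  exact hreg (YP.first hg0 hc' hP hex
    (fun θ h0 i B hJ hB0 hB => PC.axis_ne hiso h0 hJ hB0 hB h1.ne') hK1 hK2)

end YL

/-- Lê–Yomdin germs and germs with nodal tangent cones, with the condition at `-3/d`. -/
theorem SmcLoc.of_tc {f : MvPolynomial (Fin 3) ℂ} {d e : ℕ} (hd : 0 < d) (he : 0 < e)
    (hf : YL.IsTC f d e) (hc : SI.Cond3 f d) : SmcLoc f :=
  fun _ _ hp _ hb => YL.smc_tc hd he hf (fun _ => hc) hp hb

end MPb07157
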