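import Pool.Agent.Lib.MP_b07157_agYL.Defs
import Pool.Agent.Lib.MP_b07157_agU.Split1

/-!
# The Morse lemma with a parameter
-/

noncomputable section

namespace MPb07157

open MvPolynomial

namespace YL

open SI

namespace MorseAux

open Spl

/-- The value of a derivative at the origin. -/
theorem cc_pderiv {n : ℕ} (F : MvPowerSeries (Fin n) ℂ) (i : Fin n) :
    MvPowerSeries.constantCoeff (MvPowerSeries.pderiv ℂ i F) =
      MvPowerSeries.coeff (Finsupp.single i 1) F := by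
  rw [← MvPowerSeries.coeff_zero_eq_constantCoeff_apply, MvPowerSeries.coeff_pderiv, zero_add]
  simp

theorem cc_comm {n : ℕ} (F : MvPowerSeries (Fin n) ℂ) (i j : Fin n) :
    MvPowerSeries.constantCoeff (MvPowerSeries.pderiv ℂ i (MvPowerSeries.pderiv ℂ j F)) =
      MvPowerSeries.constantCoeff (MvPowerSeries.pderiv ℂ j (MvPowerSeries.pderiv ℂ i F)) := by
  rw [cc_pderiv, cc_pderiv, MvPowerSeries.coeff_pderiv, MvPowerSeries.coeff_pderiv]
  by_cases hij : i = j
  · rw [hij]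
  · rw [add_comm (Finsupp.single i 1), Finsupp.single_eq_of_ne (Ne.symm hij),
      Finsupp.single_eq_of_ne hij]

/-- If `∂_y G (0) = 0` and `∂_y² G (0) ≠ 0`, then `G` is equivalent to `b(x) + y²`, by an
automorphism which fixes the other variables. -/
theorem morse' {m : ℕ} {G : MvPowerSeries (Fin (m + 1)) ℂ}
    (h1 : MvPowerSeries.constantCoeff (MvPowerSeries.pderiv ℂ (Fin.last m) G) = 0)
    (h2 : MvPowerSeries.constantCoeff (MvPowerSeries.pderiv ℂ (Fin.last m)
      (MvPowerSeries.pderiv ℂ (Fin.last m) G)) ≠ 0) :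
    ∃ (e : MvPowerSeries (Fin (m + 1)) ℂ ≃ₐ[ℂ] MvPowerSeries (Fin (m + 1)) ℂ)
      (b : MvPowerSeries (Fin m) ℂ), e G = R m b + MvPowerSeries.X (Fin.last m) ^ 2 ∧
      ∀ i : Fin m, e (MvPowerSeries.X i.castSucc) = MvPowerSeries.X i.castSucc := by
  set dl := MvPowerSeries.pderiv ℂ (Fin.last m) with hD
  set y : MvPowerSeries (Fin (m + 1)) ℂ := MvPowerSeries.X (Fin.last m) with hy
  obtain ⟨A, hA1, hA2⟩ := exists_aut_last h1 h2
  set w := A.symm y with hw
  set c := K m w with hc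
  have hcc : MvPowerSeries.constantCoeff (R m c) = 0 := by
    rw [cc_hom, hc, cc_hom, hw, constantCoeff_equiv, hy, MvPowerSeries.constantCoeff_X]
  have hDy : dl y = 1 := by
    rw [hD, hy, pderiv_X, if_pos rfl]
  obtain ⟨B, hB1, hB2⟩ := exists_aut_last (h := y + R m c)
    (by rw [map_add, hcc, hy, MvPowerSeries.constantCoeff_X, add_zero])
    (by
      rw [← hD, map_add, hDy, hD, pderiv_last_R, add_zero, map_one]
      exact one_ne_zero)
  -- the derivative vanishes at `y = 0`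
  have hDB : ∀ g, dl (B g) = B (dl g) := by
    intro g
    rw [hD, pderiv_equiv, Finset.sum_eq_single (Fin.last m)]
    · rw [hB1, ← hD, map_add, hDy, hD, pderiv_last_R, add_zero, one_mul]
    · intro j _ hj
      obtain ⟨j', rfl⟩ := Fin.exists_castSucc_eq.2 hj
      rw [hB2, pderiv_X, if_neg (Fin.castSucc_lt_last j').ne', zero_mul]
    · intro h
      exact absurd (Finset.mem_univ _) h
  have hK : K m (dl (B G)) = 0 := by
    rw [hDB]
    have h3 : (K m).comp (B : MvPowerSeries (Fin (m + 1)) ℂ →ₐ[ℂ] MvPowerSeries (Fin (m + 1)) ℂ) =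
        (K m).comp (A.symm : MvPowerSeries (Fin (m + 1)) ℂ →ₐ[ℂ]
          MvPowerSeries (Fin (m + 1)) ℂ) := by
      apply hom_ext
      intro i
      rw [AlgHom.comp_apply, AlgHom.comp_apply]
      induction i using Fin.lastCases with
      | last =>
        show K m (B y) = K m (A.symm y)
        rw [hB1, map_add, hy, K_last, zero_add, K_R]
      | cast i =>
        show K m (B (MvPowerSeries.X i.castSucc)) = K m (A.symm (MvPowerSeries.X i.castSucc))
        have h4 : A.symm (MvPowerSeries.X i.castSucc) = MvPowerSeries.X i.castSucc := by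
          rw [AlgEquiv.symm_apply_eq, hA2]
        rw [hB2, h4]
    have h4 : K m (B (dl G)) = K m (A.symm (dl G)) := congrArg (fun f => f (dl G)) h3
    rw [h4, ← hA1, AlgEquiv.symm_apply_apply, K_last]
  -- the form of `B G`
  obtain ⟨G1, hG1⟩ := dvd_of_K (G := B G - R m (K m (B G))) (by rw [map_sub, K_R, sub_self])
  have hBG1 : B G = R m (K m (B G)) + y * G1 := by rw [← hG1]; ring
  have hK1 : K m G1 = 0 := by
    have h3 := hK
    rw [hBG1, map_add, hD, pderiv_last_R, zero_add, Derivation.leibniz, ← hD, hDy, smul_eq_mul,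
      smul_eq_mul, mul_one, map_add, map_mul, hy, K_last, zero_mul, zero_add] at h3
    exact h3
  obtain ⟨G2, rfl⟩ := dvd_of_K hK1
  have hBG2 : B G = R m (K m (B G)) + y ^ 2 * G2 := by
    rw [pow_two, mul_assoc]
    exact hBG1
  have hG2 : MvPowerSeries.constantCoeff G2 ≠ 0 := by
    intro h3
    apply h2
    rw [← constantCoeff_equiv B, ← hDB, ← hDB, hBG2, map_add, hD, pderiv_last_R, zero_add,
      Derivation.leibniz, Derivation.leibniz_pow, ← hD, hDy]
    simp only [smul_eq_mul, nsmul_eq_mul, map_add, Derivation.leibniz, map_mul, map_pow]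
    have h4 : MvPowerSeries.constantCoeff y = 0 := by
      rw [hy, MvPowerSeries.constantCoeff_X]
    simp [h4, h3, hDy]
  -- the square root
  set β := MvPowerSeries.constantCoeff G2 with hβ
  obtain ⟨σ, hσ⟩ := IsAlgClosed.exists_pow_nat_eq β (n := 2) (by norm_num)
  obtain ⟨H, hH1, hH2⟩ := ARL.exists_root (R := ℂ) (N := 2) (by norm_num)
    (U := MvPowerSeries.C β⁻¹ * G2) (by
      rw [map_mul, MvPowerSeries.constantCoeff_C, ← hβ, inv_mul_cancel₀ hG2])
  have hσ0 : σ ≠ 0 := by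
    rintro rfl
    apply hG2
    rw [← hσ, zero_pow two_ne_zero]
  have hS : (MvPowerSeries.C σ * H) ^ 2 = G2 := by
    rw [mul_pow, hH2, ← mul_assoc, ← map_pow, ← map_mul, hσ, mul_inv_cancel₀ hG2,
      map_one, one_mul]
  obtain ⟨C, hC1, hC2⟩ := exists_aut_last (h := y * (MvPowerSeries.C σ * H))
    (by rw [map_mul, hy, MvPowerSeries.constantCoeff_X, zero_mul])
    (by
      rw [Derivation.leibniz, ← hD, hDy, smul_eq_mul, smul_eq_mul, mul_one, map_add, map_mul, hy,
        MvPowerSeries.constantCoeff_X, zero_mul, zero_add, map_mul, MvPowerSeries.constantCoeff_C,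
        hH1, mul_one]
      exact hσ0)
  refine ⟨B.trans C.symm, K m (B G), ?_, fun i => ?_⟩
  · rw [AlgEquiv.trans_apply, AlgEquiv.symm_apply_eq, map_add, map_pow, aut_R hC2, hC1, mul_pow,
      hS]
    exact hBG2
  · rw [AlgEquiv.trans_apply, AlgEquiv.symm_apply_eq, hB2, hC2]


/-- Linear automorphisms. -/
theorem exists_linear {n : ℕ} (A : Fin n → Fin n → ℂ)
    (hA : ∀ v : Fin n → ℂ, (∀ i, ∑ j, A i j * v j = 0) → v = 0) :
    ∃ e : MvPowerSeries (Fin n) ℂ ≃ₐ[ℂ] MvPowerSeries (Fin n) ℂ,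
      ∀ i, e (MvPowerSeries.X i) = ∑ j, MvPowerSeries.C (A i j) * MvPowerSeries.X j := by
  refine exists_equiv' (fun i => ?_) fun v hv => hA v fun i => ?_
  · rw [map_sum]
    refine Finset.sum_eq_zero fun j _ => ?_
    rw [map_mul, MvPowerSeries.constantCoeff_X, mul_zero]
  · rw [← hv i]
    refine Finset.sum_congr rfl fun j _ => ?_
    congr 1
    rw [map_sum, map_sum, Finset.sum_eq_single j]
    · rw [Derivation.leibniz, MvPowerSeries.pderiv_C, Spl.pderiv_X, if_pos rfl]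
      simp
    · intro l _ hl
      rw [Derivation.leibniz, MvPowerSeries.pderiv_C, Spl.pderiv_X, if_neg (Ne.symm hl)]
      simp
    · intro h
      exact absurd (Finset.mem_univ _) h

/-- The Hessian determinant with respect to `X_1`, `X_2`. -/
def hs (h : MvPowerSeries (Fin 3) ℂ) : ℂ :=
  MvPowerSeries.constantCoeff (MvPowerSeries.pderiv ℂ 1 (MvPowerSeries.pderiv ℂ 1 h)) *
      MvPowerSeries.constantCoeff (MvPowerSeries.pderiv ℂ 2 (MvPowerSeries.pderiv ℂ 2 h)) -
    MvPowerSeries.constantCoeff (MvPowerSeries.pderiv ℂ 1 (MvPowerSeries.pderiv ℂ 2 h)) ^ 2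

section

variable {e : MvPowerSeries (Fin 3) ℂ ≃ₐ[ℂ] MvPowerSeries (Fin 3) ℂ}
  (he : e (MvPowerSeries.X 0) = MvPowerSeries.X 0) {h : MvPowerSeries (Fin 3) ℂ}
include he

theorem pd_eq {i : Fin 3} (hi : i ≠ 0) (g : MvPowerSeries (Fin 3) ℂ) :
    MvPowerSeries.pderiv ℂ i (e g) =
      MvPowerSeries.pderiv ℂ i (e (MvPowerSeries.X 1)) * e (MvPowerSeries.pderiv ℂ 1 g) +
      MvPowerSeries.pderiv ℂ i (e (MvPowerSeries.X 2)) * e (MvPowerSeries.pderiv ℂ 2 g) := by
  rw [pderiv_equiv, Fin.sum_univ_three, he, Spl.pderiv_X, if_neg hi, zero_mul, zero_add]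

theorem cc_pd {i : Fin 3} (hi : i ≠ 0)
    (h1 : MvPowerSeries.constantCoeff (MvPowerSeries.pderiv ℂ 1 h) = 0)
    (h2 : MvPowerSeries.constantCoeff (MvPowerSeries.pderiv ℂ 2 h) = 0) :
    MvPowerSeries.constantCoeff (MvPowerSeries.pderiv ℂ i (e h)) = 0 := by
  rw [pd_eq he hi, map_add, map_mul, map_mul, constantCoeff_equiv, constantCoeff_equiv, h1, h2,
    mul_zero, mul_zero, add_zero]

theorem cc_pd2 {i j : Fin 3} (hi : i ≠ 0) (hj : j ≠ 0)
    (h1 : MvPowerSeries.constantCoeff (MvPowerSeries.pderiv ℂ 1 h) = 0)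
    (h2 : MvPowerSeries.constantCoeff (MvPowerSeries.pderiv ℂ 2 h) = 0) :
    MvPowerSeries.constantCoeff (MvPowerSeries.pderiv ℂ i (MvPowerSeries.pderiv ℂ j (e h))) =
      MvPowerSeries.constantCoeff (MvPowerSeries.pderiv ℂ j (e (MvPowerSeries.X 1))) *
        (MvPowerSeries.constantCoeff (MvPowerSeries.pderiv ℂ i (e (MvPowerSeries.X 1))) *
          MvPowerSeries.constantCoeff (MvPowerSeries.pderiv ℂ 1 (MvPowerSeries.pderiv ℂ 1 h)) +
        MvPowerSeries.constantCoeff (MvPowerSeries.pderiv ℂ i (e (MvPowerSeries.X 2))) *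
          MvPowerSeries.constantCoeff (MvPowerSeries.pderiv ℂ 1 (MvPowerSeries.pderiv ℂ 2 h))) +
      MvPowerSeries.constantCoeff (MvPowerSeries.pderiv ℂ j (e (MvPowerSeries.X 2))) *
        (MvPowerSeries.constantCoeff (MvPowerSeries.pderiv ℂ i (e (MvPowerSeries.X 1))) *
          MvPowerSeries.constantCoeff (MvPowerSeries.pderiv ℂ 1 (MvPowerSeries.pderiv ℂ 2 h)) +
        MvPowerSeries.constantCoeff (MvPowerSeries.pderiv ℂ i (e (MvPowerSeries.X 2))) *
          MvPowerSeries.constantCoeff (MvPowerSeries.pderiv ℂ 2 (MvPowerSeries.pderiv ℂ 2 h))) := by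
  rw [pd_eq he hj, map_add, Derivation.leibniz, Derivation.leibniz,
    pd_eq he hi (MvPowerSeries.pderiv ℂ 1 h), pd_eq he hi (MvPowerSeries.pderiv ℂ 2 h)]
  simp only [smul_eq_mul, map_add, map_mul, constantCoeff_equiv, h1, h2, zero_mul, add_zero]
  rw [cc_comm h 2 1]

theorem hs_equiv (h1 : MvPowerSeries.constantCoeff (MvPowerSeries.pderiv ℂ 1 h) = 0)
    (h2 : MvPowerSeries.constantCoeff (MvPowerSeries.pderiv ℂ 2 h) = 0) :
    ∃ D : ℂ, hs (e h) = D * hs h := by
  have i1 : (1 : Fin 3) ≠ 0 := by decide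
  have i2 : (2 : Fin 3) ≠ 0 := by decide
  refine ⟨(MvPowerSeries.constantCoeff (MvPowerSeries.pderiv ℂ 1 (e (MvPowerSeries.X 1))) *
    MvPowerSeries.constantCoeff (MvPowerSeries.pderiv ℂ 2 (e (MvPowerSeries.X 2))) -
    MvPowerSeries.constantCoeff (MvPowerSeries.pderiv ℂ 1 (e (MvPowerSeries.X 2))) *
    MvPowerSeries.constantCoeff (MvPowerSeries.pderiv ℂ 2 (e (MvPowerSeries.X 1)))) ^ 2, ?_⟩
  unfold hs
  rw [cc_pd2 he i1 i1 h1 h2, cc_pd2 he i2 i2 h1 h2, cc_pd2 he i1 i2 h1 h2]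
  ring

theorem hs_ne (h1 : MvPowerSeries.constantCoeff (MvPowerSeries.pderiv ℂ 1 h) = 0)
    (h2 : MvPowerSeries.constantCoeff (MvPowerSeries.pderiv ℂ 2 h) = 0) (hh : hs h ≠ 0) :
    hs (e h) ≠ 0 := by
  have i1 : (1 : Fin 3) ≠ 0 := by decide
  have i2 : (2 : Fin 3) ≠ 0 := by decide
  have he' : e.symm (MvPowerSeries.X 0) = MvPowerSeries.X 0 := by
    rw [AlgEquiv.symm_apply_eq, he]
  obtain ⟨D, hD⟩ := hs_equiv he' (cc_pd he i1 h1 h2) (cc_pd he i2 h1 h2)
  rw [AlgEquiv.symm_apply_apply] at hD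
  intro h0
  rw [h0, mul_zero] at hD
  exact hh hD

end

/-- The last second derivative is made nonzero. -/
theorem exists_swap {h : MvPowerSeries (Fin 3) ℂ}
    (h1 : MvPowerSeries.constantCoeff (MvPowerSeries.pderiv ℂ 1 h) = 0)
    (h2 : MvPowerSeries.constantCoeff (MvPowerSeries.pderiv ℂ 2 h) = 0) (hh : hs h ≠ 0) :
    ∃ e : MvPowerSeries (Fin 3) ℂ ≃ₐ[ℂ] MvPowerSeries (Fin 3) ℂ,
      e (MvPowerSeries.X 0) = MvPowerSeries.X 0 ∧ MvPowerSeries.constantCoeff
        (MvPowerSeries.pderiv ℂ 2 (MvPowerSeries.pderiv ℂ 2 (e h))) ≠ 0 := by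
  have i2 : (2 : Fin 3) ≠ 0 := by decide
  have key : ∀ t : ℂ, ∃ e : MvPowerSeries (Fin 3) ℂ ≃ₐ[ℂ] MvPowerSeries (Fin 3) ℂ,
      e (MvPowerSeries.X 0) = MvPowerSeries.X 0 ∧ MvPowerSeries.constantCoeff
        (MvPowerSeries.pderiv ℂ 2 (MvPowerSeries.pderiv ℂ 2 (e h))) =
      t ^ 2 * MvPowerSeries.constantCoeff (MvPowerSeries.pderiv ℂ 1 (MvPowerSeries.pderiv ℂ 1 h)) +
      2 * t * MvPowerSeries.constantCoeff (MvPowerSeries.pderiv ℂ 1 (MvPowerSeries.pderiv ℂ 2 h)) +
      MvPowerSeries.constantCoeff (MvPowerSeries.pderiv ℂ 2 (MvPowerSeries.pderiv ℂ 2 h)) := by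
    intro t
    obtain ⟨e, he⟩ := exists_linear (n := 3) ![![1, 0, 0], ![0, 1, t], ![0, 0, 1]] (by
      intro v hv
      have a0 := hv 0
      have a1 := hv 1
      have a2 := hv 2
      simp [Fin.sum_univ_three] at a0 a1 a2
      rw [a2, mul_zero, add_zero] at a1
      funext i
      fin_cases i
      · exact a0
      · exact a1
      · exact a2)
    have e0 : e (MvPowerSeries.X 0) = MvPowerSeries.X 0 := by
      rw [he, Fin.sum_univ_three]
      simp
    have e1 : e (MvPowerSeries.X 1) = MvPowerSeries.X 1 + MvPowerSeries.C t * MvPowerSeries.X 2 := by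
      rw [he, Fin.sum_univ_three]
      simp
    have e2 : e (MvPowerSeries.X 2) = MvPowerSeries.X 2 := by
      rw [he, Fin.sum_univ_three]
      simp
    have d1 : MvPowerSeries.constantCoeff (MvPowerSeries.pderiv ℂ 2 (e (MvPowerSeries.X 1))) =
        t := by
      rw [e1, map_add, Derivation.leibniz, MvPowerSeries.pderiv_C, Spl.pderiv_X, Spl.pderiv_X,
        if_pos rfl, if_neg (by decide)]
      simp
    have d2 : MvPowerSeries.constantCoeff (MvPowerSeries.pderiv ℂ 2 (e (MvPowerSeries.X 2))) =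
        1 := by
      rw [e2, Spl.pderiv_X, if_pos rfl, map_one]
    refine ⟨e, e0, ?_⟩
    rw [cc_pd2 e0 i2 i2 h1 h2, d1, d2]
    ring
  unfold hs at hh
  set a := MvPowerSeries.constantCoeff (MvPowerSeries.pderiv ℂ 1 (MvPowerSeries.pderiv ℂ 1 h))
  set b := MvPowerSeries.constantCoeff (MvPowerSeries.pderiv ℂ 1 (MvPowerSeries.pderiv ℂ 2 h))
  set d := MvPowerSeries.constantCoeff (MvPowerSeries.pderiv ℂ 2 (MvPowerSeries.pderiv ℂ 2 h))
  by_contra hcon
  push Not at hcon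
  have k0 : ∀ t : ℂ, t ^ 2 * a + 2 * t * b + d = 0 := by
    intro t
    obtain ⟨e, e1, e2⟩ := key t
    rw [← e2]
    exact hcon e e1
  have q0 := k0 0
  have q1 := k0 1
  have q2 := k0 (-1)
  have hd : d = 0 := by linear_combination q0
  have ha : a = 0 := by linear_combination (1 / 2 : ℂ) * q1 + (1 / 2 : ℂ) * q2 - hd
  have hb : b = 0 := by linear_combination (1 / 4 : ℂ) * q1 - (1 / 4 : ℂ) * q2
  apply hh
  rw [ha, hb]
  ring

/-- Power series in one variable. -/
theorem exists_pow_unit {c : MvPowerSeries (Fin 1) ℂ} (hc : c ≠ 0)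
    (h0 : MvPowerSeries.constantCoeff c = 0) :
    ∃ (κ : ℕ) (τ : MvPowerSeries (Fin 1) ℂ), 0 < κ ∧ MvPowerSeries.constantCoeff τ ≠ 0 ∧
      c = (MvPowerSeries.X 0 * τ) ^ κ := by
  classical
  have hex : ∃ n : ℕ, ∃ v : Fin 1 →₀ ℕ, v 0 = n ∧ MvPowerSeries.coeff v c ≠ 0 := by
    by_contra hcon
    push Not at hcon
    apply hc
    ext v
    rw [hcon (v 0) v rfl, map_zero]
  obtain ⟨v, hv0, hv⟩ := Nat.find_spec hex
  have hmin : ∀ w : Fin 1 →₀ ℕ, w 0 < Nat.find hex → MvPowerSeries.coeff w c = 0 := by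
    intro w hw
    have h1 := Nat.find_min hex hw
    push Not at h1
    exact h1 w rfl
  generalize Nat.find hex = κ at hv0 hmin
  obtain ⟨w, hw⟩ := MvPowerSeries.X_pow_dvd_iff.2 hmin
  have hw0 : MvPowerSeries.constantCoeff w ≠ 0 := by
    intro h1
    have h2 : (MvPowerSeries.X 0 : MvPowerSeries (Fin 1) ℂ) ∣ w := by
      rw [MvPowerSeries.X_dvd_iff]
      intro u hu
      have : u = 0 := by
        refine Finsupp.ext fun i => ?_
        rw [Subsingleton.elim i 0]
        exact hu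
      rw [this, MvPowerSeries.coeff_zero_eq_constantCoeff_apply, h1]
    have h3 : (MvPowerSeries.X 0 : MvPowerSeries (Fin 1) ℂ) ^ (κ + 1) ∣ c := by
      rw [hw, pow_succ]
      exact mul_dvd_mul_left _ h2
    exact hv (MvPowerSeries.X_pow_dvd_iff.1 h3 v (by omega))
  have hκ : 0 < κ := by
    rcases Nat.eq_zero_or_pos κ with hk | hk
    · exfalso
      rw [hk, pow_zero, one_mul] at hw
      rw [hw] at h0
      exact hw0 h0
    · exact hk
  set β := MvPowerSeries.constantCoeff w with hβ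
  obtain ⟨σ, hσ⟩ := IsAlgClosed.exists_pow_nat_eq β hκ
  have hσ0 : σ ≠ 0 := by
    rintro rfl
    apply hw0
    rw [← hσ, zero_pow hκ.ne']
  obtain ⟨H, hH1, hH2⟩ := ARL.exists_root (R := ℂ) (N := κ) hκ
    (U := MvPowerSeries.C β⁻¹ * w) (by
      rw [map_mul, MvPowerSeries.constantCoeff_C, ← hβ, inv_mul_cancel₀ hw0])
  refine ⟨κ, MvPowerSeries.C σ * H, hκ, ?_, ?_⟩
  · rw [map_mul, MvPowerSeries.constantCoeff_C, hH1, mul_one]
    exact hσ0
  · rw [mul_pow, mul_pow, hH2, ← mul_assoc, ← mul_assoc, mul_assoc _ _ (MvPowerSeries.C β⁻¹),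
      ← map_pow, ← map_mul, hσ, mul_inv_cancel₀ hw0, map_one, mul_one]
    exact hw

end MorseAux

open MorseAux in
/-- **The Morse lemma with a parameter.** -/
theorem ueq_morse {h : MvPowerSeries (Fin 3) ℂ} (h0 : MvPowerSeries.constantCoeff h = 0)
    (h1 : MvPowerSeries.constantCoeff (MvPowerSeries.pderiv ℂ 1 h) = 0)
    (h2 : MvPowerSeries.constantCoeff (MvPowerSeries.pderiv ℂ 2 h) = 0)
    (hh : MvPowerSeries.constantCoeff (MvPowerSeries.pderiv ℂ 1 (MvPowerSeries.pderiv ℂ 1 h)) *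
        MvPowerSeries.constantCoeff (MvPowerSeries.pderiv ℂ 2 (MvPowerSeries.pderiv ℂ 2 h)) -
      MvPowerSeries.constantCoeff (MvPowerSeries.pderiv ℂ 1 (MvPowerSeries.pderiv ℂ 2 h)) ^ 2 ≠ 0) :
    UEq h (X 1 * X 2) ∨ ∃ κ, 0 < κ ∧ UEq h (X 1 * X 2 + X 0 ^ κ) := by
  have i1 : (1 : Fin 3) ≠ 0 := by decide
  have i2 : (2 : Fin 3) ≠ 0 := by decide
  -- the last second derivative
  obtain ⟨A, hA1, hA2⟩ := exists_swap h1 h2 hh
  have hA0 : MvPowerSeries.constantCoeff (A h) = 0 := by rw [constantCoeff_equiv, h0]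
  have k1 := cc_pd hA1 i1 h1 h2
  have k2 := cc_pd hA1 i2 h1 h2
  have k3 := hs_ne hA1 h1 h2 hh
  -- the first step
  obtain ⟨B, b, hB1, hB2⟩ := morse' (m := 2) (G := A h) k2 hA2
  have hB0 : B (MvPowerSeries.X 0) = MvPowerSeries.X 0 := hB2 0
  have k4 := cc_pd hB0 i1 k1 k2
  have k5 := hs_ne hB0 k1 k2 k3
  have d1 : MvPowerSeries.pderiv ℂ 1 (B (A h)) = Spl.R 2 (MvPowerSeries.pderiv ℂ 1 b) := by
    rw [hB1, map_add, Derivation.leibniz_pow, Spl.pderiv_X, if_neg (by decide), smul_zero,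
      smul_zero, add_zero]
    exact Spl.pderiv_R 1 b
  have d2 : MvPowerSeries.pderiv ℂ 2 (B (A h)) = 2 * MvPowerSeries.X 2 := by
    have e1 : MvPowerSeries.pderiv ℂ 2 (Spl.R 2 b) = 0 := Spl.pderiv_last_R b
    rw [hB1, map_add, e1, Derivation.leibniz_pow]
    have e2 : MvPowerSeries.pderiv ℂ 2 (MvPowerSeries.X (Fin.last 2) :
        MvPowerSeries (Fin 3) ℂ) = 1 := by
      rw [Spl.pderiv_X]
      exact if_pos rfl
    rw [e2]
    simp
  have c1 : MvPowerSeries.constantCoeff (MvPowerSeries.pderiv ℂ (Fin.last 1) b) = 0 := by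
    rw [d1, Spl.cc_hom] at k4
    exact k4
  have c2 : MvPowerSeries.constantCoeff (MvPowerSeries.pderiv ℂ (Fin.last 1)
      (MvPowerSeries.pderiv ℂ (Fin.last 1) b)) ≠ 0 := by
    intro hz
    apply k5
    unfold hs
    have e1 : MvPowerSeries.pderiv ℂ 1 (MvPowerSeries.pderiv ℂ 1 (B (A h))) =
        Spl.R 2 (MvPowerSeries.pderiv ℂ 1 (MvPowerSeries.pderiv ℂ 1 b)) := by
      rw [d1]
      exact Spl.pderiv_R 1 _
    have e2 : MvPowerSeries.pderiv ℂ 1 (MvPowerSeries.pderiv ℂ 2 (B (A h))) = 0 := by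
      rw [d2, Derivation.leibniz, Spl.pderiv_X, if_neg (by decide)]
      have e3 : MvPowerSeries.pderiv ℂ 1 (2 : MvPowerSeries (Fin 3) ℂ) = 0 := by
        have := (MvPowerSeries.pderiv ℂ (1 : Fin 3)).map_natCast (2 : ℕ)
        simpa using this
      rw [e3]
      simp
    rw [e1, e2, Spl.cc_hom]
    have hz' : MvPowerSeries.constantCoeff
      (MvPowerSeries.pderiv ℂ 1 (MvPowerSeries.pderiv ℂ 1 b)) = 0 := hz
    rw [hz', map_zero]
    ring
  -- the second step
  obtain ⟨D, c, hD1, hD2⟩ := morse' (m := 1) (G := b) c1 c2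
  have hD0 : D (MvPowerSeries.X 0) = MvPowerSeries.X 0 := hD2 0
  obtain ⟨E, hE1, hE2⟩ := Spl.exists_ext (m := 2) D
  have hE0 : E (MvPowerSeries.X 0) = MvPowerSeries.X 0 := by
    have e1 := hE1 (MvPowerSeries.X 0)
    rw [hD0, Spl.R_X] at e1
    exact e1
  have hE3 : E (B (A h)) = Spl.R 2 (Spl.R 1 c) + MvPowerSeries.X 1 ^ 2 +
      MvPowerSeries.X 2 ^ 2 := by
    rw [hB1, map_add, hE1, hD1, map_pow, hE2, map_add, map_pow, Spl.R_X]
    rfl
  have hc0 : MvPowerSeries.constantCoeff c = 0 := by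
    have e1 : MvPowerSeries.constantCoeff (E (B (A h))) = 0 := by
      rw [constantCoeff_equiv, constantCoeff_equiv, hA0]
    rw [hE3, map_add, map_add, Spl.cc_hom, Spl.cc_hom, map_pow, map_pow,
      MvPowerSeries.constantCoeff_X, MvPowerSeries.constantCoeff_X] at e1
    simpa using e1
  -- the product `x y`
  obtain ⟨P, hP⟩ := exists_linear (n := 3)
    ![![1, 0, 0], ![0, 1, Complex.I], ![0, 1, -Complex.I]] (by
      intro v hv
      have a0 := hv 0
      have a1 := hv 1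
      have a2 := hv 2
      simp [Fin.sum_univ_three] at a0 a1 a2
      have b1 : v 1 = 0 := by linear_combination (1 / 2 : ℂ) * a1 + (1 / 2 : ℂ) * a2
      have b2 : v 2 = 0 := by
        have b3 : Complex.I * v 2 = 0 := by linear_combination a1 - b1
        exact (mul_eq_zero.1 b3).resolve_left Complex.I_ne_zero
      funext i
      fin_cases i
      · exact a0
      · exact b1
      · exact b2)
  have hP0 : P (MvPowerSeries.X 0) = MvPowerSeries.X 0 := by
    rw [hP, Fin.sum_univ_three]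
    simp
  have hP12 : P (MvPowerSeries.X 1 * MvPowerSeries.X 2) =
      MvPowerSeries.X 1 ^ 2 + MvPowerSeries.X 2 ^ 2 := by
    have e1 : P (MvPowerSeries.X 1) =
        MvPowerSeries.X 1 + MvPowerSeries.C Complex.I * MvPowerSeries.X 2 := by
      rw [hP, Fin.sum_univ_three]
      simp
    have e2 : P (MvPowerSeries.X 2) =
        MvPowerSeries.X 1 - MvPowerSeries.C Complex.I * MvPowerSeries.X 2 := by
      rw [hP, Fin.sum_univ_three]
      simp
      ring
    have e3 : (MvPowerSeries.C Complex.I * MvPowerSeries.C Complex.I :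
        MvPowerSeries (Fin 3) ℂ) = -1 := by
      rw [← map_mul, Complex.I_mul_I, map_neg, map_one]
    rw [map_mul, e1, e2]
    linear_combination (-MvPowerSeries.X 2 ^ 2 : MvPowerSeries (Fin 3) ℂ) * e3
  set T := (A.trans B).trans E with hT
  have hTh : T h = Spl.R 2 (Spl.R 1 c) + (MvPowerSeries.X 1 ^ 2 + MvPowerSeries.X 2 ^ 2) := by
    rw [← add_assoc, ← hE3]
    rfl
  have hT0 : T.symm (MvPowerSeries.X 0) = MvPowerSeries.X 0 := by
    rw [AlgEquiv.symm_apply_eq]
    show MvPowerSeries.X 0 = E (B (A (MvPowerSeries.X 0)))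
    rw [hA1, hB0, hE0]
  by_cases hc : c = 0
  · left
    refine ⟨P.trans T.symm, 1, 1, ?_, ?_⟩
    · rw [Units.val_one, one_mul, AlgEquiv.trans_apply, AlgEquiv.eq_symm_apply, hTh, hc, map_zero,
        map_zero, zero_add, MvPolynomial.coe_mul, MvPolynomial.coe_X, MvPolynomial.coe_X, hP12]
    · rw [AlgEquiv.trans_apply, hP0, hT0, Units.val_one, mul_one]
  right
  obtain ⟨κ, τ, hκ, hτ, hcτ⟩ := exists_pow_unit hc hc0
  have hτ' : MvPowerSeries.constantCoeff (Spl.R 2 (Spl.R 1 τ)) ≠ 0 := by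
    rw [Spl.cc_hom, Spl.cc_hom]
    exact hτ
  obtain ⟨Q, hQ⟩ := Spl.exists_equiv' (n := 3) (a := ![MvPowerSeries.X 0 * Spl.R 2 (Spl.R 1 τ),
    MvPowerSeries.X 1, MvPowerSeries.X 2])
    (by
      intro i
      fin_cases i
      · simp
      · simp
      · simp)
    (by
      intro v hv
      have a0 := hv 0
      have a1 := hv 1
      have a2 := hv 2
      simp only [Fin.sum_univ_three, Matrix.cons_val_zero, Matrix.cons_val_one,
        Matrix.cons_val_two, Matrix.head_cons, Matrix.tail_cons, Derivation.leibniz,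
        Spl.pderiv_X, smul_eq_mul, map_add, map_mul, MvPowerSeries.constantCoeff_X, zero_mul,
        zero_add] at a0 a1 a2
      simp at a0 a1 a2
      funext i
      fin_cases i
      · exact a0.resolve_left hτ'
      · exact a1
      · exact a2)
  have hQ0 : Q (MvPowerSeries.X 0) = MvPowerSeries.X 0 * Spl.R 2 (Spl.R 1 τ) := hQ 0
  have hQ1 : Q (MvPowerSeries.X 1) = MvPowerSeries.X 1 := hQ 1
  have hQ2 : Q (MvPowerSeries.X 2) = MvPowerSeries.X 2 := hQ 2
  have hu : IsUnit (T.symm (Spl.R 2 (Spl.R 1 τ))) := by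
    rw [MvPowerSeries.isUnit_iff_constantCoeff, constantCoeff_equiv, isUnit_iff_ne_zero]
    exact hτ'
  refine ⟨κ, hκ, (P.trans Q).trans T.symm, 1, hu.unit, ?_, ?_⟩
  · rw [Units.val_one, one_mul, AlgEquiv.trans_apply, AlgEquiv.eq_symm_apply, hTh,
      AlgEquiv.trans_apply, MvPolynomial.coe_add, MvPolynomial.coe_mul, MvPolynomial.coe_pow,
      MvPolynomial.coe_X, MvPolynomial.coe_X, MvPolynomial.coe_X, map_add, hP12, map_pow, hP0,
      map_add, map_add, map_pow, map_pow, map_pow, hQ0, hQ1, hQ2, hcτ, map_pow, map_pow, map_mul,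
      map_mul, Spl.R_X, Spl.R_X, add_comm]
    rfl
  · rw [AlgEquiv.trans_apply, AlgEquiv.trans_apply, hP0, hQ0, map_mul, hT0, IsUnit.unit_spec]

end YL

end MPb07157
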