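import Pool.Agent.Lib.MP_b07157_agI.Node

/-!
# The root `-(κ+3)/(d+κ)` at a node
-/

noncomputable section

namespace MPb07157

open MvPolynomial

namespace YL

open SI

namespace NodeK

open ARL SI.Node

/-- The images of `u, X, Y`. -/
def im (κ : ℕ) : Fin 3 → A := ![un, MvPowerSeries.X 0 ^ κ, MvPowerSeries.X 1 ^ κ]

theorem im_zero {κ : ℕ} (hκ : 0 < κ) (i : Fin 3) : MvPowerSeries.constantCoeff (im κ i) = 0 := by
  fin_cases i
  · exact constantCoeff_un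
  · show MvPowerSeries.constantCoeff ((MvPowerSeries.X 0 : A) ^ κ) = 0
    rw [map_pow, MvPowerSeries.constantCoeff_X, zero_pow hκ.ne']
  · show MvPowerSeries.constantCoeff ((MvPowerSeries.X 1 : A) ^ κ) = 0
    rw [map_pow, MvPowerSeries.constantCoeff_X, zero_pow hκ.ne']

theorem im_hs {κ : ℕ} (hκ : 0 < κ) : MvPowerSeries.HasSubst (im κ) :=
  MvPowerSeries.hasSubst_of_constantCoeff_zero (im_zero hκ)

/-- The substitution `u = T x y`, `X = x^κ`, `Y = y^κ`. -/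
def ps {κ : ℕ} (hκ : 0 < κ) : MvPowerSeries (Fin 3) ℂ →ₐ[ℂ] A :=
  MvPowerSeries.substAlgHom (im_hs hκ)

theorem ps_apply {κ : ℕ} (hκ : 0 < κ) (g : MvPowerSeries (Fin 3) ℂ) :
    ps hκ g = MvPowerSeries.subst (im κ) g := by
  rw [ps, MvPowerSeries.coe_substAlgHom]

theorem ps_X {κ : ℕ} (hκ : 0 < κ) (i : Fin 3) : ps hκ (MvPowerSeries.X i) = im κ i :=
  MvPowerSeries.substAlgHom_X (im_hs hκ) i

theorem cc_ps {κ : ℕ} (hκ : 0 < κ) (g : MvPowerSeries (Fin 3) ℂ) :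
    MvPowerSeries.constantCoeff (ps hκ g) =
      algebraMap ℂ (RatFunc ℂ) (MvPowerSeries.constantCoeff g) := by
  have h1 : g = MvPowerSeries.C (MvPowerSeries.constantCoeff g) +
      (g - MvPowerSeries.C (MvPowerSeries.constantCoeff g)) := by ring
  have h2 : MvPowerSeries.constantCoeff (g - MvPowerSeries.C (MvPowerSeries.constantCoeff g)) =
      0 := by
    rw [map_sub, MvPowerSeries.constantCoeff_C, sub_self]
  have h3 : MvPowerSeries.constantCoeff (ps hκ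
      (g - MvPowerSeries.C (MvPowerSeries.constantCoeff g))) = 0 := by
    rw [ps_apply]
    exact MvPowerSeries.constantCoeff_subst_eq_zero (im_hs hκ) (im_zero hκ) h2
  have h4 : ps hκ (MvPowerSeries.C (MvPowerSeries.constantCoeff g)) =
      algebraMap ℂ A (MvPowerSeries.constantCoeff g) := (ps hκ).commutes _
  conv_lhs => rw [h1]
  rw [map_add, map_add, h3, add_zero, h4, MvPowerSeries.algebraMap_apply,
    MvPowerSeries.constantCoeff_C]

theorem Xpow (i : Fin 2) (κ : ℕ) : (MvPowerSeries.X i : A) ^ κ =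
    MvPowerSeries.monomial (Finsupp.single i κ) 1 := MvPowerSeries.X_pow_eq i κ

theorem lg_Xpow (j i : Fin 2) (κ : ℕ) : lg j ((MvPowerSeries.X i : A) ^ κ) =
    ((Finsupp.single i κ j : ℕ) : A) * MvPowerSeries.X i ^ κ := by
  rw [Xpow, lg_monomial]

theorem DB_Xpow (j i : Fin 2) (κ : ℕ) : DB j 1 0 ((MvPowerSeries.X i : A) ^ κ) := by
  rw [Xpow]
  exact (DB.monomial (dg_one 1) _).mono (neg_nonpos.2 (Int.natCast_nonneg _))

theorem DB_Xpow_self {j : Fin 2} {κ : ℕ} (hκ : 0 < κ) :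
    DB j 1 (-1) ((MvPowerSeries.X j : A) ^ κ) := fun v => by
  rw [Xpow, MvPowerSeries.coeff_monomial]
  split_ifs with h
  · refine dg_mono ?_ (dg_one 1)
    rw [h, Finsupp.single_eq_same]
    omega
  · exact (dg 1 _).zero_mem

theorem DB_im (κ : ℕ) (j : Fin 2) (i : Fin 3) : DB j 1 0 (im κ i) := by
  fin_cases i
  · exact DB_un j
  · exact DB_Xpow j 0 κ
  · exact DB_Xpow j 1 κ

theorem DB_ps {κ : ℕ} (hκ : 0 < κ) (j : Fin 2) (g : MvPowerSeries (Fin 3) ℂ) :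
    DB j 1 0 (ps hκ g) := by
  rw [ps_apply]
  exact DB.mv_subst (im_hs hκ) (DB_im κ j) g

theorem DB_nat (j : Fin 2) (n : ℕ) : DB j 1 0 ((n : ℕ) : A) := by
  have h : ((n : ℕ) : A) = MvPowerSeries.C ((n : ℕ) : RatFunc ℂ) := (map_natCast _ n).symm
  rw [h]
  exact DB.C (dg_natCast 1 n)

/-- The part of the logarithmic derivative along `u`. -/
def aU {κ : ℕ} (hκ : 0 < κ) (z : MvPowerSeries (Fin 3) ℂ) : A :=
  ps hκ (MvPowerSeries.pderiv ℂ 0 z) * un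

/-- The part of the logarithmic derivative along `X`. -/
def p0 {κ : ℕ} (hκ : 0 < κ) (z : MvPowerSeries (Fin 3) ℂ) : A :=
  ps hκ (MvPowerSeries.pderiv ℂ 1 z) * ((κ : A) * MvPowerSeries.X 0 ^ κ)

/-- The part of the logarithmic derivative along `Y`. -/
def p1 {κ : ℕ} (hκ : 0 < κ) (z : MvPowerSeries (Fin 3) ℂ) : A :=
  ps hκ (MvPowerSeries.pderiv ℂ 2 z) * ((κ : A) * MvPowerSeries.X 1 ^ κ)

theorem lg_im (κ : ℕ) (j : Fin 2) : lg j (im κ 0) = un ∧
    lg j (im κ 1) = ((Finsupp.single (0 : Fin 2) κ j : ℕ) : A) * MvPowerSeries.X 0 ^ κ ∧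
    lg j (im κ 2) = ((Finsupp.single (1 : Fin 2) κ j : ℕ) : A) * MvPowerSeries.X 1 ^ κ :=
  ⟨lg_un j, lg_Xpow j 0 κ, lg_Xpow j 1 κ⟩

theorem ps_zero {κ : ℕ} (hκ : 0 < κ) (i : Fin 3) :
    MvPowerSeries.constantCoeff (ps hκ (MvPowerSeries.X i)) = 0 := by
  rw [ps_X]
  exact im_zero hκ i

theorem lg0_ps {κ : ℕ} (hκ : 0 < κ) (z : MvPowerSeries (Fin 3) ℂ) :
    lg 0 (ps hκ z) = aU hκ z + p0 hκ z := by
  rw [chain (ps_zero hκ) (lg 0) z, Fin.sum_univ_three, ps_X, ps_X, ps_X, (lg_im κ 0).1,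
    (lg_im κ 0).2.1, (lg_im κ 0).2.2, Finsupp.single_eq_same,
    Finsupp.single_eq_of_ne (by decide), Nat.cast_zero, zero_mul, mul_zero, add_zero]
  rfl

theorem lg1_ps {κ : ℕ} (hκ : 0 < κ) (z : MvPowerSeries (Fin 3) ℂ) :
    lg 1 (ps hκ z) = aU hκ z + p1 hκ z := by
  rw [chain (ps_zero hκ) (lg 1) z, Fin.sum_univ_three, ps_X, ps_X, ps_X, (lg_im κ 1).1,
    (lg_im κ 1).2.1, (lg_im κ 1).2.2, Finsupp.single_eq_same,
    Finsupp.single_eq_of_ne (by decide), Nat.cast_zero, zero_mul, mul_zero, add_zero]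
  rfl

theorem DB_aU {κ : ℕ} (hκ : 0 < κ) (j : Fin 2) (z : MvPowerSeries (Fin 3) ℂ) :
    DB j 1 0 (aU hκ z) := by
  have := (DB_ps hκ j (MvPowerSeries.pderiv ℂ 0 z)).mul (DB_un j)
  rwa [add_zero] at this

theorem DB_p0 {κ : ℕ} (hκ : 0 < κ) (j : Fin 2) (z : MvPowerSeries (Fin 3) ℂ) :
    DB j 1 0 (p0 hκ z) := by
  have := (DB_ps hκ j (MvPowerSeries.pderiv ℂ 1 z)).mul ((DB_nat j κ).mul (DB_Xpow j 0 κ))
  rwa [add_zero, add_zero] at this

theorem DB_p1 {κ : ℕ} (hκ : 0 < κ) (j : Fin 2) (z : MvPowerSeries (Fin 3) ℂ) :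
    DB j 1 0 (p1 hκ z) := by
  have := (DB_ps hκ j (MvPowerSeries.pderiv ℂ 2 z)).mul ((DB_nat j κ).mul (DB_Xpow j 1 κ))
  rwa [add_zero, add_zero] at this

theorem DB_p0' {κ : ℕ} (hκ : 0 < κ) (z : MvPowerSeries (Fin 3) ℂ) : DB 0 1 (-1) (p0 hκ z) := by
  have := (DB_ps hκ 0 (MvPowerSeries.pderiv ℂ 1 z)).mul
    ((DB_nat 0 κ).mul (DB_Xpow_self (j := 0) hκ))
  rwa [zero_add, zero_add] at this

theorem DB_p1' {κ : ℕ} (hκ : 0 < κ) (z : MvPowerSeries (Fin 3) ℂ) : DB 1 1 (-1) (p1 hκ z) := by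
  have := (DB_ps hκ 1 (MvPowerSeries.pderiv ℂ 2 z)).mul
    ((DB_nat 1 κ).mul (DB_Xpow_self (j := 1) hκ))
  rwa [zero_add, zero_add] at this

theorem minor {κ : ℕ} (hκ : 0 < κ) (z z' : MvPowerSeries (Fin 3) ℂ) :
    Sp (lg 0 (ps hκ z) * lg 1 (ps hκ z') - lg 1 (ps hκ z) * lg 0 (ps hκ z')) := by
  rw [lg0_ps, lg1_ps, lg0_ps, lg1_ps]
  refine ⟨p0 hκ z * (aU hκ z' + p1 hκ z') - (aU hκ z + p1 hκ z) * p0 hκ z',
    aU hκ z * p1 hκ z' - p1 hκ z * aU hκ z', by ring, ?_, ?_⟩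
  · have h1 := (DB_p0' hκ z).mul ((DB_aU hκ 0 z').add (DB_p1 hκ 0 z'))
    have h2 := ((DB_aU hκ 0 z).add (DB_p1 hκ 0 z)).mul (DB_p0' hκ z')
    rw [add_zero] at h1
    rw [zero_add] at h2
    exact h1.sub h2
  · have h1 := (DB_aU hκ 1 z).mul (DB_p1' hκ z')
    have h2 := (DB_p1' hκ z).mul (DB_aU hκ 1 z')
    rw [zero_add] at h1
    rw [add_zero] at h2
    exact h1.sub h2

theorem adj_Sp {κ : ℕ} (hκ : 0 < κ) (δ : Unit → Derivation ℂ (RatFunc ℂ) (RatFunc ℂ))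
    (z : Fin 3 → MvPowerSeries (Fin 3) ℂ) (i : Fin 3) :
    Sp ((jm (fun a => rowD δ (rw3 a)) fun i => ps hκ (z i)).adjugate i 0) := by
  have h1 : ∀ i, jm (fun a => rowD δ (rw3 a)) (fun i => ps hκ (z i)) 1 i = lg 0 (ps hκ (z i)) :=
    fun i => rfl
  have h2 : ∀ i, jm (fun a => rowD δ (rw3 a)) (fun i => ps hκ (z i)) 2 i = lg 1 (ps hκ (z i)) :=
    fun i => rfl
  rw [Matrix.adjugate_fin_three]
  fin_cases i
  · show Sp (jm (fun a => rowD δ (rw3 a)) (fun i => ps hκ (z i)) 1 1 *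
      jm (fun a => rowD δ (rw3 a)) (fun i => ps hκ (z i)) 2 2 -
      jm (fun a => rowD δ (rw3 a)) (fun i => ps hκ (z i)) 1 2 *
      jm (fun a => rowD δ (rw3 a)) (fun i => ps hκ (z i)) 2 1)
    rw [h1, h1, h2, h2]
    have := minor hκ (z 1) (z 2)
    rwa [mul_comm (lg 1 (ps hκ (z 1)))] at this
  · show Sp (-(jm (fun a => rowD δ (rw3 a)) (fun i => ps hκ (z i)) 1 0 *
      jm (fun a => rowD δ (rw3 a)) (fun i => ps hκ (z i)) 2 2) +
      jm (fun a => rowD δ (rw3 a)) (fun i => ps hκ (z i)) 1 2 *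
      jm (fun a => rowD δ (rw3 a)) (fun i => ps hκ (z i)) 2 0)
    rw [h1, h1, h2, h2]
    have := (minor hκ (z 0) (z 2)).neg
    rwa [neg_sub, mul_comm (lg 1 (ps hκ (z 0))), sub_eq_neg_add] at this
  · show Sp (jm (fun a => rowD δ (rw3 a)) (fun i => ps hκ (z i)) 1 0 *
      jm (fun a => rowD δ (rw3 a)) (fun i => ps hκ (z i)) 2 1 -
      jm (fun a => rowD δ (rw3 a)) (fun i => ps hκ (z i)) 1 1 *
      jm (fun a => rowD δ (rw3 a)) (fun i => ps hκ (z i)) 2 0)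
    rw [h1, h1, h2, h2]
    have := minor hκ (z 0) (z 1)
    rwa [mul_comm (lg 1 (ps hκ (z 0)))] at this

theorem X0X1 (κ : ℕ) : (MvPowerSeries.X 0 : A) ^ κ * MvPowerSeries.X 1 ^ κ =
    MvPowerSeries.monomial (PC.ex κ κ) 1 := by
  rw [Xpow, Xpow, MvPowerSeries.monomial_mul_monomial, one_mul]
  rfl

/-- The Jacobian determinant. -/
theorem det_ps {κ : ℕ} (hκ : 0 < κ) {δ : Derivation ℂ (RatFunc ℂ) (RatFunc ℂ)}
    (hX : δ RatFunc.X = 1) {z : Fin 3 → MvPowerSeries (Fin 3) ℂ} {D : MvPowerSeries (Fin 3) ℂ}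
    (hJ : (Matrix.of fun i j => MvPowerSeries.pderiv ℂ j (z i)).det =
      MvPowerSeries.X 0 ^ 2 * D) :
    (jm (fun a => rowD (fun _ : Unit => δ) (rw3 a)) fun i => ps hκ (z i)).det =
      MvPowerSeries.monomial (PC.ex (κ + 3) (κ + 3)) 1 *
        (MvPowerSeries.C (RatFunc.X ^ 2 : RatFunc ℂ) * ((κ : A) ^ 2 * ps hκ D)) := by
  set K : Matrix (Fin 3) (Fin 3) A :=
    Matrix.of fun a j => rowD (fun _ : Unit => δ) (rw3 a) (im κ j) with hK
  have h1 : (jm (fun a => rowD (fun _ : Unit => δ) (rw3 a)) fun i => ps hκ (z i)) =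
      K * ((Matrix.of fun i j => MvPowerSeries.pderiv ℂ j (z i)).map (ps hκ)).transpose := by
    ext1 a i
    rw [Matrix.mul_apply]
    show rowD (fun _ : Unit => δ) (rw3 a) (ps hκ (z i)) = _
    rw [chain (ps_zero hκ) _ (z i)]
    refine Finset.sum_congr rfl fun j _ => ?_
    rw [ps_X, mul_comm]
    rfl
  have h2 : ((Matrix.of fun i j => MvPowerSeries.pderiv ℂ j (z i)).map (ps hκ)).det =
      ps hκ (Matrix.of fun i j => MvPowerSeries.pderiv ℂ j (z i)).det :=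
    (AlgHom.map_det (ps hκ) _).symm
  have c0 : cw δ (im κ 0) = MvPowerSeries.monomial (PC.ex 1 1) 1 := cw_un hX
  have c1 : cw δ (im κ 1) = 0 := by
    show cw δ ((MvPowerSeries.X 0 : A) ^ κ) = 0
    rw [Xpow, cw_monomial]
  have c2 : cw δ (im κ 2) = 0 := by
    show cw δ ((MvPowerSeries.X 1 : A) ^ κ) = 0
    rw [Xpow, cw_monomial]
  have l00 := (lg_im κ 0).1
  have l01 := (lg_im κ 0).2.1
  have l02 := (lg_im κ 0).2.2
  have l10 := (lg_im κ 1).1
  have l11 := (lg_im κ 1).2.1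
  have l12 := (lg_im κ 1).2.2
  rw [Finsupp.single_eq_same] at l01 l12
  rw [Finsupp.single_eq_of_ne (by decide), Nat.cast_zero, zero_mul] at l02 l11
  have h3 : K.det = MvPowerSeries.monomial (PC.ex 1 1) 1 *
      (((κ : A) * MvPowerSeries.X 0 ^ κ) * ((κ : A) * MvPowerSeries.X 1 ^ κ)) := by
    rw [Matrix.det_fin_three]
    have k00 : K 0 0 = MvPowerSeries.monomial (PC.ex 1 1) 1 := c0
    have k01 : K 0 1 = 0 := c1
    have k02 : K 0 2 = 0 := c2
    have k11 : K 1 1 = (κ : A) * MvPowerSeries.X 0 ^ κ := l01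
    have k12 : K 1 2 = 0 := l02
    have k22 : K 2 2 = (κ : A) * MvPowerSeries.X 1 ^ κ := l12
    rw [k00, k01, k02, k11, k12, k22]
    ring
  have h5 : (MvPowerSeries.monomial (PC.ex (κ + 3) (κ + 3)) 1 : A) =
      MvPowerSeries.monomial (PC.ex κ κ) 1 * (MvPowerSeries.monomial (PC.ex 1 1) 1 *
        MvPowerSeries.monomial (PC.ex 2 2) 1) := by
    rw [mono_mul, mono_mul]
  have h6 : ps hκ (MvPowerSeries.X 0) = un := ps_X hκ 0
  rw [h1, Matrix.det_mul, Matrix.det_transpose, h2, hJ, h3, map_mul, map_pow, h6, un_pow, h5,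
    ← X0X1 κ]
  ring

/-- The value of `f`. -/
theorem ps_f {κ d : ℕ} (hκ : 0 < κ) {f : MvPolynomial (Fin 3) ℂ}
    {ξ : Fin 3 → MvPowerSeries (Fin 3) ℂ} {U : MvPowerSeries (Fin 3) ℂ}
    (hf : MvPowerSeries.subst (fun i => MvPowerSeries.X 0 * ξ i) (f : MvPowerSeries (Fin 3) ℂ) =
      MvPowerSeries.X 0 ^ d * ((MvPowerSeries.X 1 * MvPowerSeries.X 2 + MvPowerSeries.X 0 ^ κ) *
        U)) :
    aeval (fun i => ps hκ (MvPowerSeries.X 0 * ξ i)) f =
      MvPowerSeries.monomial (PC.ex (d + κ) (d + κ)) 1 *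
        (MvPowerSeries.C (RatFunc.X ^ d * (1 + RatFunc.X ^ κ) : RatFunc ℂ) * ps hκ U) := by
  have h1 : aeval (fun i => ps hκ (MvPowerSeries.X 0 * ξ i)) f =
      ps hκ (MvPowerSeries.subst (fun i => MvPowerSeries.X 0 * ξ i)
        (f : MvPowerSeries (Fin 3) ℂ)) := by
    rw [MvPowerSeries.subst_coe]
    have h2 := comp_aeval (R := ℂ) (fun i => MvPowerSeries.X 0 * ξ i) (ps hκ)
    exact (DFunLike.congr_fun h2 f).symm
  have h3 : ps hκ (MvPowerSeries.X 0) = un := ps_X hκ 0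
  have h4 : ps hκ (MvPowerSeries.X 1) = MvPowerSeries.X 0 ^ κ := ps_X hκ 1
  have h5 : ps hκ (MvPowerSeries.X 2) = MvPowerSeries.X 1 ^ κ := ps_X hκ 2
  rw [h1, hf, map_mul, map_mul, map_add, map_mul, map_pow, map_pow, h3, h4, h5, X0X1, un_pow,
    un_pow, ← mono_mul d κ, map_mul, map_add, map_one MvPowerSeries.C]
  ring

/-! ### The differential equation -/

theorem hom_poly {a b Q : Polynomial ℂ} (ha : a ≠ 0) (hb : b ≠ 0) {c s D : ℂ} (hc : c ≠ 0)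
    (hQ : Q.eval c = 0) (hQ' : (Polynomial.derivative Q).eval c ≠ 0)
    (h : Polynomial.X * Q * (Polynomial.derivative a * b - a * Polynomial.derivative b) +
      Polynomial.C s * (Polynomial.C D * Q + Polynomial.X * Polynomial.derivative Q) *
        (a * b) = 0) : ∃ m k : ℕ, (m : ℂ) - k + s = 0 := by
  obtain ⟨a₁, ha1, ha2⟩ :=
    Polynomial.exists_eq_pow_rootMultiplicity_mul_and_not_dvd a ha c
  obtain ⟨b₁, hb1, hb2⟩ :=
    Polynomial.exists_eq_pow_rootMultiplicity_mul_and_not_dvd b hb c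
  obtain ⟨m, hm⟩ : ∃ m, m = Polynomial.rootMultiplicity c a := ⟨_, rfl⟩
  obtain ⟨k, hk⟩ : ∃ k, k = Polynomial.rootMultiplicity c b := ⟨_, rfl⟩
  rw [← hm] at ha1
  rw [← hk] at hb1
  refine ⟨m, k, ?_⟩
  obtain ⟨Q₁, hQ1⟩ := Polynomial.dvd_iff_isRoot.2 hQ
  set L : Polynomial ℂ := Polynomial.X - Polynomial.C c with hL
  have hL0 : L ≠ 0 := Polynomial.X_sub_C_ne_zero c
  have hdL : Polynomial.derivative L = 1 := by rw [hL, Polynomial.derivative_X_sub_C]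
  have hLc : Polynomial.eval c L = 0 := by
    rw [hL, Polynomial.eval_sub, Polynomial.eval_X, Polynomial.eval_C, sub_self]
  have hQ2 : Polynomial.eval c (Polynomial.derivative Q) = Polynomial.eval c Q₁ := by
    rw [hQ1, Polynomial.derivative_mul, hdL, one_mul, Polynomial.eval_add, Polynomial.eval_mul,
      hLc, zero_mul, add_zero]
  have da : L * Polynomial.derivative a = L ^ m * (Polynomial.C (m : ℂ) * a₁ +
      L * Polynomial.derivative a₁) := by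
    rw [ha1, Polynomial.derivative_mul, Polynomial.derivative_pow, hdL, mul_one]
    rcases m with _ | m
    · simp
    · rw [Nat.add_sub_cancel]
      ring
  have db : L * Polynomial.derivative b = L ^ k * (Polynomial.C (k : ℂ) * b₁ +
      L * Polynomial.derivative b₁) := by
    rw [hb1, Polynomial.derivative_mul, Polynomial.derivative_pow, hdL, mul_one]
    rcases k with _ | k
    · simp
    · rw [Nat.add_sub_cancel]
      ring
  have h1 : L ^ (m + k) * (Polynomial.X * Q₁ * ((Polynomial.C (m : ℂ) * a₁ +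
        L * Polynomial.derivative a₁) * b₁ -
      a₁ * (Polynomial.C (k : ℂ) * b₁ + L * Polynomial.derivative b₁)) +
      Polynomial.C s * (Polynomial.C D * (L * Q₁) + Polynomial.X * Polynomial.derivative Q) *
        (a₁ * b₁)) = 0 := by
    rw [← h]
    have e1 : Polynomial.X * Q * (Polynomial.derivative a * b - a * Polynomial.derivative b) =
        Polynomial.X * Q₁ * ((L * Polynomial.derivative a) * b -
          a * (L * Polynomial.derivative b)) := by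
      conv_lhs => rw [hQ1]
      ring
    rw [e1, da, db]
    conv_rhs => rw [ha1, hb1]
    rw [← hQ1]
    ring
  have h2 := (mul_eq_zero.1 h1).resolve_left (pow_ne_zero _ hL0)
  have h3 := congrArg (Polynomial.eval c) h2
  simp only [Polynomial.eval_add, Polynomial.eval_mul, Polynomial.eval_sub, Polynomial.eval_C,
    Polynomial.eval_X, hLc, hQ2, zero_mul, add_zero, mul_zero, zero_add,
    Polynomial.eval_zero] at h3
  have ha3 : Polynomial.eval c a₁ ≠ 0 := fun h => ha2 (Polynomial.dvd_iff_isRoot.2 h)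
  have hb3 : Polynomial.eval c b₁ ≠ 0 := fun h => hb2 (Polynomial.dvd_iff_isRoot.2 h)
  rw [hQ2] at hQ'
  have h4 : c * Polynomial.eval c Q₁ * (Polynomial.eval c a₁ * Polynomial.eval c b₁) *
      ((m : ℂ) - k + s) = 0 := by
    linear_combination h3
  exact (mul_eq_zero.1 h4).resolve_left
    (mul_ne_zero (mul_ne_zero hc hQ') (mul_ne_zero ha3 hb3))

theorem hom_rat {δ : Derivation ℂ (RatFunc ℂ) (RatFunc ℂ)}
    (hδ : ∀ P : Polynomial ℂ, δ (algebraMap (Polynomial ℂ) (RatFunc ℂ) P) =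
      algebraMap (Polynomial ℂ) (RatFunc ℂ) (Polynomial.derivative P)) {h : RatFunc ℂ}
    (hh : h ≠ 0) {c s D : ℂ} {Q : Polynomial ℂ} (hc : c ≠ 0)
    (hQ : Q.eval c = 0) (hQ' : (Polynomial.derivative Q).eval c ≠ 0)
    (he : RatFunc.X * algebraMap (Polynomial ℂ) (RatFunc ℂ) Q * δ h +
      RatFunc.C s * (RatFunc.C D * algebraMap (Polynomial ℂ) (RatFunc ℂ) Q +
        RatFunc.X * algebraMap (Polynomial ℂ) (RatFunc ℂ) (Polynomial.derivative Q)) * h = 0) :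
    ∃ m k : ℕ, (m : ℂ) - k + s = 0 := by
  have hb0 : h.denom ≠ 0 := RatFunc.denom_ne_zero h
  have ha0 : h.num ≠ 0 := RatFunc.num_ne_zero hh
  have hb1 : algebraMap (Polynomial ℂ) (RatFunc ℂ) h.denom ≠ 0 := RatFunc.algebraMap_ne_zero hb0
  have e1 : h * algebraMap (Polynomial ℂ) (RatFunc ℂ) h.denom =
      algebraMap (Polynomial ℂ) (RatFunc ℂ) h.num :=
    ((div_eq_iff hb1).1 (RatFunc.num_div_denom h)).symm
  have e2 := congrArg δ e1
  rw [Derivation.leibniz, smul_eq_mul, smul_eq_mul, hδ, hδ] at e2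
  refine hom_poly ha0 hb0 (c := c) (s := s) (D := D) (Q := Q) hc hQ hQ' ?_
  apply RatFunc.algebraMap_injective ℂ
  rw [map_zero]
  simp only [map_add, map_mul, map_sub, RatFunc.algebraMap_X, RatFunc.algebraMap_C]
  rw [← e1, ← e2]
  linear_combination (algebraMap (Polynomial ℂ) (RatFunc ℂ) h.denom) ^ 2 * he

theorem intDegree_Xpow (k : ℕ) : ((RatFunc.X : RatFunc ℂ) ^ k).intDegree = k := by
  induction k with
  | zero => rw [pow_zero, RatFunc.intDegree_one]; rfl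
  | succ k ih =>
    rw [pow_succ, RatFunc.intDegree_mul (pow_ne_zero _ RatFunc.X_ne_zero) RatFunc.X_ne_zero,
      ih, RatFunc.intDegree_X]
    push_cast
    ring

theorem one_add {κ : ℕ} (hκ : 0 < κ) : (1 + RatFunc.X ^ κ : RatFunc ℂ) ≠ 0 ∧
    (1 + RatFunc.X ^ κ : RatFunc ℂ).intDegree = κ := by
  have h1 : (1 + RatFunc.X ^ κ : RatFunc ℂ) =
      algebraMap (Polynomial ℂ) (RatFunc ℂ) (Polynomial.X ^ κ + Polynomial.C 1) := by
    rw [map_add, map_pow, RatFunc.algebraMap_X, map_one, map_one, add_comm]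
  rw [h1]
  constructor
  · exact RatFunc.algebraMap_ne_zero (Polynomial.X_pow_add_C_ne_zero hκ 1)
  · rw [RatFunc.intDegree_polynomial, Polynomial.natDegree_X_pow_add_C]

/-- The equation has no solution of degree at most `κ + 2`. -/
theorem no_sol {δ : Derivation ℂ (RatFunc ℂ) (RatFunc ℂ)}
    (hδ : ∀ P : Polynomial ℂ, δ (algebraMap (Polynomial ℂ) (RatFunc ℂ) P) =
      algebraMap (Polynomial ℂ) (RatFunc ℂ) (Polynomial.derivative P)) {d κ : ℕ} (hd : 2 ≤ d)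
    (hd3 : d ≠ 3) (hκ : 0 < κ) {u c₀ : ℂ} (hu : u ≠ 0) (hc₀ : c₀ ≠ 0) {φ : (RatFunc ℂ)ˣ}
    (hφ : (φ : RatFunc ℂ) = RatFunc.X ^ d * (1 + RatFunc.X ^ κ) * algebraMap ℂ (RatFunc ℂ) u)
    {r : RatFunc ℂ} (hr : r ∈ dg 1 ((κ : ℤ) + 2))
    (he : algebraMap ℂ (RatFunc ℂ) c₀ * RatFunc.X ^ 2 = δ r +
      algebraMap ℂ (RatFunc ℂ) (-(((κ : ℂ) + 3) / ((d : ℂ) + κ))) *
        (((φ⁻¹ : (RatFunc ℂ)ˣ) : RatFunc ℂ) * δ φ) * r) : False := by
  have hX : δ RatFunc.X = 1 := by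
    have := hδ Polynomial.X
    rwa [Polynomial.derivative_X, map_one, RatFunc.algebraMap_X] at this
  have hC : ∀ c : ℂ, δ (algebraMap ℂ (RatFunc ℂ) c) = 0 := fun c => Derivation.map_algebraMap δ c
  have hd1 : (d : ℂ) + κ ≠ 0 := by
    have : d + κ ≠ 0 := by omega
    exact_mod_cast this
  have hκC : (κ : ℂ) ≠ 0 := Nat.cast_ne_zero.2 hκ.ne'
  have hd3' : (κ : ℂ) * (3 - d) ≠ 0 := by
    refine mul_ne_zero hκC fun h => ?_
    apply hd3
    have h1 : (d : ℂ) = 3 := (sub_eq_zero.1 h).symm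
    exact_mod_cast h1
  obtain ⟨s, hs⟩ : ∃ s : ℂ, s = -(((κ : ℂ) + 3) / ((d : ℂ) + κ)) := ⟨_, rfl⟩
  rw [← hs] at he
  have hs1 : s * ((d : ℂ) + κ) = -((κ : ℂ) + 3) := by
    rw [hs]
    field_simp
  have hs2 : 3 + s * d ≠ 0 := by
    intro h
    apply hd3'
    have h1 : (3 + s * d) * ((d : ℂ) + κ) = κ * (3 - d) := by
      linear_combination (d : ℂ) * hs1
    rw [← h1, h, zero_mul]
  set x : RatFunc ℂ := RatFunc.X with hx
  have hx0 : x ≠ 0 := RatFunc.X_ne_zero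
  have hφ0 : (φ : RatFunc ℂ) ≠ 0 := Units.ne_zero φ
  obtain ⟨hU, hUd⟩ := one_add hκ
  rw [← hx] at hU hUd
  have hu0 : algebraMap ℂ (RatFunc ℂ) u ≠ 0 :=
    (map_ne_zero_iff _ (algebraMap ℂ (RatFunc ℂ)).injective).2 hu
  have hxκ : x * (κ * x ^ (κ - 1)) = κ * x ^ κ := by
    obtain ⟨k, rfl⟩ : ∃ k, κ = k + 1 := ⟨κ - 1, by omega⟩
    rw [Nat.add_sub_cancel]
    ring
  have hδQ : δ (1 + x ^ κ) = κ * x ^ (κ - 1) := by
    rw [map_add, Derivation.map_one_eq_zero, Derivation.leibniz_pow, hX]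
    simp only [smul_eq_mul, mul_one, zero_add, nsmul_eq_mul]
  -- the logarithmic derivative
  have hlog : x * (1 + x ^ κ) * (((φ⁻¹ : (RatFunc ℂ)ˣ) : RatFunc ℂ) * δ φ) =
      (d : RatFunc ℂ) * (1 + x ^ κ) + κ * x ^ κ := by
    have h1 : δ φ = algebraMap ℂ (RatFunc ℂ) u * ((d : RatFunc ℂ) * x ^ (d - 1) * (1 + x ^ κ) +
        x ^ d * (κ * x ^ (κ - 1))) := by
      rw [hφ, Derivation.leibniz, Derivation.leibniz, Derivation.leibniz_pow, hδQ, hC, hX]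
      simp only [smul_eq_mul, mul_zero, mul_one, zero_add, nsmul_eq_mul]
      ring
    have h2 : x * δ φ = algebraMap ℂ (RatFunc ℂ) u * x ^ d *
        ((d : RatFunc ℂ) * (1 + x ^ κ) + κ * x ^ κ) := by
      rw [h1, ← hxκ]
      obtain ⟨k, rfl⟩ : ∃ k, d = k + 1 := ⟨d - 1, by omega⟩
      rw [Nat.add_sub_cancel]
      ring
    have h3 : ((φ⁻¹ : (RatFunc ℂ)ˣ) : RatFunc ℂ) * (φ : RatFunc ℂ) = 1 := Units.inv_mul φ
    have h4 : x * (1 + x ^ κ) * (((φ⁻¹ : (RatFunc ℂ)ˣ) : RatFunc ℂ) * δ φ) =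
        ((φ⁻¹ : (RatFunc ℂ)ˣ) : RatFunc ℂ) * (x ^ d * (1 + x ^ κ) *
          algebraMap ℂ (RatFunc ℂ) u) * ((d : RatFunc ℂ) * (1 + x ^ κ) + κ * x ^ κ) := by
      linear_combination (1 + x ^ κ) * ((φ⁻¹ : (RatFunc ℂ)ˣ) : RatFunc ℂ) * h2
    rw [h4, ← hφ, h3, one_mul]
  obtain ⟨c', hc'⟩ : ∃ c' : ℂ, c' * (3 + s * d) = c₀ :=
    ⟨c₀ / (3 + s * d), div_mul_cancel₀ _ hs2⟩
  have hc'0 : c' ≠ 0 := by
    rintro rfl
    exact hc₀ (by rw [← hc', zero_mul])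
  have hc'A : algebraMap ℂ (RatFunc ℂ) c' ≠ 0 :=
    (map_ne_zero_iff _ (algebraMap ℂ (RatFunc ℂ)).injective).2 hc'0
  -- the particular solution
  obtain ⟨r₁, hr₁⟩ : ∃ r₁ : RatFunc ℂ, r₁ = algebraMap ℂ (RatFunc ℂ) c' * (x ^ 3 * (1 + x ^ κ)) :=
    ⟨_, rfl⟩
  have hr10 : r₁ ≠ 0 := by
    rw [hr₁]
    exact mul_ne_zero hc'A (mul_ne_zero (pow_ne_zero _ hx0) hU)
  have hdeg : r₁.intDegree = (κ : ℤ) + 3 := by
    rw [hr₁, RatFunc.intDegree_mul hc'A (mul_ne_zero (pow_ne_zero _ hx0) hU),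
      RatFunc.intDegree_mul (pow_ne_zero _ hx0) hU, hUd, hx, intDegree_Xpow,
      RatFunc.algebraMap_eq_C, RatFunc.intDegree_C]
    push_cast
    ring
  have hr1e : δ r₁ = algebraMap ℂ (RatFunc ℂ) c' * (3 * x ^ 2 * (1 + x ^ κ) +
      x ^ 3 * (κ * x ^ (κ - 1))) := by
    rw [hr₁, Derivation.leibniz, Derivation.leibniz, Derivation.leibniz_pow, hδQ, hC, hX]
    simp only [smul_eq_mul, mul_zero, mul_one, add_zero, nsmul_eq_mul]
    push_cast
    ring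
  have hsA : algebraMap ℂ (RatFunc ℂ) s * ((d : RatFunc ℂ) + κ) = -((κ : RatFunc ℂ) + 3) := by
    have := congrArg (algebraMap ℂ (RatFunc ℂ)) hs1
    rwa [map_mul, map_add, map_natCast, map_natCast, map_neg, map_add, map_natCast,
      map_ofNat] at this
  have hcA : algebraMap ℂ (RatFunc ℂ) c' * (3 + algebraMap ℂ (RatFunc ℂ) s * d) =
      algebraMap ℂ (RatFunc ℂ) c₀ := by
    have := congrArg (algebraMap ℂ (RatFunc ℂ)) hc'
    rwa [map_mul, map_add, map_ofNat, map_mul, map_natCast] at this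
  -- the difference
  have hne : r - r₁ ≠ 0 := by
    intro h
    have h1 : r = r₁ := sub_eq_zero.1 h
    rw [h1] at hr
    rcases hr with h2 | h2
    · exact hr10 h2
    · rw [hdeg] at h2
      push_cast at h2
      omega
  set S : RatFunc ℂ := algebraMap ℂ (RatFunc ℂ) s with hS
  set L : RatFunc ℂ := ((φ⁻¹ : (RatFunc ℂ)ˣ) : RatFunc ℂ) * δ φ with hL
  have e1 : x * (1 + x ^ κ) * (δ r₁ + S * L * r₁) = x * (1 + x ^ κ) *
      (algebraMap ℂ (RatFunc ℂ) c₀ * x ^ 2) := by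
    have e2 : x * (1 + x ^ κ) * (δ r₁ + S * L * r₁) = x * (1 + x ^ κ) * δ r₁ +
        S * r₁ * ((d : RatFunc ℂ) * (1 + x ^ κ) + κ * x ^ κ) := by
      linear_combination S * r₁ * hlog
    rw [e2, hr1e, hr₁, ← hcA]
    linear_combination algebraMap ℂ (RatFunc ℂ) c' * x ^ 3 * x ^ κ * (1 + x ^ κ) * hsA +
      algebraMap ℂ (RatFunc ℂ) c' * x ^ 3 * (1 + x ^ κ) * hxκ
  have e3 : x * (1 + x ^ κ) * (δ (r - r₁) + S * L * (r - r₁)) = 0 := by
    rw [map_sub]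
    linear_combination (-(x * (1 + x ^ κ))) * he - e1
  have e4 : x * (1 + x ^ κ) * δ (r - r₁) + S * ((d : RatFunc ℂ) * (1 + x ^ κ) + κ * x ^ κ) *
      (r - r₁) = 0 := by
    linear_combination e3 - S * (r - r₁) * hlog
  obtain ⟨c, hc⟩ := IsAlgClosed.exists_pow_nat_eq (-1 : ℂ) hκ
  have hc0 : c ≠ 0 := by
    rintro rfl
    rw [zero_pow hκ.ne'] at hc
    exact neg_ne_zero.2 one_ne_zero hc.symm
  have hQm : algebraMap (Polynomial ℂ) (RatFunc ℂ) (1 + Polynomial.X ^ κ) = 1 + x ^ κ := by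
    rw [map_add, map_one, map_pow, RatFunc.algebraMap_X]
  have hQd : Polynomial.derivative (1 + Polynomial.X ^ κ : Polynomial ℂ) =
      Polynomial.C (κ : ℂ) * Polynomial.X ^ (κ - 1) := by
    rw [Polynomial.derivative_add, Polynomial.derivative_one, zero_add,
      Polynomial.derivative_X_pow]
  have hQm' : algebraMap (Polynomial ℂ) (RatFunc ℂ)
      (Polynomial.derivative (1 + Polynomial.X ^ κ)) = κ * x ^ (κ - 1) := by
    rw [hQd, map_mul, map_pow, RatFunc.algebraMap_X, RatFunc.algebraMap_C, map_natCast]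
  obtain ⟨m, k, hmk⟩ := hom_rat hδ hne (c := c) (s := s) (D := (d : ℂ))
    (Q := 1 + Polynomial.X ^ κ) hc0
    (by rw [Polynomial.eval_add, Polynomial.eval_one, Polynomial.eval_pow, Polynomial.eval_X, hc,
      add_neg_cancel])
    (by
      rw [hQd, Polynomial.eval_mul, Polynomial.eval_C, Polynomial.eval_pow, Polynomial.eval_X]
      exact mul_ne_zero hκC (pow_ne_zero _ hc0))
    (by
      have h2 : (RatFunc.C s : RatFunc ℂ) = S := by rw [hS, RatFunc.algebraMap_eq_C]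
      have h3 : (RatFunc.C (d : ℂ) : RatFunc ℂ) = d := map_natCast _ d
      rw [hQm, hQm', h2, h3, ← e4]
      linear_combination S * (r - r₁) * hxκ)
  -- the arithmetic
  have h1 : ((k : ℂ) - m) * (d + κ) = -((κ : ℂ) + 3) := by
    rw [← hs1]
    linear_combination (-((d : ℂ) + κ)) * hmk
  have h2 : ((k : ℤ) - m) * ((d : ℤ) + κ) = -((κ : ℤ) + 3) := by exact_mod_cast h1
  have h3 : ((d : ℤ) + κ) ∣ ((κ : ℤ) + 3) := ⟨(m : ℤ) - k, by linear_combination h2⟩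
  have h4 : (d + κ) ∣ (κ + 3) := by exact_mod_cast h3
  have h5 := Nat.le_of_dvd (by omega) h4
  have h6 : d = 2 := by omega
  subst h6
  obtain ⟨t, ht⟩ := h4
  rcases t with _ | t
  · omega
  · rcases t with _ | t
    · omega
    · have h7 : (2 + κ) * (t + 1 + 1) = (2 + κ) * t + (2 + κ) + (2 + κ) := by ring
      rw [h7] at ht
      have := Nat.zero_le ((2 + κ) * t)
      omega

end NodeK

open ARL SI.Node in
/-- **The root `-(κ+3)/(d+κ)`.** In the coordinates `(u, X, Y)` (`X_i = u ξ_i(u, X, Y)`) one has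
`f = u^d (X Y + u^κ) U`. As `SI.root_node` (`agI/Node.lean`, `κ = 1`), with
`u = T x y`, `X = x^κ`, `Y = y^κ`: `f = (x y)^{d+κ} (T^d (1 + T^κ) U(0) + ⋯)`, the Jacobian
determinant in `(T, log x, log y)` is `(x y)^{κ+3} (κ^2 T^2 D(0) + ⋯)`. The coefficient of
`u^a X^b Y^c` is `T^a x^{a+κb} y^{a+κc}`, so all series satisfy `DB j 1 0`; with `U = u ∂_u`,
`P_0 = κ X ∂_X`, `P_1 = κ Y ∂_Y` one has `lg_j = U + P_j`, the minors of the rows `lg_0, lg_1` are sums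
of terms with a factor `P_0 z` or `P_1 z`, and `P_j z` satisfies `DB j 1 (-1)` (even `-κ`). The
antiderivative lies in `dg 1 (κ+2)`, but the solution `c T^3 (1 + T^κ)` of
`c₀ T^2 = δ r + s (φ⁻¹ δ φ) r`, `φ = c' T^d (1 + T^κ)`, has degree `κ + 3`, and there is no solution of
the homogeneous equation, because `s` is not an integer. -/
theorem root_nodeK {f : MvPolynomial (Fin 3) ℂ} {d κ : ℕ} (hd : 2 ≤ d) (hd3 : d ≠ 3)
    (hκ : 0 < κ) {ξ : Fin 3 → MvPowerSeries (Fin 3) ℂ} {U D : MvPowerSeries (Fin 3) ℂ}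
    (hU : MvPowerSeries.constantCoeff U ≠ 0) (hD : MvPowerSeries.constantCoeff D ≠ 0)
    (hf : MvPowerSeries.subst (fun i => MvPowerSeries.X 0 * ξ i) (f : MvPowerSeries (Fin 3) ℂ) =
      MvPowerSeries.X 0 ^ d * ((MvPowerSeries.X 1 * MvPowerSeries.X 2 + MvPowerSeries.X 0 ^ κ) * U))
    (hJ : (Matrix.of fun i j => MvPowerSeries.pderiv ℂ j
      (MvPowerSeries.X 0 * ξ i : MvPowerSeries (Fin 3) ℂ)).det = MvPowerSeries.X 0 ^ 2 * D)
    {b : Polynomial ℂ} (hb : InPs (f : MvPowerSeries (Fin 3) ℂ) 1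
      (b.map (MvPowerSeries.C (σ := Fin 3) (R := ℂ)))) :
    b.eval (-(((κ : ℂ) + 3) / ((d : ℂ) + κ))) = 0 := by
  by_contra hbs
  obtain ⟨δ, hδ⟩ := PC.exists_deriv
  have hX : δ RatFunc.X = 1 := by
    have := hδ Polynomial.X
    rwa [Polynomial.derivative_X, map_one, RatFunc.algebraMap_X] at this
  have hV := NodeK.ps_f hκ hf
  have hdet := NodeK.det_ps hκ hX hJ
  set Θ : Fin 3 → Node.A := fun i => NodeK.ps hκ (MvPowerSeries.X 0 * ξ i) with hΘ
  have hΘ0 : ∀ i, MvPowerSeries.constantCoeff (Θ i) = 0 := fun i => by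
    rw [hΘ]
    dsimp only
    rw [NodeK.cc_ps, map_mul, MvPowerSeries.constantCoeff_X, zero_mul, map_zero]
  have hΘD : ∀ j i, DB j 1 0 (Θ i) := fun j i => NodeK.DB_ps hκ j _
  have hsub := MvPowerSeries.hasSubst_of_constantCoeff_zero hΘ0
  set ϑ : MvPowerSeries (Fin 3) ℂ →ₐ[ℂ] Node.A := MvPowerSeries.substAlgHom hsub with hϑ
  have hϑX : ∀ i, ϑ (MvPowerSeries.X i) = Θ i := fun i => MvPowerSeries.substAlgHom_X hsub i
  have hϑc : ∀ c, ϑ c = MvPowerSeries.subst Θ c := fun c => by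
    rw [hϑ, MvPowerSeries.coe_substAlgHom]
  set V : Node.A := MvPowerSeries.C (RatFunc.X ^ d * (1 + RatFunc.X ^ κ) : RatFunc ℂ) *
    NodeK.ps hκ U with hVdef
  have hϑf : ϑ (f : MvPowerSeries (Fin 3) ℂ) =
      MvPowerSeries.monomial (PC.ex (d + κ) (d + κ)) 1 * V := by
    rw [hϑc, MvPowerSeries.subst_coe]
    exact hV
  have hV0 : MvPowerSeries.constantCoeff V = RatFunc.X ^ d * (1 + RatFunc.X ^ κ) *
      algebraMap ℂ (RatFunc ℂ) (MvPowerSeries.constantCoeff U) := by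
    rw [hVdef, map_mul, MvPowerSeries.constantCoeff_C, NodeK.cc_ps]
  obtain ⟨hU1, hUd⟩ := NodeK.one_add hκ
  have hu0 : algebraMap ℂ (RatFunc ℂ) (MvPowerSeries.constantCoeff U) ≠ 0 :=
    (map_ne_zero_iff _ (algebraMap ℂ (RatFunc ℂ)).injective).2 hU
  have hφ1 : (RatFunc.X ^ d * (1 + RatFunc.X ^ κ) : RatFunc ℂ) ≠ 0 :=
    mul_ne_zero (pow_ne_zero _ RatFunc.X_ne_zero) hU1
  obtain ⟨φ, hφ⟩ : ∃ φ : (RatFunc ℂ)ˣ, (φ : RatFunc ℂ) = RatFunc.X ^ d *
      (1 + RatFunc.X ^ κ) * algebraMap ℂ (RatFunc ℂ) (MvPowerSeries.constantCoeff U) :=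
    ⟨Units.mk0 _ (mul_ne_zero hφ1 hu0), rfl⟩
  have hdeg : (φ : RatFunc ℂ).intDegree = (d : ℤ) + κ := by
    rw [hφ, RatFunc.intDegree_mul hφ1 hu0,
      RatFunc.intDegree_mul (pow_ne_zero _ RatFunc.X_ne_zero) hU1, hUd, NodeK.intDegree_Xpow,
      RatFunc.algebraMap_eq_C, RatFunc.intDegree_C, add_zero]
  have hVD : ∀ j, DB j 1 ((1 : ℕ) * (φ : RatFunc ℂ).intDegree) V := fun j => by
    refine DB_cancel (γ := PC.ex (d + κ) (d + κ)) ?_ ?_
    · rw [ex_apply, hdeg]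
      push_cast
      ring
    · rw [← hϑf, hϑc]
      exact DB.mv_subst hsub (hΘD j) _
  have hfun : (fun i => ϑ (MvPowerSeries.X i)) = Θ := funext hϑX
  have main := residue_cornerP (R := RatFunc ℂ) (β := Unit) (τ := Fin 2) rw3
    (δ := fun _ => δ) (fun _ _ _ => rfl) (θ := ϑ) (fun i => by rw [hϑX]; exact hΘ0 i)
    (f := (f : MvPowerSeries (Fin 3) ℂ)) (N := PC.ex (d + κ) (d + κ)) (F₁ := V) hϑf
    (φ := φ) (by rw [hV0, hφ]) (ν := κ + 3) (D := d + κ) (by omega)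
    (s := -(((κ : ℂ) + 3) / ((d : ℂ) + κ))) (by push_cast; ring) (Mon := ∅) (M := fun _ => 0)
    (fun i hi => absurd hi (Finset.notMem_empty i)) (l := fun _ => 0)
    (E := PC.ex (κ + 3) (κ + 3))
    (J' := MvPowerSeries.C (RatFunc.X ^ 2 : RatFunc ℂ) * ((κ : Node.A) ^ 2 * NodeK.ps hκ D))
    (by rw [hfun]; exact hdet) (fun j => by
      rw [ex_apply, ex_apply, Finset.sum_empty]
      have hd1 : (d : ℂ) + κ ≠ 0 := by
        have : d + κ ≠ 0 := by omega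
        exact_mod_cast this
      push_cast
      field_simp
      ring) (j₀ := 0) (by rw [ex_apply]; omega)
    (fun i hi => absurd hi (Finset.notMem_empty i)) hb hbs (P := fun _ => dg 1 ((κ : ℤ) + 2))
  suffices hP : _ from by
    obtain ⟨r, hr, hr'⟩ := main hP
    rw [Finset.univ_unique, Finset.sum_singleton] at hr'
    refine NodeK.no_sol hδ hd hd3 hκ (c₀ := (κ : ℂ) ^ 2 * MvPowerSeries.constantCoeff D) hU
      (mul_ne_zero (pow_ne_zero _ (Nat.cast_ne_zero.2 hκ.ne')) hD) hφ (hr default) ?_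
    have hκ2 : MvPowerSeries.constantCoeff ((κ : Node.A) ^ 2) = (κ : RatFunc ℂ) ^ 2 := by
      rw [map_pow, map_natCast]
    have hJ0 : MvPowerSeries.constantCoeff (MvPowerSeries.C (RatFunc.X ^ 2 : RatFunc ℂ) *
        ((κ : Node.A) ^ 2 * NodeK.ps hκ D)) = RatFunc.X ^ 2 * ((κ : RatFunc ℂ) ^ 2 *
        algebraMap ℂ (RatFunc ℂ) (MvPowerSeries.constantCoeff D)) := by
      rw [map_mul, MvPowerSeries.constantCoeff_C, map_mul, hκ2, NodeK.cc_ps]
    rw [← hr', hJ0, map_mul, map_pow, map_natCast]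
    ring
  · intro H F₂ hF₂ hH k L i a b' c ha
    rw [hfun, rw3_inr ha]
    obtain ⟨m₁, m₂, em, hm₁, hm₂⟩ := NodeK.adj_Sp hκ (fun _ => δ)
      (fun i => MvPowerSeries.X 0 * ξ i) i
    have key : ∀ (j : Fin 2) (m : Node.A), DB j 1 (-1) m →
        cz (epsR (PC.ex (d + κ) (d + κ)) ∅ (fun _ => 0)
          (fun j => (PC.ex (κ + 3) (κ + 3) j : ℤ) - PC.ex (d + κ) (d + κ) j) k L) (wG F₂ H k *
          (m * ϑ c)) ∈ dg 1 ((κ : ℤ) + 2) := by
      intro j m hm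
      have h1 := DB.weight hF₂ (by rw [hV0, hφ]) (hVD j) hH k
      have h3 : DB j 1 0 (ϑ c) := by
        rw [hϑc]
        exact DB.mv_subst hsub (hΘD j) c
      refine dg_mono ?_ ((h1.mul (hm.mul h3)).cz _)
      have h5 : epsR (PC.ex (d + κ) (d + κ)) (∅ : Finset (Fin 3)) (fun _ => 0)
          (fun j => (PC.ex (κ + 3) (κ + 3) j : ℤ) - PC.ex (d + κ) (d + κ) j) k L j =
          ((κ : ℤ) + 3) - ((d : ℤ) + κ) + k * ((d : ℤ) + κ) := by
        unfold epsR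
        dsimp only
        rw [ex_apply, ex_apply, Finset.sum_empty]
        push_cast
        ring
      rw [h5, hdeg]
      push_cast
      refine le_of_eq ?_
      ring
    have e : (jm (fun a => rowD (fun _ : Unit => δ) (rw3 a)) Θ).adjugate i 0 = m₁ + m₂ := em
    rw [e, add_mul, mul_add, map_add]
    exact (dg 1 _).add_mem (key 0 m₁ hm₁) (key 1 m₂ hm₂)

end YL

end MPb07157
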