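import Pool.Agent.Lib.MP_b07157_agYL.Level
import Pool.Agent.Lib.MP_b07157_agI.Pole2
import Pool.Agent.Lib.MP_b07157_agI.Geo

/-!
# The poles come from the singular points of the tangent cone
-/

noncomputable section

namespace MPb07157

open MvPolynomial

namespace YL

open SI

/-- **The poles** of germs with reduced tangent cone come from its singular points. -/
theorem exists_pole_line {f : MvPolynomial (Fin 3) ℂ} {d : ℕ} (hd : 0 < d)
    (hlow : ∀ j < d, homogeneousComponent j f = 0) (hsqf : Squarefree (homogeneousComponent d f))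
    {s₀ : ℚ} (h : ((3 : ℕ) : ℚ) / d ≠ -s₀) (h1 : s₀ ≠ -1) (hp : IsPole (Zmot0 f) s₀) :
    ∃ (q : Fin 3 → ℂ) (j₀ : Fin 3), q j₀ = 1 ∧
      (∀ j, eval q (pderiv j (homogeneousComponent d f)) = 0) ∧
      eval q (homogeneousComponent d f) = 0 ∧ lineSer f d q ∉ regularAt s₀ := by
  obtain ⟨P, hP⟩ := finite_lines hd (homogeneousComponent_isHomogeneous d f) hsqf
  classical
  by_contra hcon
  push Not at hcon
  apply hp
  set F := homogeneousComponent d f with hF
  have hFh : F.IsHomogeneous d := homogeneousComponent_isHomogeneous d f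
  set S : Set (Fin 3 → ℂ) := {q | ∀ j, eval q (pderiv j F) = 0} with hS
  have hSsm : ∀ q ∈ S, ∀ c : ℂ, c ≠ 0 → c • q ∈ S := by
    intro q hq c _ j
    rw [eval_smul_of_homog hFh.pderiv, hq j, mul_zero]
  obtain ⟨P', hP1, hP2, hP3⟩ := exists_reps S P hSsm (fun q hq hq0 => hP q hq0 hq)
  -- Euler
  have hEuler : ∀ q ∈ S, eval q F = 0 := by
    intro q hq
    have h2 := congrArg (eval q) hFh.sum_X_mul_pderiv
    rw [map_sum, map_nsmul] at h2
    have h3 : ∑ i, eval q (X i * pderiv i F) = 0 := by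
      refine Finset.sum_eq_zero ?_
      intro i _
      rw [map_mul, hq i, mul_zero]
    rw [h3, nsmul_eq_mul] at h2
    have h4 : (d : ℂ) ≠ 0 := by exact_mod_cast hd.ne'
    exact (mul_eq_zero.1 h2.symm).resolve_left h4
  have hF0 : eval 0 F = 0 := by
    have h2 := eval_smul_of_homog hFh 0 (0 : Fin 3 → ℂ)
    rw [zero_smul, zero_pow hd.ne', zero_mul] at h2
    exact h2
  have hPne : ∀ q ∈ P', q ≠ 0 := by
    rintro q hq rfl
    obtain ⟨j, hj⟩ := (hP1 0 hq).2
    simp at hj
  have hJ : ∀ q : Fin 3 → ℂ, ∃ j : Fin 3, q ∈ P' → q j = 1 := by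
    intro q
    by_cases hq : q ∈ P'
    · obtain ⟨j, hj⟩ := (hP1 q hq).2
      exact ⟨j, fun _ => hj⟩
    · exact ⟨0, fun hq' => absurd hq' hq⟩
  choose J hJ using hJ
  set W0 : Set (Fin 3 → ℂ) := {x | eval x F ≠ 0} with hW0
  have hW0c : IsConstr W0 := isConstr_ne_zero F
  -- the decomposition
  have hdec : ({0}ᶜ : Set (Fin 3 → ℂ)) = W0 ∪
      ((⋃ j ∈ (Finset.univ : Finset (Fin 3)), WJ' F j) ∪ ⋃ q ∈ P', lineW q) := by
    ext x
    simp only [Set.mem_compl_iff, Set.mem_singleton_iff, Set.mem_union, Set.mem_iUnion,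
      Finset.mem_univ, exists_prop, true_and]
    constructor
    · intro hx
      by_cases hx0 : eval x F = 0
      · right
        by_cases hs : ∀ j, eval x (pderiv j F) = 0
        · right
          exact hP3 x hs hx
        · left
          obtain ⟨j, hj⟩ := exists_mem_WJ hx0 hs
          exact ⟨j, hj, hx⟩
      · left
        exact hx0
    · rintro (hx | ⟨j, hj⟩ | ⟨q, hq, hx⟩)
      · rintro rfl
        exact hx hF0
      · exact hj.2
      · rintro rfl
        obtain ⟨c, hc, hx⟩ := hx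
        exact (smul_ne_zero hc (hPne q hq)) hx.symm
  have hWJc : ∀ j ∈ (Finset.univ : Finset (Fin 3)), IsConstr (WJ' F j) :=
    fun j _ => isConstr_WJ' F j
  have hLc : ∀ q ∈ P', IsConstr (lineW q) := fun q hq => isConstr_lineW (hPne q hq)
  have hWJd : ∀ i ∈ (Finset.univ : Finset (Fin 3)), ∀ j ∈ (Finset.univ : Finset (Fin 3)),
      i ≠ j → Disjoint (WJ' F i) (WJ' F j) := by
    intro i _ j _ hij
    rw [Set.disjoint_left]
    intro x hx hx'
    exact Set.disjoint_left.1 (disjoint_WJ F hij) hx.1 hx'.1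
  have hlineS : ∀ q ∈ P', ∀ x ∈ lineW q, x ∈ S := by
    rintro q hq x ⟨c, hc, rfl⟩
    exact hSsm q (hP1 q hq).1 c hc
  have hd1 : Disjoint W0 ((⋃ j ∈ (Finset.univ : Finset (Fin 3)), WJ' F j) ∪
      ⋃ q ∈ P', lineW q) := by
    rw [Set.disjoint_left]
    intro x hx hx'
    simp only [Set.mem_union, Set.mem_iUnion, Finset.mem_univ, exists_prop, true_and] at hx'
    rcases hx' with ⟨j, hj⟩ | ⟨q, hq, hxq⟩
    · exact hx hj.1.1
    · exact hx (hEuler x (hlineS q hq x hxq))
  have hd2 : Disjoint (⋃ j ∈ (Finset.univ : Finset (Fin 3)), WJ' F j)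
      (⋃ q ∈ P', lineW q) := by
    rw [Set.disjoint_left]
    intro x hx hx'
    simp only [Set.mem_iUnion, Finset.mem_univ, exists_prop, true_and] at hx hx'
    obtain ⟨j, hj⟩ := hx
    obtain ⟨q, hq, hxq⟩ := hx'
    exact hj.1.2.2 (hlineS q hq x hxq j)
  have hMk : ∀ k N i, Mk f d k {0}ᶜ N i = Mk f d k W0 N i +
      (∑ j, Mk f d k (WJ' F j) N i + ∑ q ∈ P', Mk f d k (lineW q) N i) := by
    intro k N i
    rw [hdec, Mk_union f d k hW0c ((isConstr_biUnion _ _ hWJc).union (isConstr_biUnion _ _ hLc)) hd1,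
      Mk_union f d k (isConstr_biUnion _ _ hWJc) (isConstr_biUnion _ _ hLc) hd2,
      pole_Mk_biUnion f d k _ _ hWJc hWJd, pole_Mk_biUnion f d k _ _ hLc hP2]
  -- the three kinds of series
  set cu : ℕ → ℕ → Mot := fun _ i => if i = 0 then ell ^ 3 * clsM W0 else 0 with hcu
  set cs : Fin 3 → ℕ → ℕ → Mot := fun j _ i => if i = 0 then 0 else
    (ell ^ 3 * clsM (WJ' F j) * ((LU : Mot) - 1)) * ell ^ i with hcs
  set cl : (Fin 3 → ℂ) → ℕ → ℕ → Mot := fun q k i => Mk f d k (lineW q) (k + i) i with hcl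
  have hMk' : ∀ k N i, 0 < k → i ≤ N → Mk f d k {0}ᶜ N i = cu k i +
      (∑ j, cs j k i + ∑ q ∈ P', cl q k i) := by
    intro k N i hk hi
    rw [hMk k N i, Mk_unit f hk hW0c (fun p hp => hp) N i]
    refine congrArg₂ (· + ·) rfl (congrArg₂ (· + ·) ?_ ?_)
    · refine Finset.sum_congr rfl ?_
      intro j _
      exact Mk_smooth f hk (isConstr_WJ' F j) (fun p hp => hp.1.1) j (fun p hp => hp.1.2.2) hi
    · refine Finset.sum_congr rfl ?_
      intro q hq
      rw [hcl]
      dsimp only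
      rw [Mk_level f d k (hLc q hq) (le_refl i) hi,
        Mk_level f d k (hLc q hq) (le_refl i) (Nat.le_add_left i k)]
  have key : Zmot0 f = serK 3 d cu + (∑ j, serK 3 d (cs j) +
      ∑ q ∈ P', serK 3 d (cl q)) := by
    ext m
    rw [map_add, map_add, map_sum, map_sum]
    unfold Zmot0 serK
    simp only [PowerSeries.coeff_mk]
    rw [Zcoeff0_eq_sum hd hlow m, Finset.sum_comm (s := Finset.univ),
      Finset.sum_comm (s := P'), ← Finset.sum_add_distrib, ← Finset.sum_add_distrib]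
    refine Finset.sum_congr rfl ?_
    intro k hk
    rw [Finset.mem_Icc] at hk
    by_cases hkm : d * k ≤ m
    · simp only [if_pos hkm]
      have hk1 : k ≤ d * k := Nat.le_mul_of_pos_left k hd
      rw [hMk' k (m - k) (m - d * k) (by omega) (by omega), mul_add, mul_add, Finset.mul_sum,
        Finset.mul_sum]
    · simp only [if_neg hkm, Finset.sum_const_zero, add_zero]
  rw [key]
  refine add_mem ?_ (add_mem ?_ ?_)
  · exact serK_unit_mem 3 hd _ h
  · refine sum_mem ?_
    intro j _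
    exact serK_smooth_mem 3 hd _ h h1
  · refine sum_mem ?_
    intro q hq
    exact hcon q (J q) (hJ q hq) (hP1 q hq).1 (hEuler q (hP1 q hq).1)

end YL

end MPb07157
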