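import Pool.Agent.Lib.MP_b07157_agI.Root

/-!
# Adjoining a root to a differential field
-/

noncomputable section

namespace MPb07157

open MvPolynomial

namespace YL

namespace RExt

variable {K : Type} [Field K] [Algebra ℂ K]

/-- The derivation of `K[X]` which acts on the coefficients. -/
def dc (δ : Derivation ℂ K K) : Derivation ℂ (Polynomial K) (Polynomial K) :=
  PolynomialModule.equivPolynomialSelf.compDer δ.mapCoeffs

theorem coeff_dc (δ : Derivation ℂ K K) (p : Polynomial K) (i : ℕ) :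
    (dc δ p).coeff i = δ (p.coeff i) := rfl

/-- The derivation of `K[X]` with `X ↦ c X`. -/
def dd (δ : Derivation ℂ K K) (c : K) : Derivation ℂ (Polynomial K) (Polynomial K) :=
  dc δ + (Polynomial.C c * Polynomial.X) • (Polynomial.derivative' (R := K)).restrictScalars ℂ

theorem dd_apply (δ : Derivation ℂ K K) (c : K) (p : Polynomial K) :
    dd δ c p = dc δ p + Polynomial.C c * Polynomial.X * Polynomial.derivative p := rfl

theorem dc_C (δ : Derivation ℂ K K) (a : K) : dc δ (Polynomial.C a) = Polynomial.C (δ a) := by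
  ext i
  rw [coeff_dc, Polynomial.coeff_C, Polynomial.coeff_C]
  split_ifs
  · rfl
  · exact map_zero δ

theorem dc_X_pow (δ : Derivation ℂ K K) (e : ℕ) : dc δ (Polynomial.X ^ e) = 0 := by
  ext i
  rw [coeff_dc, Polynomial.coeff_X_pow, Polynomial.coeff_zero]
  split_ifs
  · exact δ.map_one_eq_zero
  · exact map_zero δ

theorem dd_C (δ : Derivation ℂ K K) (c a : K) : dd δ c (Polynomial.C a) = Polynomial.C (δ a) := by
  rw [dd_apply, dc_C, Polynomial.derivative_C, mul_zero, add_zero]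

theorem degree_dd_lt (δ : Derivation ℂ K K) (c : K) {p : Polynomial K} {e : ℕ}
    (h : p.degree < e) : (dd δ c p).degree < e := by
  rw [Polynomial.degree_lt_iff_coeff_zero] at h ⊢
  intro i hi
  rw [dd_apply, Polynomial.coeff_add, coeff_dc, h i hi, map_zero, zero_add, mul_assoc,
    Polynomial.coeff_C_mul]
  rcases i with _ | i
  · rw [Polynomial.coeff_X_mul_zero, mul_zero]
  · rw [Polynomial.coeff_X_mul, Polynomial.coeff_derivative, h (i + 1) hi, zero_mul, mul_zero]

theorem coeff_zero_dd (δ : Derivation ℂ K K) (c : K) (p : Polynomial K) :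
    (dd δ c p).coeff 0 = δ (p.coeff 0) := by
  rw [dd_apply, Polynomial.coeff_add, coeff_dc, mul_assoc, Polynomial.coeff_C_mul,
    Polynomial.coeff_X_mul_zero, mul_zero, add_zero]

/-- The polynomial `X^e - f₀`. -/
def pe (f₀ : K) (e : ℕ) : Polynomial K := Polynomial.X ^ e - Polynomial.C f₀

omit [Algebra ℂ K] in
theorem pe_monic (f₀ : K) {e : ℕ} (he : 0 < e) : (pe f₀ e).Monic :=
  Polynomial.monic_X_pow_sub_C f₀ he.ne'

omit [Algebra ℂ K] in
theorem pe_degree (f₀ : K) {e : ℕ} (he : 0 < e) : (pe f₀ e).degree = e :=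
  Polynomial.degree_X_pow_sub_C he f₀

theorem dd_pe (δ : Derivation ℂ K K) {f₀ c : K} {e : ℕ} (he : 0 < e)
    (hc : (e : K) * c * f₀ = δ f₀) :
    dd δ c (pe f₀ e) = Polynomial.C ((e : K) * c) * pe f₀ e := by
  unfold pe
  rw [map_sub, dd_C, dd_apply, dc_X_pow, zero_add, Polynomial.derivative_X_pow, ← hc]
  obtain ⟨k, rfl⟩ := Nat.exists_eq_succ_of_ne_zero he.ne'
  simp only [map_mul, Nat.succ_eq_add_one, Nat.add_sub_cancel]
  ring

end RExt

open RExt in
/-- The ring `K[w]` with `w^e = f₀`, its derivation, and the projection to the part of degree zero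
in `w`. -/
theorem exists_root_ext {K : Type} [Field K] [CharZero K] [Algebra ℂ K] (δ : Derivation ℂ K K)
    {f₀ : K} (hf₀ : f₀ ≠ 0) {e : ℕ} (he : 0 < e) :
    ∃ (K' : Type) (_ : CommRing K') (_ : Algebra ℂ K') (i : K →ₐ[ℂ] K')
      (δ₁ : Derivation ℂ K' K') (w : K'ˣ) (π : K' →+ K),
      (w : K') ^ e = i f₀ ∧ (∀ a, δ₁ (i a) = i (δ a)) ∧ (∀ a x, π (i a * x) = a * π x) ∧
        π 1 = 1 ∧ ∀ x, π (δ₁ x) = δ (π x) := by
  classical
  have heK : (e : K) ≠ 0 := by exact_mod_cast he.ne'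
  set c : K := δ f₀ / ((e : K) * f₀) with hc
  have hc' : (e : K) * c * f₀ = δ f₀ := by
    rw [hc]
    field_simp
  set g : Polynomial K := pe f₀ e with hg
  have hm : g.Monic := pe_monic f₀ he
  have hdeg : g.degree = e := pe_degree f₀ he
  let mk : Polynomial K →ₐ[ℂ] AdjoinRoot g := (AdjoinRoot.mkₐ g).restrictScalars ℂ
  have hmk : ∀ x, mk x = AdjoinRoot.mk g x := fun x => rfl
  have hker : ∀ x, mk x = 0 → mk (dd δ c x) = 0 := by
    intro x hx
    rw [hmk, AdjoinRoot.mk_eq_zero] at hx ⊢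
    obtain ⟨q, rfl⟩ := hx
    rw [Derivation.leibniz, smul_eq_mul, smul_eq_mul]
    refine dvd_add (Dvd.intro _ rfl) ?_
    rw [hg, dd_pe δ he hc']
    exact Dvd.intro_left (q * Polynomial.C ((e : K) * c)) (by ring)
  have hsurj : Function.Surjective mk := AdjoinRoot.mk_surjective
  let δ₁ : Derivation ℂ (AdjoinRoot g) (AdjoinRoot g) :=
    Derivation.liftOfSurjective hsurj (d := dd δ c) hker
  have hδ₁ : ∀ x, δ₁ (mk x) = mk (dd δ c x) := fun x =>
    Derivation.liftOfSurjective_apply hsurj hker x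
  let i : K →ₐ[ℂ] AdjoinRoot g := mk.comp (IsScalarTower.toAlgHom ℂ K (Polynomial K))
  have hi : ∀ a, i a = mk (Polynomial.C a) := fun a => rfl
  have hroot : AdjoinRoot.root g ^ e = i f₀ := by
    have h1 : mk (Polynomial.X ^ e) = mk (Polynomial.C f₀) := by
      have h2 : mk g = 0 := by
        rw [hmk]
        exact AdjoinRoot.mk_self
      have h3 : mk g = mk (Polynomial.X ^ e) - mk (Polynomial.C f₀) := by
        rw [← map_sub]
        rfl
      exact sub_eq_zero.1 (h3.symm.trans h2)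
    rw [hi, ← h1, map_pow]
    rfl
  have hunit : IsUnit (AdjoinRoot.root g) := by
    refine (isUnit_pow_iff he.ne').1 ?_
    rw [hroot]
    exact (isUnit_iff_ne_zero.2 hf₀).map i
  obtain ⟨w, hw⟩ := hunit
  let π : AdjoinRoot g →+ K :=
    ((Polynomial.lcoeff K 0).comp (AdjoinRoot.modByMonicHom hm)).toAddMonoidHom
  have hπ : ∀ x, π x = (AdjoinRoot.modByMonicHom hm x).coeff 0 := fun x => rfl
  have hlow : ∀ p : Polynomial K, p.degree < e → π (mk p) = p.coeff 0 := by
    intro p hp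
    rw [hπ, hmk, AdjoinRoot.modByMonicHom_mk, (Polynomial.modByMonic_eq_self_iff hm).2]
    rw [hdeg]
    exact hp
  have hrep : ∀ x : AdjoinRoot g, ∃ p : Polynomial K, p.degree < e ∧ mk p = x := by
    intro x
    refine ⟨AdjoinRoot.modByMonicHom hm x, ?_, AdjoinRoot.mk_leftInverse hm x⟩
    obtain ⟨q, rfl⟩ := AdjoinRoot.mk_surjective x
    rw [AdjoinRoot.modByMonicHom_mk, ← hdeg]
    exact Polynomial.degree_modByMonic_lt _ hm
  refine ⟨AdjoinRoot g, inferInstance, inferInstance, i, δ₁, w, π, ?_, ?_, ?_, ?_, ?_⟩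
  · rw [hw]
    exact hroot
  · intro a
    rw [hi, hδ₁, dd_C, hi]
  · intro a x
    have h1 : i a * x = a • x := by
      obtain ⟨q, rfl⟩ := AdjoinRoot.mk_surjective x
      rw [hi, hmk, ← map_mul, ← Polynomial.smul_eq_C_mul, AdjoinRoot.smul_mk]
    rw [h1, hπ, map_smul, Polynomial.coeff_smul, smul_eq_mul, hπ]
  · have h1 : (1 : AdjoinRoot g) = mk 1 := (map_one mk).symm
    rw [h1, hlow 1 ?_, Polynomial.coeff_one_zero]
    rw [Polynomial.degree_one]
    exact_mod_cast he
  · intro x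
    obtain ⟨p, hp, rfl⟩ := hrep x
    rw [hδ₁, hlow _ (degree_dd_lt δ c hp), hlow _ hp, coeff_zero_dd]

end YL

end MPb07157
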